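import Pool.Agent.H419R3.CPNec2

/-!
# The classification for metrizable spaces
-/

open Set Filter TopologicalSpace Topology Metric

noncomputable section

namespace H419R3.CP

/-- Locally compact Hausdorff spaces whose set of non-isolated points is Lindelöf. -/
theorem normal_of_locallyCompact {X : Type*} [TopologicalSpace X] [T2Space X]
    [LocallyCompactSpace X] (hL : IsLindelof {x : X | ¬ IsOpen ({x} : Set X)})
    {r : X → X → Prop} (hr : ClosedPreorder r) : NormalPreorder r := by
  choose N hN hNn using fun x : X => exists_compact_mem_nhds x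
  obtain ⟨t, htc, -, hcov⟩ := hL.elim_nhds_subcover (fun x => interior (N x))
    (fun x _ => interior_mem_nhds.2 (hNn x))
  set W : Set X := ⋃ x ∈ t, interior (N x) with hW
  have hWo : IsOpen W := isOpen_biUnion fun x _ => isOpen_interior
  have hW' : ∀ x ∉ W, IsOpen ({x} : Set X) := by
    intro x hx
    by_contra h
    exact hx (hcov h)
  have hWc : IsClosed W := by
    rw [← isOpen_compl_iff, isOpen_iff_forall_mem_open]
    intro x hx
    exact ⟨{x}, by simpa using hx, hW' x hx, rfl⟩
  have hWs : IsSigmaCompact W := by
    have h1 : W = ⋃ x ∈ t, (N x ∩ W) := by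
      apply Subset.antisymm
      · intro y hy
        obtain ⟨x, hx, hyx⟩ := mem_iUnion₂.1 hy
        exact mem_iUnion₂.2 ⟨x, hx, interior_subset hyx, hy⟩
      · intro y hy
        obtain ⟨x, hx, hyx⟩ := mem_iUnion₂.1 hy
        exact hyx.2
    rw [h1]
    exact isSigmaCompact_biUnion htc fun x _ => ((hN x).inter_right hWc).isSigmaCompact
  have : SigmaCompactSpace W := isSigmaCompact_iff_sigmaCompactSpace.1 hWs
  have : LocallyCompactSpace W := hWo.locallyCompactSpace
  exact normal_of_clopen hWo hW' hr (normal_of_sigmaCompact (hr.subtype W))

/-- The classification for metrizable spaces. -/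
theorem metrizable_iff {X : Type*} [TopologicalSpace X] [MetrizableSpace X] :
    (∀ r : X → X → Prop, ClosedPreorder r → NormalPreorder r) ↔
      IsCompact {x : X | ¬ IsOpen ({x} : Set X)} ∨
        (LocallyCompactSpace X ∧ IsSeparable {x : X | ¬ IsOpen ({x} : Set X)}) := by
  constructor
  · intro h
    let _ : MetricSpace X := TopologicalSpace.metrizableSpaceMetric X
    by_cases hK : IsCompact {x : X | ¬ IsOpen ({x} : Set X)}
    · exact Or.inl hK
    right
    constructor
    · have : WeaklyLocallyCompactSpace X := by
        refine ⟨fun q => ?_⟩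
        by_contra hq
        push Not at hq
        obtain ⟨r, hr, hnr⟩ := obstruction_one hK q (fun ε hε hc =>
          hq _ hc (closedBall_mem_nhds q hε))
        exact hnr (h r hr)
      infer_instance
    · by_contra hS
      obtain ⟨r, hr, hnr⟩ := obstruction_two hS
      exact hnr (h r hr)
  · rintro (hK | ⟨hlc, hS⟩) r hr
    · exact normal_of_compact hK (fun x hx => by
        by_contra h
        exact hx h) hr
    · apply normal_of_locallyCompact _ hr
      have := hS.secondCountableTopology
      exact isLindelof_iff_lindelofSpace.2 inferInstance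

end H419R3.CP
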