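import Pool.Agent.H419R3.CPSuff

/-!
# Necessary conditions in metric spaces
-/

open Set Filter TopologicalSpace Topology Metric

noncomputable section

namespace H419R3.CP

/-- A relation without composable pairs and its diagonal form a closed preorder. -/
theorem closedPreorder_bipartite {X : Type*} [TopologicalSpace X] [T2Space X] {G : Set (X × X)}
    (hG : IsClosed G) (h : ∀ p ∈ G, ∀ p' ∈ G, p.2 ≠ p'.1) :
    ClosedPreorder (fun x y : X => x = y ∨ (x, y) ∈ G) where
  refl x := Or.inl rfl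
  trans x y z h1 h2 := by
    rcases h1 with rfl | h1
    · exact h2
    · rcases h2 with rfl | h2
      · exact Or.inr h1
      · exact absurd rfl (h _ h1 _ h2)
  closed := isClosed_diagonal.union hG

variable {X : Type*} [MetricSpace X]

theorem exists_finite_of_no_subseq (s : ℕ → X)
    (h : ∀ (a : X) (φ : ℕ → ℕ), StrictMono φ → ¬ Tendsto (s ∘ φ) atTop (𝓝 a)) (a : X) :
    ∃ ε > 0, {n | dist (s n) a < ε}.Finite := by
  by_contra hcon
  push Not at hcon
  have hcl : MapClusterPt a atTop s := by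
    rw [mapClusterPt_iff_frequently]
    intro t ht
    obtain ⟨ε, hε, hb⟩ := Metric.mem_nhds_iff.1 ht
    have h1 := Nat.frequently_atTop_iff_infinite.2 (hcon ε hε)
    exact h1.mono fun n hn => hb hn
  obtain ⟨φ, hφ, hlim⟩ := hcl.tendsto_subseq
  exact h a φ hφ hlim

theorem exists_seq_of_not_isCompact {K : Set X} (hKc : IsClosed K) (hK : ¬ IsCompact K) (q : X) :
    ∃ s : ℕ → X, (∀ n, s n ∈ K) ∧ (∃ ε > 0, ∀ n, ε ≤ dist (s n) q) ∧
      ∀ a, ∃ ε > 0, {n | dist (s n) a < ε}.Finite := by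
  have h1 : ¬ IsSeqCompact K := fun h => hK h.isCompact
  unfold IsSeqCompact at h1
  push Not at h1
  obtain ⟨s, hs, hno⟩ := h1
  have h2 : ∀ a, ∃ ε > 0, {n | dist (s n) a < ε}.Finite := by
    apply exists_finite_of_no_subseq
    intro a φ hφ hlim
    exact hno a (hKc.mem_of_tendsto hlim (Eventually.of_forall fun n => hs _)) φ hφ hlim
  obtain ⟨ε, hε, hfin⟩ := h2 q
  obtain ⟨N, hN⟩ := hfin.bddAbove
  refine ⟨fun n => s (n + (N + 1)), fun n => hs _, ⟨ε, hε, ?_⟩, ?_⟩
  · intro n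
    by_contra hcon
    push Not at hcon
    have : n + (N + 1) ≤ N := hN hcon
    omega
  · intro a
    obtain ⟨η, hη, hf⟩ := h2 a
    exact ⟨η, hη, hf.preimage (f := fun n : ℕ => n + (N + 1))
      (fun x _ y _ hxy => by simpa using hxy)⟩

/-- First obstruction. -/
theorem obstruction_one (hK : ¬ IsCompact {x : X | ¬ IsOpen ({x} : Set X)}) (q : X)
    (hq : ∀ ε > 0, ¬ IsCompact (closedBall q ε)) :
    ∃ r : X → X → Prop, ClosedPreorder r ∧ ¬ NormalPreorder r := by
  have hKc : IsClosed {x : X | ¬ IsOpen ({x} : Set X)} := by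
    rw [← isOpen_compl_iff, isOpen_iff_forall_mem_open]
    intro x hx
    have hx' : IsOpen ({x} : Set X) := by
      by_contra h
      exact hx h
    refine ⟨{x}, ?_, hx', rfl⟩
    rintro y rfl h
    exact h hx'
  obtain ⟨R, hR, ⟨ε₀, hε₀, hRq⟩, hRf⟩ := exists_seq_of_not_isCompact hKc hK q
  set δ : ℝ := ε₀ / 3 with hδ
  have hδ0 : 0 < δ := by positivity
  have hz : ∀ n : ℕ, ∃ s : ℕ → X, (∀ j, s j ∈ closedBall q (min δ (1 / ((n : ℝ) + 1)))) ∧
      (∃ ε > 0, ∀ j, ε ≤ dist (s j) q) ∧ ∀ a, ∃ ε > 0, {j | dist (s j) a < ε}.Finite := by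
    intro n
    exact exists_seq_of_not_isCompact isClosed_closedBall (hq _ (lt_min hδ0 (by positivity))) q
  choose z hzb hzq hzf using hz
  have hy : ∀ n j : ℕ, ∃ y : X, dist y (R n) < min δ (1 / ((n : ℝ) + j + 1)) ∧
      y ∉ range R := by
    intro n j
    obtain ⟨ε₁, hε₁, hf⟩ := hRf (R n)
    have hne : (𝓝[≠] (R n)).NeBot := by
      exact neBot_iff.2 fun h => hR n ((isOpen_singleton_iff_punctured_nhds _).2 h)
    have hm : (0 : ℝ) < min δ (1 / ((n : ℝ) + j + 1)) := lt_min hδ0 (by positivity)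
    have hinf := infinite_of_mem_nhds (R n) (Metric.ball_mem_nhds (R n)
      (lt_min hm hε₁))
    obtain ⟨y, hy1, hy2⟩ := hinf.exists_notMem_finite (hf.image R)
    refine ⟨y, lt_of_lt_of_le (mem_ball.1 hy1) (min_le_left _ _), ?_⟩
    rintro ⟨m, rfl⟩
    exact hy2 ⟨m, lt_of_lt_of_le (mem_ball.1 hy1) (min_le_right _ _), rfl⟩
  choose y hyd hyR using hy
  let Gn : ℕ → Set (X × X) := fun n => ⋃ j, {(z n j, y n j)}
  have hGn : ∀ n, IsClosed (Gn n) := by
    intro n
    apply LocallyFinite.isClosed_iUnion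
    · intro p
      obtain ⟨ε, hε, hf⟩ := hzf n p.1
      refine ⟨Prod.fst ⁻¹' ball p.1 ε, continuous_fst.continuousAt.preimage_mem_nhds
        (Metric.ball_mem_nhds _ hε), hf.subset ?_⟩
      rintro j ⟨_, rfl, h⟩
      exact h
    · intro j
      exact isClosed_singleton
  have hG : IsClosed (⋃ n, Gn n) := by
    apply LocallyFinite.isClosed_iUnion _ hGn
    intro p
    obtain ⟨ε, hε, hf⟩ := hRf p.2
    obtain ⟨N, hN⟩ := exists_nat_one_div_lt (half_pos hε)
    refine ⟨Prod.snd ⁻¹' ball p.2 (ε / 2), continuous_snd.continuousAt.preimage_mem_nhds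
        (Metric.ball_mem_nhds _ (half_pos hε)), (hf.union (Set.finite_lt_nat (N + 1))).subset ?_⟩
    rintro n ⟨w, hw, hw2⟩
    obtain ⟨j, hj⟩ := mem_iUnion.1 hw
    rw [mem_singleton_iff] at hj
    subst hj
    by_cases hnN : n < N + 1
    · exact Or.inr hnN
    · left
      have h1 : dist (y n j) p.2 < ε / 2 := hw2
      have h2 : dist (y n j) (R n) < 1 / ((n : ℝ) + j + 1) :=
        lt_of_lt_of_le (hyd n j) (min_le_right _ _)
      have h3 : 1 / ((n : ℝ) + j + 1) ≤ 1 / ((N : ℝ) + 1) := by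
        apply one_div_le_one_div_of_le (by positivity)
        have : (N : ℝ) ≤ n := by exact_mod_cast (by omega : N ≤ n)
        have hj0 : (0 : ℝ) ≤ j := Nat.cast_nonneg j
        linarith
      have h4 : dist (R n) p.2 ≤ dist (R n) (y n j) + dist (y n j) p.2 := dist_triangle _ _ _
      rw [dist_comm (R n) (y n j)] at h4
      show dist (R n) p.2 < ε
      linarith
  have hyq : ∀ n j, 2 * δ ≤ dist (y n j) q := by
    intro n j
    have h1 : dist (y n j) (R n) < δ := lt_of_lt_of_le (hyd n j) (min_le_left _ _)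
    have h2 : dist (R n) q ≤ dist (R n) (y n j) + dist (y n j) q := dist_triangle _ _ _
    rw [dist_comm (R n) (y n j)] at h2
    have h3 := hRq n
    have h4 : ε₀ = 3 * δ := by rw [hδ]; ring
    linarith
  have hzq' : ∀ n j, dist (z n j) q ≤ δ := fun n j =>
    (mem_closedBall.1 (hzb n j)).trans (min_le_left _ _)
  have hcomp : ∀ p ∈ ⋃ n, Gn n, ∀ p' ∈ ⋃ n, Gn n, p.2 ≠ p'.1 := by
    rintro p hp p' hp' heq
    obtain ⟨n, hn⟩ := mem_iUnion.1 hp
    obtain ⟨j, hj⟩ := mem_iUnion.1 hn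
    obtain ⟨m, hm⟩ := mem_iUnion.1 hp'
    obtain ⟨i, hi⟩ := mem_iUnion.1 hm
    rw [mem_singleton_iff] at hj hi
    subst hj hi
    have h1 := hyq n j
    have h2 := hzq' m i
    have h3 : y n j = z m i := heq
    rw [h3] at h1
    linarith
  refine ⟨_, closedPreorder_bipartite hG hcomp, ?_⟩
  intro hN
  have hA : IsClosed (range R) := by
    rw [← iUnion_singleton_eq_range]
    apply LocallyFinite.isClosed_iUnion _ (fun n => isClosed_singleton)
    intro p
    obtain ⟨ε, hε, hf⟩ := hRf p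
    refine ⟨ball p ε, Metric.ball_mem_nhds _ hε, hf.subset ?_⟩
    rintro n ⟨_, rfl, h⟩
    exact h
  obtain ⟨U, V, hU, hV, dU, iV, hAU, hBV, hd⟩ := hN (range R) {q} hA isClosed_singleton (by
      rintro x w (rfl | h) hw
      · exact hw
      · obtain ⟨n, hn⟩ := mem_iUnion.1 h
        obtain ⟨j, hj⟩ := mem_iUnion.1 hn
        rw [mem_singleton_iff, Prod.mk.injEq] at hj
        rw [hj.2] at hw
        exact (hyR n j hw).elim) (by
      rintro x w (rfl | h) hw
      · exact hw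
      · obtain ⟨n, hn⟩ := mem_iUnion.1 h
        obtain ⟨j, hj⟩ := mem_iUnion.1 hn
        rw [mem_singleton_iff, Prod.mk.injEq] at hj
        rw [mem_singleton_iff, hj.1] at hw
        obtain ⟨ε, hε, hle⟩ := hzq n
        have := hle j
        rw [hw, dist_self] at this
        linarith) (by
      rw [Set.disjoint_left]
      rintro _ ⟨n, rfl⟩ hw
      have := hRq n
      rw [mem_singleton_iff.1 hw, dist_self] at this
      linarith)
  obtain ⟨ε, hε, hball⟩ := Metric.isOpen_iff.1 hV q (hBV rfl)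
  obtain ⟨n, hn⟩ := exists_nat_one_div_lt hε
  obtain ⟨η, hη, hball'⟩ := Metric.isOpen_iff.1 hU (R n) (hAU ⟨n, rfl⟩)
  obtain ⟨j, hj⟩ := exists_nat_one_div_lt hη
  have h1 : y n j ∈ U := by
    apply hball'
    rw [mem_ball]
    have h2 : dist (y n j) (R n) < 1 / ((n : ℝ) + j + 1) :=
      lt_of_lt_of_le (hyd n j) (min_le_right _ _)
    have h3 : 1 / ((n : ℝ) + j + 1) ≤ 1 / ((j : ℝ) + 1) := by
      apply one_div_le_one_div_of_le (by positivity)
      have hj0 : (0 : ℝ) ≤ n := Nat.cast_nonneg n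
      linarith
    linarith
  have h2 : z n j ∈ U := dU (z n j) (y n j)
    (Or.inr (mem_iUnion.2 ⟨n, mem_iUnion.2 ⟨j, rfl⟩⟩)) h1
  have h3 : z n j ∈ V := by
    apply hball
    rw [mem_ball]
    exact lt_of_le_of_lt ((mem_closedBall.1 (hzb n j)).trans (min_le_right _ _)) hn
  exact Set.disjoint_left.1 hd h2 h3

end H419R3.CP
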