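import Pool.Agent.H419R3.CPNec

/-!
# Second obstruction in metric spaces: uncountably many separated non-isolated points
-/

open Set Filter TopologicalSpace Topology Metric

noncomputable section

namespace H419R3.CP

universe u

theorem exists_separated {X : Type*} [MetricSpace X] {S : Set X} (hS : ¬ IsSeparable S) :
    ∃ ε > 0, ∃ M ⊆ S, ¬ M.Countable ∧ ∀ x ∈ M, ∀ y ∈ M, x ≠ y → ε ≤ dist x y := by
  by_contra hcon
  push Not at hcon
  have hmax : ∀ n : ℕ, ∃ M, Maximal (· ∈ {M : Set X | M ⊆ S ∧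
      ∀ x ∈ M, ∀ y ∈ M, x ≠ y → 1 / ((n : ℝ) + 1) ≤ dist x y}) M := by
    intro n
    apply zorn_subset
    intro c hc hch
    refine ⟨⋃₀ c, ⟨sUnion_subset fun s hs => (hc hs).1, ?_⟩, fun s hs => subset_sUnion_of_mem hs⟩
    rintro x ⟨s, hs, hxs⟩ y ⟨t, ht, hyt⟩ hxy
    rcases hch.total hs ht with h | h
    · exact (hc ht).2 x (h hxs) y hyt hxy
    · exact (hc hs).2 x hxs y (h hyt) hxy
  choose M hM using hmax
  have hMc : ∀ n, (M n).Countable := by
    intro n
    by_contra h
    obtain ⟨x, hx, y, hy, hxy, hlt⟩ := hcon (1 / ((n : ℝ) + 1)) (by positivity) (M n)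
      (hM n).prop.1 h
    exact absurd ((hM n).prop.2 x hx y hy hxy) (not_le.2 hlt)
  apply hS
  refine ⟨⋃ n, M n, countable_iUnion hMc, ?_⟩
  intro x hx
  rw [Metric.mem_closure_iff]
  intro ε hε
  obtain ⟨n, hn⟩ := exists_nat_one_div_lt hε
  by_contra hcon2
  push Not at hcon2
  have hins : insert x (M n) ∈ {M : Set X | M ⊆ S ∧
      ∀ x ∈ M, ∀ y ∈ M, x ≠ y → 1 / ((n : ℝ) + 1) ≤ dist x y} := by
    refine ⟨insert_subset hx (hM n).prop.1, ?_⟩
    rintro a (rfl | ha) b (rfl | hb) hab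
    · exact absurd rfl hab
    · exact hn.le.trans (hcon2 b (mem_iUnion.2 ⟨n, hb⟩))
    · rw [dist_comm]
      exact hn.le.trans (hcon2 a (mem_iUnion.2 ⟨n, ha⟩))
    · exact (hM n).prop.2 a ha b hb hab
  have hxM : x ∈ M n := (hM n).le_of_ge hins (subset_insert _ _) (mem_insert _ _)
  have := hcon2 x (mem_iUnion.2 ⟨n, hxM⟩)
  rw [dist_self] at this
  linarith

theorem exists_uncountable_fiber {I : Type*} [Uncountable I] (F : I → ℕ) :
    ∃ m, ¬ {i | F i = m}.Countable := by
  by_contra h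
  push Not at h
  have h1 : (univ : Set I).Countable := by
    have : (univ : Set I) = ⋃ m, {i | F i = m} := by
      ext i
      simp
    rw [this]
    exact countable_iUnion h
  exact not_countable_univ_iff.2 inferInstance h1

theorem exists_pair {I : Type*} [LinearOrder I] [Uncountable I]
    (hI : ∀ i : I, (Set.Iio i).Countable) (h : I → I → ℕ)
    (hinj : ∀ β, Set.InjOn (fun α => h α β) (Set.Iio β)) (F G : I → ℕ) :
    ∃ α β, α < β ∧ F α ≤ h α β ∧ G β ≤ h α β := by
  obtain ⟨m, hm⟩ := exists_uncountable_fiber F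
  obtain ⟨l, hl⟩ := exists_uncountable_fiber G
  have hinf : {i | F i = m}.Infinite := fun hf => hm hf.countable
  let c := hinf.natEmbedding
  have hT : (⋃ k, Iic ((c k : I))).Countable := countable_iUnion fun k => by
    rw [← Iio_insert]
    exact (hI _).insert _
  have : ∃ β ∈ {i | G i = l}, β ∉ ⋃ k, Iic ((c k : I)) := by
    by_contra hcon
    push Not at hcon
    exact hl (hT.mono hcon)
  obtain ⟨β, hβ, hβT⟩ := this
  have hlt : ∀ k, (c k : I) < β := by
    intro k
    by_contra hk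
    exact hβT (mem_iUnion.2 ⟨k, not_lt.1 hk⟩)
  have hi : Function.Injective (fun k => h (c k) β) := by
    intro k k' hkk
    exact c.injective (Subtype.ext (hinj β (hlt k) (hlt k') hkk))
  obtain ⟨_, ⟨k, rfl⟩, hk⟩ := (Set.infinite_range_of_injective hi).exists_gt (max m l)
  have h1 : F (c k) = m := (c k).2
  have h2 : G β = l := hβ
  refine ⟨c k, β, hlt k, ?_, ?_⟩
  · rw [h1]
    exact (le_max_left _ _).trans hk.le
  · rw [h2]
    exact (le_max_right _ _).trans hk.le

theorem exists_index (c : Type u) (hc : Uncountable c) : ∃ (I : Type u) (_ : LinearOrder I),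
    Uncountable I ∧ (∀ i : I, (Set.Iio i).Countable) ∧ Nonempty (I ⊕ I ↪ c) := by
  refine ⟨(Cardinal.aleph.{u} 1).ord.ToType, inferInstance, ?_, ?_, ?_⟩
  · rw [← Cardinal.aleph0_lt_mk_iff, Cardinal.mk_ord_toType]
    exact Cardinal.aleph0_lt_aleph_one
  · intro i
    rw [← Cardinal.le_aleph0_iff_set_countable, ← Cardinal.lt_aleph_one_iff]
    have h1 : Cardinal.mk (Iio i) < Cardinal.mk (Cardinal.aleph.{u} 1).ord.ToType :=
      Cardinal.mk_Iio_lt i (by simp)
    rwa [Cardinal.mk_ord_toType] at h1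
  · rw [← Cardinal.le_def, Cardinal.mk_sum, Cardinal.mk_ord_toType]
    simp only [Cardinal.lift_id]
    rw [Cardinal.add_eq_self (Cardinal.aleph0_lt_aleph_one.le), Cardinal.aleph_one_le_iff,
      Cardinal.aleph0_lt_mk_iff]
    exact hc

variable {X : Type u} [MetricSpace X]

/-- Second obstruction. -/
theorem obstruction_two (hS : ¬ IsSeparable {x : X | ¬ IsOpen ({x} : Set X)}) :
    ∃ r : X → X → Prop, ClosedPreorder r ∧ ¬ NormalPreorder r := by
  obtain ⟨ε, hε, M, hMS, hMc, hsep⟩ := exists_separated hS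
  have hMu : Uncountable M := by
    rw [← not_countable_iff]
    exact fun h => hMc h
  obtain ⟨I, _, hIu, hI, ⟨e⟩⟩ := exists_index M hMu
  let c : I ⊕ I → X := fun s => (e s : X)
  have hcs : ∀ s t, s ≠ t → ε ≤ dist (c s) (c t) := fun s t hst =>
    hsep _ (e s).2 _ (e t).2 fun h => hst (e.injective (Subtype.ext h))
  have hiso : ∀ s, ¬ IsOpen ({c s} : Set X) := fun s => hMS (e s).2
  have hy : ∀ (s : I ⊕ I) (j : ℕ), ∃ y : X, y ≠ c s ∧ dist y (c s) < min (ε / 4) (1 / ((j : ℝ) + 1)) := by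
    intro s j
    have hne : (𝓝[≠] (c s)).NeBot :=
      neBot_iff.2 fun h => hiso s ((isOpen_singleton_iff_punctured_nhds _).2 h)
    have hm : (0 : ℝ) < min (ε / 4) (1 / ((j : ℝ) + 1)) := lt_min (by positivity) (by positivity)
    obtain ⟨y, hy1, hy2⟩ := (infinite_of_mem_nhds (c s)
      (Metric.ball_mem_nhds (c s) hm)).exists_notMem_finite (finite_singleton (c s))
    exact ⟨y, by simpa using hy2, hy1⟩
  choose y hyne hyd using hy
  have hy4 : ∀ s j, dist (y s j) (c s) < ε / 4 := fun s j =>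
    lt_of_lt_of_le (hyd s j) (min_le_left _ _)
  have key : ∀ s t i j (w : X), dist (y s i) w < ε / 4 → dist (y t j) w < ε / 4 → s = t := by
    intro s t i j w h1 h2
    by_contra hst
    have h3 := hcs s t hst
    have h4 := hy4 s i
    have h5 := hy4 t j
    have h6 : dist (c s) (c t) ≤ dist (c s) (y s i) + dist (y s i) w + (dist w (y t j) +
        dist (y t j) (c t)) := by
      calc dist (c s) (c t) ≤ dist (c s) w + dist w (c t) := dist_triangle _ _ _
        _ ≤ _ := add_le_add (dist_triangle _ _ _) (dist_triangle _ _ _)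
    rw [dist_comm (c s) (y s i), dist_comm w (y t j)] at h6
    linarith
  have hh : ∀ β : I, ∃ f : I → ℕ, InjOn f (Iio β) := fun β =>
    countable_iff_exists_injOn.1 (hI β)
  choose h' hinj using hh
  let h : I → I → ℕ := fun α β => h' β α
  let Q : Type _ := {p : I × I // p.1 < p.2}
  let g : Q → X × X := fun p =>
    (y (Sum.inr p.1.2) (h p.1.1 p.1.2), y (Sum.inl p.1.1) (h p.1.1 p.1.2))
  have hG : IsClosed (⋃ p : Q, ({g p} : Set (X × X))) := by
    apply LocallyFinite.isClosed_iUnion _ (fun _ => isClosed_singleton)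
    intro w
    refine ⟨Prod.fst ⁻¹' ball w.1 (ε / 4) ∩ Prod.snd ⁻¹' ball w.2 (ε / 4),
      inter_mem (continuous_fst.continuousAt.preimage_mem_nhds
        (Metric.ball_mem_nhds _ (by positivity)))
        (continuous_snd.continuousAt.preimage_mem_nhds
        (Metric.ball_mem_nhds _ (by positivity))), Set.Subsingleton.finite ?_⟩
    rintro p ⟨_, rfl, hp1, hp2⟩ p' ⟨_, rfl, hp1', hp2'⟩
    have e1 := key _ _ _ _ _ hp1 hp1'
    have e2 := key _ _ _ _ _ hp2 hp2'
    apply Subtype.ext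
    exact Prod.ext (Sum.inl_injective e2) (Sum.inr_injective e1)
  have hcomp : ∀ p ∈ ⋃ p : Q, ({g p} : Set (X × X)), ∀ p' ∈ ⋃ p : Q, ({g p} : Set (X × X)),
      p.2 ≠ p'.1 := by
    intro p hp p' hp' heq
    obtain ⟨q, hq⟩ := mem_iUnion.1 hp
    obtain ⟨q', hq'⟩ := mem_iUnion.1 hp'
    rw [mem_singleton_iff] at hq hq'
    subst hq hq'
    have h3 : (g q).2 = (g q').1 := heq
    have := key (Sum.inl q.1.1) (Sum.inr q'.1.2) _ _ (g q).2
      (by rw [dist_self]; positivity) (by rw [h3, dist_self]; positivity)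
    exact absurd this (by simp)
  refine ⟨_, closedPreorder_bipartite hG hcomp, ?_⟩
  intro hN
  have hcl : ∀ k : I → I ⊕ I, Function.Injective k → IsClosed (range fun i => c (k i)) := by
    intro k hk
    rw [← iUnion_singleton_eq_range]
    apply LocallyFinite.isClosed_iUnion _ (fun n => isClosed_singleton)
    intro w
    refine ⟨ball w (ε / 2), Metric.ball_mem_nhds _ (by positivity), Set.Subsingleton.finite ?_⟩
    rintro i ⟨_, rfl, hi⟩ j ⟨_, rfl, hj⟩
    by_contra hij
    have h1 := hcs (k i) (k j) (fun h => hij (hk h))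
    have h2 : dist (c (k i)) (c (k j)) ≤ dist (c (k i)) w + dist w (c (k j)) := dist_triangle _ _ _
    rw [dist_comm w] at h2
    have h3 : dist (c (k i)) w < ε / 2 := hi
    have h4 : dist (c (k j)) w < ε / 2 := hj
    linarith
  have hnot : ∀ s t j, y s j = c t → False := by
    intro s t j hst
    by_cases hst' : t = s
    · subst hst'
      exact hyne _ _ hst
    · have h1 := hcs t s hst'
      have h2 := hy4 s j
      rw [hst] at h2
      linarith
  obtain ⟨U, V, hU, hV, dU, iV, hAU, hBV, hd⟩ := hN (range fun i => c (Sum.inl i))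
    (range fun i => c (Sum.inr i)) (hcl _ Sum.inl_injective) (hcl _ Sum.inr_injective) (by
      rintro x w (rfl | hx) hw
      · exact hw
      · obtain ⟨q, hq⟩ := mem_iUnion.1 hx
        rw [mem_singleton_iff, Prod.mk.injEq] at hq
        obtain ⟨i, hi⟩ := hw
        exact (hnot _ _ _ (hq.2.symm.trans hi.symm)).elim) (by
      rintro x w (rfl | hx) hw
      · exact hw
      · obtain ⟨q, hq⟩ := mem_iUnion.1 hx
        rw [mem_singleton_iff, Prod.mk.injEq] at hq
        obtain ⟨i, hi⟩ := hw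
        exact (hnot _ _ _ (hq.1.symm.trans hi.symm)).elim) (by
      rw [Set.disjoint_left]
      rintro _ ⟨i, rfl⟩ ⟨j, hj⟩
      have h1 := hcs (Sum.inr j) (Sum.inl i) (by simp)
      have h2 : c (Sum.inr j) = c (Sum.inl i) := hj
      rw [h2, dist_self] at h1
      linarith)
  have hF : ∀ (s : I ⊕ I) (O : Set X), IsOpen O → c s ∈ O → ∃ N : ℕ, ∀ j ≥ N, y s j ∈ O := by
    intro s O hO hs
    obtain ⟨η, hη, hball⟩ := Metric.isOpen_iff.1 hO _ hs
    obtain ⟨N, hN'⟩ := exists_nat_one_div_lt hη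
    refine ⟨N, fun j hj => hball ?_⟩
    rw [mem_ball]
    have h2 : dist (y s j) (c s) < 1 / ((j : ℝ) + 1) := lt_of_lt_of_le (hyd s j) (min_le_right _ _)
    have h3 : 1 / ((j : ℝ) + 1) ≤ 1 / ((N : ℝ) + 1) := by
      apply one_div_le_one_div_of_le (by positivity)
      have : (N : ℝ) ≤ j := by exact_mod_cast hj
      linarith
    linarith
  choose F hF' using fun α : I => hF (Sum.inl α) U hU (hAU ⟨α, rfl⟩)
  choose G hG' using fun β : I => hF (Sum.inr β) V hV (hBV ⟨β, rfl⟩)
  obtain ⟨α, β, hαβ, h1, h2⟩ := exists_pair hI h (fun β => hinj β) F G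
  have h3 : y (Sum.inl α) (h α β) ∈ U := hF' α _ h1
  have h4 : y (Sum.inr β) (h α β) ∈ V := hG' β _ h2
  have h5 : y (Sum.inr β) (h α β) ∈ U := dU _ _
    (Or.inr (mem_iUnion.2 ⟨(⟨(α, β), hαβ⟩ : Q), rfl⟩)) h3
  exact Set.disjoint_left.1 hd h5 h4

end H419R3.CP
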