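import Pool.Agent.H419R3.CPUry

/-!
# Sufficient conditions for the normality of all closed preorders
-/

open Set Filter TopologicalSpace Topology

noncomputable section

namespace H419R3.CP

variable {X : Type*} [TopologicalSpace X]

theorem isClosed_down {r : X → X → Prop} (hr : ClosedPreorder r) {S : Set X} (hS : IsCompact S) :
    IsClosed {x | ∃ s ∈ S, r x s} := by
  rw [← isOpen_compl_iff, isOpen_iff_forall_mem_open]
  intro x hx
  have hx' : ∀ s ∈ S, ¬ r x s := fun s hs h => hx ⟨s, hs, h⟩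
  obtain ⟨u, v, hu, _, hxu, hSv, huv⟩ := generalized_tube_lemma (isCompact_singleton (x := x)) hS
    hr.closed.isOpen_compl (by
      rintro ⟨a, b⟩ ⟨ha, hb⟩
      rw [mem_singleton_iff] at ha
      subst ha
      exact hx' b hb)
  refine ⟨u, ?_, hu, hxu rfl⟩
  rintro y hy ⟨s, hs, h⟩
  exact huv (mk_mem_prod hy (hSv hs)) h

theorem isClosed_up {r : X → X → Prop} (hr : ClosedPreorder r) {S : Set X} (hS : IsCompact S) :
    IsClosed {x | ∃ s ∈ S, r s x} := by
  rw [← isOpen_compl_iff, isOpen_iff_forall_mem_open]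
  intro x hx
  have hx' : ∀ s ∈ S, ¬ r s x := fun s hs h => hx ⟨s, hs, h⟩
  obtain ⟨u, v, _, hv, hSu, hxv, huv⟩ := generalized_tube_lemma hS (isCompact_singleton (x := x))
    hr.closed.isOpen_compl (by
      rintro ⟨a, b⟩ ⟨ha, hb⟩
      rw [mem_singleton_iff] at hb
      subst hb
      exact hx' a ha)
  refine ⟨v, ?_, hv, hxv rfl⟩
  rintro y hy ⟨s, hs, h⟩
  exact huv (mk_mem_prod (hSu hs) hy) h

/-- Every closed preorder on a locally compact, sigma-compact Hausdorff space is normal. -/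
theorem normal_of_sigmaCompact [T2Space X] [WeaklyLocallyCompactSpace X] [SigmaCompactSpace X]
    {r : X → X → Prop} (hr : ClosedPreorder r) : NormalPreorder r := by
  intro A B hA hB dA iB hd
  have hdis : ∀ x, x ∈ A → x ∈ B → False := fun x h1 h2 => (Set.disjoint_left.1 hd h1) h2
  let K : CompactExhaustion X := default
  let P : Set X × Set X → Prop := fun p => IsCompact p.1 ∧ IsCompact p.2 ∧
    (∀ t ∈ p.2, ∀ s ∈ p.1, ¬ r t s) ∧ (∀ s ∈ p.1, s ∉ B) ∧ ∀ t ∈ p.2, t ∉ A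
  have step : ∀ (n : ℕ) (p : {p : Set X × Set X // P p}), ∃ q : {p : Set X × Set X // P p},
      (p.1.1 ∪ ((A ∪ {x | ∃ s ∈ p.1.1, r x s}) ∩ K n) ⊆ interior q.1.1) ∧
      (p.1.2 ∪ ((B ∪ {x | ∃ s ∈ p.1.2, r s x}) ∩ K n) ⊆ interior q.1.2) := by
    rintro n ⟨⟨S, T⟩, hS, hT, hST, hSB, hTA⟩
    simp only at hS hT hST hSB hTA ⊢
    set P0 : Set X := S ∪ ((A ∪ {x | ∃ s ∈ S, r x s}) ∩ K n) with hP0
    set Q0 : Set X := T ∪ ((B ∪ {x | ∃ s ∈ T, r s x}) ∩ K n) with hQ0
    have cP : IsCompact P0 := hS.union ((K.isCompact n).inter_left (hA.union (isClosed_down hr hS)))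
    have cQ : IsCompact Q0 := hT.union ((K.isCompact n).inter_left (hB.union (isClosed_up hr hT)))
    have mP : ∀ x ∈ P0, x ∈ A ∨ ∃ s ∈ S, r x s := by
      rintro x (hx | ⟨hx | hx, _⟩)
      · exact Or.inr ⟨x, hx, hr.refl x⟩
      · exact Or.inl hx
      · exact Or.inr hx
    have mQ : ∀ x ∈ Q0, x ∈ B ∨ ∃ s ∈ T, r s x := by
      rintro x (hx | ⟨hx | hx, _⟩)
      · exact Or.inr ⟨x, hx, hr.refl x⟩
      · exact Or.inl hx
      · exact Or.inr hx
    have hPB : ∀ x ∈ P0, x ∉ B := by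
      intro x hx hxB
      rcases mP x hx with h | ⟨s, hs, h⟩
      · exact hdis x h hxB
      · exact hSB s hs (iB _ _ h hxB)
    have hQA : ∀ x ∈ Q0, x ∉ A := by
      intro x hx hxA
      rcases mQ x hx with h | ⟨s, hs, h⟩
      · exact hdis x hxA h
      · exact hTA s hs (dA _ _ h hxA)
    have hrel : ∀ q ∈ Q0, ∀ p ∈ P0, ¬ r q p := by
      intro q hq p hp h
      rcases mP p hp with hpA | ⟨s, hs, hps⟩
      · exact hQA q hq (dA _ _ h hpA)
      · have hqs : r q s := hr.trans _ _ _ h hps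
        rcases mQ q hq with hqB | ⟨t, ht, htq⟩
        · exact hSB s hs (iB _ _ hqs hqB)
        · exact hST t ht s hs (hr.trans _ _ _ htq hqs)
    obtain ⟨u, v, hu, hv, hQu, hPv, huv⟩ := generalized_tube_lemma cQ cP
      hr.closed.isOpen_compl (by
        rintro ⟨a, b⟩ ⟨ha, hb⟩
        exact hrel a ha b hb)
    obtain ⟨S', cS', hPS', hS'v⟩ := exists_compact_between cP (hv.inter hB.isOpen_compl)
      (fun x hx => ⟨hPv hx, hPB x hx⟩)
    obtain ⟨T', cT', hQT', hT'u⟩ := exists_compact_between cQ (hu.inter hA.isOpen_compl)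
      (fun x hx => ⟨hQu hx, hQA x hx⟩)
    refine ⟨⟨(S', T'), cS', cT', ?_, ?_, ?_⟩, hPS', hQT'⟩
    · intro t ht s hs h
      exact huv (mk_mem_prod (hT'u ht).1 (hS'v hs).1) h
    · intro s hs
      exact (hS'v hs).2
    · intro t ht
      exact (hT'u ht).2
  choose nxt hnxt using step
  let seq : ℕ → {p : Set X × Set X // P p} := fun n => Nat.rec
    ⟨(∅, ∅), isCompact_empty, isCompact_empty, fun _ h => h.elim, fun _ h => h.elim,
      fun _ h => h.elim⟩ (fun n p => nxt n p) n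
  have hseq : ∀ n, seq (n + 1) = nxt n (seq n) := fun n => rfl
  have h1 : ∀ n, (seq n).1.1 ∪ ((A ∪ {x | ∃ s ∈ (seq n).1.1, r x s}) ∩ K n) ⊆
      interior (seq (n + 1)).1.1 := fun n => (hnxt n (seq n)).1
  have h2 : ∀ n, (seq n).1.2 ∪ ((B ∪ {x | ∃ s ∈ (seq n).1.2, r s x}) ∩ K n) ⊆
      interior (seq (n + 1)).1.2 := fun n => (hnxt n (seq n)).2
  have m1 : Monotone fun n => (seq n).1.1 := monotone_nat_of_le_succ fun n x hx =>
    interior_subset (h1 n (Or.inl hx))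
  have m2 : Monotone fun n => (seq n).1.2 := monotone_nat_of_le_succ fun n x hx =>
    interior_subset (h2 n (Or.inl hx))
  refine ⟨⋃ n, (seq n).1.1, ⋃ n, (seq n).1.2, ?_, ?_, ?_, ?_, ?_, ?_, ?_⟩
  · rw [isOpen_iff_forall_mem_open]
    intro x hx
    obtain ⟨n, hn⟩ := mem_iUnion.1 hx
    exact ⟨interior (seq (n + 1)).1.1,
      interior_subset.trans (subset_iUnion (fun n => (seq n).1.1) (n + 1)),
      isOpen_interior, h1 n (Or.inl hn)⟩
  · rw [isOpen_iff_forall_mem_open]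
    intro x hx
    obtain ⟨n, hn⟩ := mem_iUnion.1 hx
    exact ⟨interior (seq (n + 1)).1.2,
      interior_subset.trans (subset_iUnion (fun n => (seq n).1.2) (n + 1)),
      isOpen_interior, h2 n (Or.inl hn)⟩
  · intro x y hxy hy
    obtain ⟨n, hn⟩ := mem_iUnion.1 hy
    obtain ⟨m, hm⟩ := K.exists_mem x
    have hn' : y ∈ (seq (max n m)).1.1 := m1 (le_max_left n m) hn
    have hm' : x ∈ K (max n m) := K.subset (le_max_right n m) hm
    exact mem_iUnion.2 ⟨max n m + 1, interior_subset (h1 _ (Or.inr ⟨Or.inr ⟨y, hn', hxy⟩, hm'⟩))⟩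
  · intro x y hxy hx
    obtain ⟨n, hn⟩ := mem_iUnion.1 hx
    obtain ⟨m, hm⟩ := K.exists_mem y
    have hn' : x ∈ (seq (max n m)).1.2 := m2 (le_max_left n m) hn
    have hm' : y ∈ K (max n m) := K.subset (le_max_right n m) hm
    exact mem_iUnion.2 ⟨max n m + 1, interior_subset (h2 _ (Or.inr ⟨Or.inr ⟨x, hn', hxy⟩, hm'⟩))⟩
  · intro x hx
    obtain ⟨m, hm⟩ := K.exists_mem x
    exact mem_iUnion.2 ⟨m + 1, interior_subset (h1 _ (Or.inr ⟨Or.inl hx, hm⟩))⟩
  · intro x hx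
    obtain ⟨m, hm⟩ := K.exists_mem x
    exact mem_iUnion.2 ⟨m + 1, interior_subset (h2 _ (Or.inr ⟨Or.inl hx, hm⟩))⟩
  · rw [Set.disjoint_left]
    intro x hx hx'
    obtain ⟨n, hn⟩ := mem_iUnion.1 hx
    obtain ⟨m, hm⟩ := mem_iUnion.1 hx'
    exact (seq (max n m)).2.2.2.1 x (m2 (le_max_right n m) hm) x (m1 (le_max_left n m) hn)
      (hr.refl x)

/-- The restriction of a closed preorder to a subspace. -/
theorem ClosedPreorder.subtype {r : X → X → Prop} (hr : ClosedPreorder r) (s : Set X) :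
    ClosedPreorder (fun x y : s => r x y) where
  refl x := hr.refl x
  trans x y z := hr.trans x y z
  closed := hr.closed.preimage (f := fun p : s × s => ((p.1 : X), (p.2 : X))) (by fun_prop)

/-- If `W` is a clopen set which contains all non-isolated points, and closed preorders on `W` are
normal, then so are the closed preorders on `X`. -/
theorem normal_of_clopen {W : Set X} (hW : IsOpen W) (hW' : ∀ x ∉ W, IsOpen ({x} : Set X))
    {r : X → X → Prop} (hr : ClosedPreorder r)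
    (hN : NormalPreorder (fun x y : W => r x y)) : NormalPreorder r := by
  intro A B hA hB dA iB hd
  have hdis : ∀ x, x ∈ A → x ∈ B → False := fun x h1 h2 => (Set.disjoint_left.1 hd h1) h2
  obtain ⟨U, V, hU, hV, dU, iV, hAU, hBV, hUV⟩ := hN (Subtype.val ⁻¹' A) (Subtype.val ⁻¹' B)
    (hA.preimage continuous_subtype_val) (hB.preimage continuous_subtype_val)
    (fun x y hxy hy => dA x y hxy hy) (fun x y hxy hx => iB x y hxy hx)
    (Set.disjoint_left.2 fun x h1 h2 => hdis x h1 h2)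
  have hopen : ∀ s : Set X, (∀ x ∈ s, x ∈ W → ∃ t, IsOpen t ∧ x ∈ t ∧ t ⊆ s) → IsOpen s := by
    intro s hs
    rw [isOpen_iff_forall_mem_open]
    intro x hx
    by_cases hxW : x ∈ W
    · obtain ⟨t, ht, hxt, hts⟩ := hs x hx hxW
      exact ⟨t, hts, ht, hxt⟩
    · exact ⟨{x}, by simpa using hx, hW' x hxW, rfl⟩
  have hU' : IsOpen (Subtype.val '' U) := hW.isOpenMap_subtype_val U hU
  have hV' : IsOpen (Subtype.val '' V) := hW.isOpenMap_subtype_val V hV
  have memU : ∀ x (hx : x ∈ W), x ∈ Subtype.val '' U ↔ (⟨x, hx⟩ : W) ∈ U := by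
    intro x hx
    constructor
    · rintro ⟨y, hy, rfl⟩
      exact hy
    · intro h
      exact ⟨_, h, rfl⟩
  have memV : ∀ x (hx : x ∈ W), x ∈ Subtype.val '' V ↔ (⟨x, hx⟩ : W) ∈ V := by
    intro x hx
    constructor
    · rintro ⟨y, hy, rfl⟩
      exact hy
    · intro h
      exact ⟨_, h, rfl⟩
  have hdis' : ∀ x, x ∈ Subtype.val '' U → x ∈ Subtype.val '' V → False := by
    rintro _ ⟨y, hy, rfl⟩ ⟨z, hz, hzy⟩
    have : z = y := Subtype.ext hzy
    subst this
    exact Set.disjoint_left.1 hUV hy hz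
  have subW : ∀ {s : Set W} {x : X}, x ∈ Subtype.val '' s → x ∈ W := by
    rintro s x ⟨y, _, rfl⟩
    exact y.2
  refine ⟨Subtype.val '' U ∪ A ∪ {x | x ∉ W ∧ ∃ u ∈ Subtype.val '' U, r x u},
    Subtype.val '' V ∪ B ∪ {x | x ∉ W ∧ ∃ u ∈ Subtype.val '' V, r u x}, ?_, ?_, ?_, ?_, ?_, ?_, ?_⟩
  · apply hopen
    rintro x ((hx | hx) | hx) hxW
    · exact ⟨_, hU', hx, fun y hy => Or.inl (Or.inl hy)⟩
    · exact ⟨_, hU', (memU x hxW).2 (hAU hx), fun y hy => Or.inl (Or.inl hy)⟩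
    · exact (hx.1 hxW).elim
  · apply hopen
    rintro x ((hx | hx) | hx) hxW
    · exact ⟨_, hV', hx, fun y hy => Or.inl (Or.inl hy)⟩
    · exact ⟨_, hV', (memV x hxW).2 (hBV hx), fun y hy => Or.inl (Or.inl hy)⟩
    · exact (hx.1 hxW).elim
  · rintro x y hxy ((hy | hy) | ⟨hyW, u, hu, hyu⟩)
    · by_cases hxW : x ∈ W
      · exact Or.inl (Or.inl ((memU x hxW).2 (dU ⟨x, hxW⟩ ⟨y, subW hy⟩ hxy
          ((memU y (subW hy)).1 hy))))
      · exact Or.inr ⟨hxW, y, hy, hxy⟩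
    · exact Or.inl (Or.inr (dA x y hxy hy))
    · have hxu : r x u := hr.trans _ _ _ hxy hyu
      by_cases hxW : x ∈ W
      · exact Or.inl (Or.inl ((memU x hxW).2 (dU ⟨x, hxW⟩ ⟨u, subW hu⟩ hxu
          ((memU u (subW hu)).1 hu))))
      · exact Or.inr ⟨hxW, u, hu, hxu⟩
  · rintro x y hxy ((hx | hx) | ⟨hxW, u, hu, hux⟩)
    · by_cases hyW : y ∈ W
      · exact Or.inl (Or.inl ((memV y hyW).2 (iV ⟨x, subW hx⟩ ⟨y, hyW⟩ hxy
          ((memV x (subW hx)).1 hx))))
      · exact Or.inr ⟨hyW, x, hx, hxy⟩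
    · exact Or.inl (Or.inr (iB x y hxy hx))
    · have huy : r u y := hr.trans _ _ _ hux hxy
      by_cases hyW : y ∈ W
      · exact Or.inl (Or.inl ((memV y hyW).2 (iV ⟨u, subW hu⟩ ⟨y, hyW⟩ huy
          ((memV u (subW hu)).1 hu))))
      · exact Or.inr ⟨hyW, u, hu, huy⟩
  · intro x hx
    exact Or.inl (Or.inr hx)
  · intro x hx
    exact Or.inl (Or.inr hx)
  · rw [Set.disjoint_left]
    rintro x ((hx | hx) | ⟨hxW, u, hu, hxu⟩) ((hy | hy) | ⟨hyW, v, hv, hvx⟩)
    · exact hdis' x hx hy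
    · exact hdis' x hx ((memV x (subW hx)).2 (hBV hy))
    · exact hyW (subW hx)
    · exact hdis' x ((memU x (subW hy)).2 (hAU hx)) hy
    · exact hdis x hx hy
    · have hvA : v ∈ A := dA _ _ hvx hx
      exact hdis' v ((memU v (subW hv)).2 (hAU hvA)) hv
    · exact hxW (subW hy)
    · have huB : u ∈ B := iB _ _ hxu hy
      exact hdis' u hu ((memV u (subW hu)).2 (hBV huB))
    · have hvu : r v u := hr.trans _ _ _ hvx hxu
      exact hdis' u hu ((memV u (subW hu)).2 (iV ⟨v, subW hv⟩ ⟨u, subW hu⟩ hvu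
        ((memV v (subW hv)).1 hv)))

/-- If the set of non-isolated points is contained in a compact set, then every closed preorder is
normal. -/
theorem normal_of_compact [T2Space X] {K : Set X} (hK : IsCompact K)
    (hK' : ∀ x ∉ K, IsOpen ({x} : Set X)) {r : X → X → Prop} (hr : ClosedPreorder r) :
    NormalPreorder r := by
  intro A B hA hB dA iB hd
  have hdis : ∀ x, x ∈ A → x ∈ B → False := fun x h1 h2 => (Set.disjoint_left.1 hd h1) h2
  have : CompactSpace K := isCompact_iff_compactSpace.1 hK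
  obtain ⟨f, hf, hfi, hf0, hf1⟩ := exists_increasing
    (normal_of_sigmaCompact (hr.subtype K)) (A := Subtype.val ⁻¹' A) (B := Subtype.val ⁻¹' B)
    (hA.preimage continuous_subtype_val) (hB.preimage continuous_subtype_val)
    (fun x y hxy hy => dA x y hxy hy) (fun x y hxy hx => iB x y hxy hx)
    (Set.disjoint_left.2 fun x h1 h2 => hdis x h1 h2)
  let a : ℕ → ℝ := fun n => 1 / 2 - 1 / ((n : ℝ) + 2)
  let b : ℕ → ℝ := fun n => 1 / 2 + 1 / ((n : ℝ) + 2)
  have hpos : ∀ n : ℕ, (0 : ℝ) < 1 / ((n : ℝ) + 2) := fun n => by positivity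
  have hlt : ∀ n : ℕ, 1 / (((n + 1 : ℕ) : ℝ) + 2) < 1 / ((n : ℝ) + 2) := by
    intro n
    apply one_div_lt_one_div_of_lt (by positivity)
    push_cast
    linarith
  have ha : ∀ n, a n < a (n + 1) := fun n => by
    have := hlt n
    simp only [a]
    linarith
  have hb : ∀ n, b (n + 1) < b n := fun n => by
    have := hlt n
    simp only [b]
    linarith
  have ha2 : ∀ n, a n < 1 / 2 := fun n => by
    have := hpos n
    simp only [a]
    linarith
  have hb2 : ∀ n, 1 / 2 < b n := fun n => by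
    have := hpos n
    simp only [b]
    linarith
  have ha0 : a 0 = 0 := by simp [a]
  have hb0 : b 0 = 1 := by simp only [b]; norm_num
  let Lo : ℝ → Set X := fun c => Subtype.val '' {x : K | f x ≤ c}
  let Hi : ℝ → Set X := fun c => Subtype.val '' {x : K | c ≤ f x}
  have cLo : ∀ c, IsCompact (Lo c) := fun c =>
    (isClosed_le hf continuous_const).isCompact.image continuous_subtype_val
  have cHi : ∀ c, IsCompact (Hi c) := fun c =>
    (isClosed_le continuous_const hf).isCompact.image continuous_subtype_val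
  have mLo : ∀ c x (hx : x ∈ K), f ⟨x, hx⟩ ≤ c → x ∈ Lo c := fun c x hx h => ⟨⟨x, hx⟩, h, rfl⟩
  have mHi : ∀ c x (hx : x ∈ K), c ≤ f ⟨x, hx⟩ → x ∈ Hi c := fun c x hx h => ⟨⟨x, hx⟩, h, rfl⟩
  have tube : ∀ c d : ℝ, c < d → ∃ u v : Set X, IsOpen u ∧ IsOpen v ∧ Hi d ⊆ u ∧ Lo c ⊆ v ∧
      ∀ y ∈ u, ∀ x ∈ v, ¬ r y x := by
    intro c d hcd
    obtain ⟨u, v, hu, hv, h1, h2, h3⟩ := generalized_tube_lemma (cHi d) (cLo c)
      hr.closed.isOpen_compl (by
        rintro ⟨p, q⟩ ⟨⟨p', hp', rfl⟩, ⟨q', hq', rfl⟩⟩ h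
        have h4 : f p' ≤ f q' := hfi p' q' h
        have h5 : d ≤ f p' := hp'
        have h6 : f q' ≤ c := hq'
        linarith)
    exact ⟨u, v, hu, hv, h1, h2, fun y hy x hx h => h3 (mk_mem_prod hy hx) h⟩
  choose W O hW hO hFW hDO hWO using fun n => tube (a n) (a (n + 1)) (ha n)
  choose O' W' hO' hW' hEO' hGW' hOW' using fun n => tube (b (n + 1)) (b n) (hb n)
  let P : ℕ → Set X := fun n => O n ∩ Bᶜ ∩ ⋂ m ∈ Finset.range (n + 1), W' m
  let P' : ℕ → Set X := fun n => O' n ∩ Aᶜ ∩ ⋂ m ∈ Finset.range (n + 1), W m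
  have oP : ∀ n, IsOpen (P n) := fun n => ((hO n).inter hB.isOpen_compl).inter
    (isOpen_biInter_finset fun m _ => hW' m)
  have oP' : ∀ n, IsOpen (P' n) := fun n => ((hO' n).inter hA.isOpen_compl).inter
    (isOpen_biInter_finset fun m _ => hW m)
  have sP : ∀ n, Lo (a n) ⊆ P n := by
    rintro n _ ⟨x, hx, rfl⟩
    have hx' : f x ≤ a n := hx
    have h2 := ha2 n
    refine ⟨⟨hDO n ⟨x, hx, rfl⟩, ?_⟩, ?_⟩
    · intro hxB
      have := hf1 x hxB
      linarith
    · simp only [mem_iInter]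
      intro m _
      have := hb2 (m + 1)
      exact hGW' m ⟨x, show f x ≤ b (m + 1) by linarith, rfl⟩
  have sP' : ∀ n, Hi (b n) ⊆ P' n := by
    rintro n _ ⟨x, hx, rfl⟩
    have hx' : b n ≤ f x := hx
    have h2 := hb2 n
    refine ⟨⟨hEO' n ⟨x, hx, rfl⟩, ?_⟩, ?_⟩
    · intro hxA
      have := hf0 x hxA
      linarith
    · simp only [mem_iInter]
      intro m _
      have := ha2 (m + 1)
      exact hFW m ⟨x, show a (m + 1) ≤ f x by linarith, rfl⟩
  have hopen : ∀ s : Set X, (∀ x ∈ s, x ∈ K → ∃ t, IsOpen t ∧ x ∈ t ∧ t ⊆ s) → IsOpen s := by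
    intro s hs
    rw [isOpen_iff_forall_mem_open]
    intro x hx
    by_cases hxK : x ∈ K
    · obtain ⟨t, ht, hxt, hts⟩ := hs x hx hxK
      exact ⟨t, hts, ht, hxt⟩
    · exact ⟨{x}, by simpa using hx, hK' x hxK, rfl⟩
  have no_rel : ∀ n m x y, x ∈ P n → y ∈ P' m → ¬ r y x := by
    intro n m x y hx hy h
    rcases le_total n m with hnm | hnm
    · have hyW : y ∈ W n := by
        have := hy.2
        simp only [mem_iInter] at this
        exact this n (Finset.mem_range.2 (by omega))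
      exact hWO n y hyW x hx.1.1 h
    · have hxW : x ∈ W' m := by
        have := hx.2
        simp only [mem_iInter] at this
        exact this m (Finset.mem_range.2 (by omega))
      exact hOW' m y hy.1.1 x hxW h
  refine ⟨A ∪ {x | ∃ n, ∃ y ∈ P n, r x y}, B ∪ {x | ∃ n, ∃ y ∈ P' n, r y x},
    ?_, ?_, ?_, ?_, ?_, ?_, ?_⟩
  · apply hopen
    rintro x (hx | ⟨n, y, hy, hxy⟩) hxK
    · refine ⟨P 0, oP 0, sP 0 (mLo _ x hxK ?_), fun z hz => Or.inr ⟨0, z, hz, hr.refl z⟩⟩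
      rw [hf0 ⟨x, hxK⟩ hx, ha0]
    · refine ⟨P (n + 1), oP _, sP _ (mLo _ x hxK ?_),
        fun z hz => Or.inr ⟨n + 1, z, hz, hr.refl z⟩⟩
      by_contra hcon
      push Not at hcon
      exact hWO n x (hFW n (mHi _ x hxK hcon.le)) y hy.1.1 hxy
  · apply hopen
    rintro x (hx | ⟨n, y, hy, hxy⟩) hxK
    · refine ⟨P' 0, oP' 0, sP' 0 (mHi _ x hxK ?_), fun z hz => Or.inr ⟨0, z, hz, hr.refl z⟩⟩
      rw [hf1 ⟨x, hxK⟩ hx, hb0]
    · refine ⟨P' (n + 1), oP' _, sP' _ (mHi _ x hxK ?_),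
        fun z hz => Or.inr ⟨n + 1, z, hz, hr.refl z⟩⟩
      by_contra hcon
      push Not at hcon
      exact hOW' n y hy.1.1 x (hGW' n (mLo _ x hxK hcon.le)) hxy
  · rintro x y hxy (hy | ⟨n, z, hz, hyz⟩)
    · exact Or.inl (dA x y hxy hy)
    · exact Or.inr ⟨n, z, hz, hr.trans _ _ _ hxy hyz⟩
  · rintro x y hxy (hx | ⟨n, z, hz, hzx⟩)
    · exact Or.inl (iB x y hxy hx)
    · exact Or.inr ⟨n, z, hz, hr.trans _ _ _ hzx hxy⟩
  · exact fun x hx => Or.inl hx
  · exact fun x hx => Or.inl hx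
  · rw [Set.disjoint_left]
    rintro x (hx | ⟨n, y, hy, hxy⟩) (hx' | ⟨m, z, hz, hzx⟩)
    · exact hdis x hx hx'
    · exact hz.1.2 (dA _ _ hzx hx)
    · exact hy.1.2 (iB _ _ hxy hx')
    · exact no_rel n m y z hy hz (hr.trans _ _ _ hzx hxy)

end H419R3.CP
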