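import Mathlib

/-!
# Closed preorders: Urysohn's lemma for normal preorders, and three equivalent conditions

`r` is a preorder on a topological space `X`.  We show that for every topological space the
following are equivalent: every closed preorder is weakly continuous; every closed preorder has a
continuous multi-utility representation; every closed preorder is normal.

The construction of the Urysohn function follows Mathlib's `Urysohns.CU`.
-/

open Set Filter TopologicalSpace Topology

noncomputable section

namespace H419R3.CP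

variable {X : Type*} [TopologicalSpace X]

/-- `r` is a closed preorder on the space `X`. -/
structure ClosedPreorder (r : X → X → Prop) : Prop where
  refl : ∀ x, r x x
  trans : ∀ x y z, r x y → r y z → r x z
  closed : IsClosed {p : X × X | r p.1 p.2}

/-- `D` is decreasing. -/
def Dec (r : X → X → Prop) (D : Set X) : Prop := ∀ x y, r x y → y ∈ D → x ∈ D

/-- `D` is increasing. -/
def Inc (r : X → X → Prop) (D : Set X) : Prop := ∀ x y, r x y → x ∈ D → y ∈ D

/-- `f` is increasing. -/
def Increasing (r : X → X → Prop) (f : X → ℝ) : Prop := ∀ x y, r x y → f x ≤ f y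

/-- Weak continuity. -/
def WeaklyContinuous (r : X → X → Prop) : Prop :=
  ∀ x y, r x y → ¬ r y x → ∃ f : X → ℝ, Continuous f ∧ Increasing r f ∧ f x < f y

/-- Continuous multi-utility representation. -/
def HasMultiUtility (r : X → X → Prop) : Prop :=
  ∃ F : Set (X → ℝ), (∀ f ∈ F, Continuous f ∧ Increasing r f) ∧
    ∀ x y, r x y ↔ ∀ f ∈ F, f x ≤ f y

/-- Normality of a preorder. -/
def NormalPreorder (r : X → X → Prop) : Prop :=
  ∀ A B : Set X, IsClosed A → IsClosed B → Dec r A → Inc r B → Disjoint A B →
    ∃ U V : Set X, IsOpen U ∧ IsOpen V ∧ Dec r U ∧ Inc r V ∧ A ⊆ U ∧ B ⊆ V ∧ Disjoint U V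

/-- A closed decreasing set inside an open decreasing set. -/
structure CU (r : X → X → Prop) where
  C : Set X
  U : Set X
  closed_C : IsClosed C
  open_U : IsOpen U
  dec_C : Dec r C
  dec_U : Dec r U
  subset : C ⊆ U
  hN : NormalPreorder r

namespace CU

variable {r : X → X → Prop}

theorem exists_mid (c : CU r) : ∃ p : Set X × Set X, IsOpen p.1 ∧ Dec r p.1 ∧ IsClosed p.2 ∧
    Dec r p.2 ∧ c.C ⊆ p.1 ∧ p.1 ⊆ p.2 ∧ p.2 ⊆ c.U := by
  obtain ⟨U, V, hU, hV, dU, iV, hCU, hUV, hd⟩ := c.hN c.C c.Uᶜ c.closed_C
    c.open_U.isClosed_compl c.dec_C (fun x y hxy hx hy => hx (c.dec_U x y hxy hy))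
    (disjoint_compl_right_iff_subset.2 c.subset)
  refine ⟨(U, Vᶜ), hU, dU, hV.isClosed_compl, fun x y hxy hy hx => hy (iV x y hxy hx), hCU,
    hd.subset_compl_right, ?_⟩
  intro x hx
  by_contra h
  exact hx (hUV h)

def left (c : CU r) : CU r where
  C := c.C
  U := c.exists_mid.choose.1
  closed_C := c.closed_C
  open_U := c.exists_mid.choose_spec.1
  dec_C := c.dec_C
  dec_U := c.exists_mid.choose_spec.2.1
  subset := c.exists_mid.choose_spec.2.2.2.2.1
  hN := c.hN

def right (c : CU r) : CU r where
  C := c.exists_mid.choose.2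
  U := c.U
  closed_C := c.exists_mid.choose_spec.2.2.1
  open_U := c.open_U
  dec_C := c.exists_mid.choose_spec.2.2.2.1
  dec_U := c.dec_U
  subset := c.exists_mid.choose_spec.2.2.2.2.2.2
  hN := c.hN

@[simp] theorem left_C (c : CU r) : c.left.C = c.C := rfl
@[simp] theorem right_U (c : CU r) : c.right.U = c.U := rfl

theorem left_U_subset_right_C (c : CU r) : c.left.U ⊆ c.right.C :=
  c.exists_mid.choose_spec.2.2.2.2.2.1

theorem left_U_subset (c : CU r) : c.left.U ⊆ c.U :=
  Subset.trans c.left_U_subset_right_C c.right.subset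

theorem subset_right_C (c : CU r) : c.C ⊆ c.right.C :=
  Subset.trans c.left.subset c.left_U_subset_right_C

def approx : ℕ → CU r → X → ℝ
  | 0, c, x => indicator c.Uᶜ 1 x
  | n + 1, c, x => midpoint ℝ (approx n c.left x) (approx n c.right x)

theorem approx_increasing (c : CU r) (n : ℕ) {x y : X} (hxy : r x y) :
    c.approx n x ≤ c.approx n y := by
  induction n generalizing c with
  | zero =>
    simp only [approx]
    by_cases hy : y ∈ c.U
    · have hx : x ∈ c.U := c.dec_U x y hxy hy
      rw [indicator_of_notMem (by simpa using hx), indicator_of_notMem (by simpa using hy)]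
    · rw [indicator_of_mem (show y ∈ c.Uᶜ from hy)]
      exact indicator_apply_le' (fun _ => le_rfl) fun _ => zero_le_one
  | succ n ihn =>
    simp only [approx]
    exact midpoint_le_midpoint (ihn _) (ihn _)

theorem approx_of_mem_C (c : CU r) (n : ℕ) {x : X} (hx : x ∈ c.C) : c.approx n x = 0 := by
  induction n generalizing c with
  | zero => exact indicator_of_notMem (fun (hU : x ∈ c.Uᶜ) => hU <| c.subset hx) _
  | succ n ihn =>
    simp only [approx]
    rw [ihn, ihn, midpoint_self]
    exacts [c.subset_right_C hx, hx]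

theorem approx_of_notMem_U (c : CU r) (n : ℕ) {x : X} (hx : x ∉ c.U) : c.approx n x = 1 := by
  induction n generalizing c with
  | zero =>
    rw [← mem_compl_iff] at hx
    exact indicator_of_mem hx _
  | succ n ihn =>
    simp only [approx]
    rw [ihn, ihn, midpoint_self]
    exacts [hx, fun hU => hx <| c.left_U_subset hU]

theorem approx_nonneg (c : CU r) (n : ℕ) (x : X) : 0 ≤ c.approx n x := by
  induction n generalizing c with
  | zero => exact indicator_nonneg (fun _ _ => zero_le_one) _
  | succ n ihn =>
    simp only [approx, midpoint_eq_smul_add]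
    refine mul_nonneg (inv_nonneg.2 zero_le_two) (add_nonneg ?_ ?_) <;> apply ihn

theorem approx_le_one (c : CU r) (n : ℕ) (x : X) : c.approx n x ≤ 1 := by
  induction n generalizing c with
  | zero => exact indicator_apply_le' (fun _ => le_rfl) fun _ => zero_le_one
  | succ n ihn =>
    simp only [approx, midpoint_eq_smul_add, invOf_eq_inv, smul_eq_mul, ← div_eq_inv_mul]
    have := add_le_add (ihn (left c)) (ihn (right c))
    norm_num at this
    exact Iff.mpr (div_le_one zero_lt_two) this

theorem bddAbove_range_approx (c : CU r) (x : X) : BddAbove (range fun n => c.approx n x) :=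
  ⟨1, fun _ ⟨n, hn⟩ => hn ▸ c.approx_le_one n x⟩

theorem approx_le_approx_of_U_sub_C {c₁ c₂ : CU r} (h : c₁.U ⊆ c₂.C) (n₁ n₂ : ℕ) (x : X) :
    c₂.approx n₂ x ≤ c₁.approx n₁ x := by
  by_cases hx : x ∈ c₁.U
  · calc
      approx n₂ c₂ x = 0 := approx_of_mem_C _ _ (h hx)
      _ ≤ approx n₁ c₁ x := approx_nonneg _ _ _
  · calc
      approx n₂ c₂ x ≤ 1 := approx_le_one _ _ _
      _ = approx n₁ c₁ x := (approx_of_notMem_U _ _ hx).symm

theorem approx_mem_Icc_right_left (c : CU r) (n : ℕ) (x : X) :
    c.approx n x ∈ Icc (c.right.approx n x) (c.left.approx n x) := by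
  induction n generalizing c with
  | zero =>
    simp only [approx]
    refine ⟨le_rfl, ?_⟩
    refine indicator_le_indicator_of_subset (compl_subset_compl.2 c.left_U_subset)
      (fun _ => zero_le_one) x
  | succ n ihn =>
    simp only [approx, mem_Icc]
    refine ⟨midpoint_le_midpoint ?_ (ihn _).1, midpoint_le_midpoint (ihn _).2 ?_⟩ <;>
      apply approx_le_approx_of_U_sub_C
    exacts [left_U_subset_right_C _, left_U_subset_right_C _]

theorem approx_le_succ (c : CU r) (n : ℕ) (x : X) : c.approx n x ≤ c.approx (n + 1) x := by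
  induction n generalizing c with
  | zero =>
    simp only [approx, right_U, right_le_midpoint]
    exact (approx_mem_Icc_right_left c 0 x).2
  | succ n ihn =>
    rw [approx, approx]
    exact midpoint_le_midpoint (ihn _) (ihn _)

theorem approx_mono (c : CU r) (x : X) : Monotone fun n => c.approx n x :=
  monotone_nat_of_le_succ fun n => c.approx_le_succ n x

def lim (c : CU r) (x : X) : ℝ :=
  ⨆ n, c.approx n x

theorem tendsto_approx_atTop (c : CU r) (x : X) :
    Tendsto (fun n => c.approx n x) atTop (𝓝 <| c.lim x) :=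
  tendsto_atTop_ciSup (c.approx_mono x) ⟨1, fun _ ⟨_, hn⟩ => hn ▸ c.approx_le_one _ _⟩

theorem lim_increasing (c : CU r) : Increasing r c.lim := fun x y hxy =>
  le_of_tendsto_of_tendsto' (c.tendsto_approx_atTop x) (c.tendsto_approx_atTop y)
    fun n => c.approx_increasing n hxy

theorem lim_of_mem_C (c : CU r) (x : X) (h : x ∈ c.C) : c.lim x = 0 := by
  simp only [CU.lim, approx_of_mem_C, h, ciSup_const]

theorem lim_of_notMem_U (c : CU r) (x : X) (h : x ∉ c.U) : c.lim x = 1 := by
  simp only [CU.lim, approx_of_notMem_U c _ h, ciSup_const]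

theorem lim_eq_midpoint (c : CU r) (x : X) :
    c.lim x = midpoint ℝ (c.left.lim x) (c.right.lim x) := by
  refine tendsto_nhds_unique (c.tendsto_approx_atTop x) ((tendsto_add_atTop_iff_nat 1).1 ?_)
  simp only [approx]
  exact (c.left.tendsto_approx_atTop x).midpoint (c.right.tendsto_approx_atTop x)

theorem approx_le_lim (c : CU r) (x : X) (n : ℕ) : c.approx n x ≤ c.lim x :=
  le_ciSup (c.bddAbove_range_approx x) _

theorem lim_nonneg (c : CU r) (x : X) : 0 ≤ c.lim x :=
  (c.approx_nonneg 0 x).trans (c.approx_le_lim x 0)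

theorem lim_le_one (c : CU r) (x : X) : c.lim x ≤ 1 :=
  ciSup_le fun _ => c.approx_le_one _ _

theorem lim_mem_Icc (c : CU r) (x : X) : c.lim x ∈ Icc (0 : ℝ) 1 :=
  ⟨c.lim_nonneg x, c.lim_le_one x⟩

theorem continuous_lim (c : CU r) : Continuous c.lim := by
  obtain ⟨h0, h1234, h1⟩ : 0 < (2⁻¹ : ℝ) ∧ (2⁻¹ : ℝ) < 3 / 4 ∧ (3 / 4 : ℝ) < 1 := by norm_num
  refine
    continuous_iff_continuousAt.2 fun x =>
      (Metric.nhds_basis_closedBall_pow (h0.trans h1234) h1).tendsto_right_iff.2 fun n _ => ?_
  simp only [Metric.mem_closedBall]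
  induction n generalizing c with
  | zero =>
    filter_upwards with y
    rw [pow_zero]
    exact Real.dist_le_of_mem_Icc_01 (c.lim_mem_Icc _) (c.lim_mem_Icc _)
  | succ n ihn =>
    by_cases hxl : x ∈ c.left.U
    · filter_upwards [IsOpen.mem_nhds c.left.open_U hxl, ihn c.left] with _ hyl hyd
      rw [pow_succ', c.lim_eq_midpoint, c.lim_eq_midpoint,
        c.right.lim_of_mem_C _ (c.left_U_subset_right_C hyl),
        c.right.lim_of_mem_C _ (c.left_U_subset_right_C hxl)]
      refine (dist_midpoint_midpoint_le _ _ _ _).trans ?_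
      rw [dist_self, add_zero, div_eq_inv_mul]
      gcongr
    · replace hxl : x ∈ c.left.right.Cᶜ :=
        compl_subset_compl.2 c.left.right.subset hxl
      filter_upwards [IsOpen.mem_nhds (isOpen_compl_iff.2 c.left.right.closed_C) hxl,
        ihn c.left.right, ihn c.right] with y hyl hydl hydr
      replace hxl : x ∉ c.left.left.U :=
        compl_subset_compl.2 c.left.left_U_subset_right_C hxl
      replace hyl : y ∉ c.left.left.U :=
        compl_subset_compl.2 c.left.left_U_subset_right_C hyl
      simp only [pow_succ, c.lim_eq_midpoint, c.left.lim_eq_midpoint,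
        c.left.left.lim_of_notMem_U _ hxl, c.left.left.lim_of_notMem_U _ hyl]
      grw [dist_midpoint_midpoint_le, dist_midpoint_midpoint_le, dist_self, zero_add]
      set r := (3 / 4 : ℝ) ^ n
      calc _ ≤ (r / 2 + r) / 2 := by gcongr
        _ = _ := by ring

end CU

/-- Urysohn–Nachbin: in a normally preordered space disjoint closed sets, the first one decreasing
and the second one increasing, are separated by a continuous increasing function. -/
theorem exists_increasing {r : X → X → Prop} (hN : NormalPreorder r) {A B : Set X}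
    (hA : IsClosed A) (hB : IsClosed B) (dA : Dec r A) (iB : Inc r B) (hd : Disjoint A B) :
    ∃ f : X → ℝ, Continuous f ∧ Increasing r f ∧ (∀ x ∈ A, f x = 0) ∧ ∀ x ∈ B, f x = 1 := by
  let c : CU r :=
    { C := A
      U := Bᶜ
      closed_C := hA
      open_U := hB.isOpen_compl
      dec_C := dA
      dec_U := fun x y hxy hy hx => hy (iB x y hxy hx)
      subset := hd.subset_compl_right
      hN := hN }
  exact ⟨c.lim, c.continuous_lim, c.lim_increasing, fun x hx => c.lim_of_mem_C x hx,
    fun x hx => c.lim_of_notMem_U x (fun h => h hx)⟩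

namespace ClosedPreorder

variable {r : X → X → Prop} (h : ClosedPreorder r)
include h

theorem isClosed_below (a : X) : IsClosed {x | r x a} :=
  h.closed.preimage (f := fun x => (x, a)) (by fun_prop)

theorem isClosed_above (a : X) : IsClosed {x | r a x} :=
  h.closed.preimage (f := fun x => (a, x)) (by fun_prop)

theorem separate (hN : NormalPreorder r) {x y : X} (hyx : ¬ r y x) :
    ∃ f : X → ℝ, Continuous f ∧ Increasing r f ∧ f x < f y := by
  obtain ⟨f, hf, hi, h0, h1⟩ := exists_increasing hN (h.isClosed_below x) (h.isClosed_above y)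
    (fun u v huv hv => h.trans _ _ _ huv hv) (fun u v huv hu => h.trans _ _ _ hu huv)
    (Set.disjoint_left.2 fun u hu hu' => hyx (h.trans _ _ _ hu' hu))
  refine ⟨f, hf, hi, ?_⟩
  rw [h0 x (h.refl x), h1 y (h.refl y)]
  norm_num

end ClosedPreorder

/-- **Theorem A.**  For every topological space: every closed preorder is weakly continuous iff
every closed preorder is normal. -/
theorem weaklyContinuous_iff_normal :
    (∀ r : X → X → Prop, ClosedPreorder r → WeaklyContinuous r) ↔
      ∀ r : X → X → Prop, ClosedPreorder r → NormalPreorder r := by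
  constructor
  · intro hW r hr A B hA hB dA iB hd
    rcases A.eq_empty_or_nonempty with rfl | ⟨a, ha⟩
    · exact ⟨∅, univ, isOpen_empty, isOpen_univ, fun _ _ _ h => h, fun _ _ _ _ => mem_univ _,
        Subset.rfl, subset_univ _, Set.disjoint_left.2 fun _ h => h.elim⟩
    rcases B.eq_empty_or_nonempty with rfl | ⟨b, hb⟩
    · exact ⟨univ, ∅, isOpen_univ, isOpen_empty, fun _ _ _ _ => mem_univ _, fun _ _ _ h => h,
        subset_univ _, Subset.rfl, Set.disjoint_right.2 fun _ h => h.elim⟩
    have hdis : ∀ x, x ∈ A → x ∈ B → False := fun x h1 h2 => (Set.disjoint_left.1 hd h1) h2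
    have hr' : ClosedPreorder (fun x y : X => r x y ∨ x ∈ A ∨ y ∈ B) := by
      refine ⟨fun x => Or.inl (hr.refl x), ?_, ?_⟩
      · rintro x y z (h1 | h1 | h1) (h2 | h2 | h2)
        · exact Or.inl (hr.trans _ _ _ h1 h2)
        · exact Or.inr (Or.inl (dA _ _ h1 h2))
        · exact Or.inr (Or.inr h2)
        · exact Or.inr (Or.inl h1)
        · exact Or.inr (Or.inl h1)
        · exact Or.inr (Or.inl h1)
        · exact Or.inr (Or.inr (iB _ _ h2 h1))
        · exact (hdis _ h2 h1).elim
        · exact Or.inr (Or.inr h2)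
      · exact hr.closed.union ((hA.preimage continuous_fst).union (hB.preimage continuous_snd))
    obtain ⟨f, hf, hi, hlt⟩ := hW _ hr' a b (Or.inr (Or.inl ha)) (by
      rintro (h | h | h)
      · exact hdis a ha (iB _ _ h hb)
      · exact hdis b h hb
      · exact hdis a ha h)
    obtain ⟨m, hm1, hm2⟩ := exists_between hlt
    refine ⟨{x | f x < m}, {x | m < f x}, isOpen_lt hf continuous_const,
      isOpen_lt continuous_const hf, ?_, ?_, ?_, ?_, ?_⟩
    · intro x y hxy hy
      exact lt_of_le_of_lt (hi x y (Or.inl hxy)) hy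
    · intro x y hxy hx
      exact lt_of_lt_of_le hx (hi x y (Or.inl hxy))
    · intro x hx
      exact lt_of_le_of_lt (hi x a (Or.inr (Or.inl hx))) hm1
    · intro x hx
      exact lt_of_lt_of_le hm2 (hi b x (Or.inr (Or.inr hx)))
    · exact Set.disjoint_left.2 fun x (h1 : f x < m) (h2 : m < f x) => lt_asymm h1 h2
  · intro hN r hr x y _ hyx
    exact hr.separate (hN r hr) hyx

/-- **Theorem A, second half.** -/
theorem multiUtility_iff_normal :
    (∀ r : X → X → Prop, ClosedPreorder r → HasMultiUtility r) ↔
      ∀ r : X → X → Prop, ClosedPreorder r → NormalPreorder r := by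
  constructor
  · intro hM
    rw [← weaklyContinuous_iff_normal]
    intro r hr x y _ hyx
    obtain ⟨F, hF, hiff⟩ := hM r hr
    have : ¬ ∀ f ∈ F, f y ≤ f x := fun h => hyx ((hiff y x).2 h)
    push Not at this
    obtain ⟨f, hfF, hlt⟩ := this
    exact ⟨f, (hF f hfF).1, (hF f hfF).2, hlt⟩
  · intro hN r hr
    refine ⟨{f | Continuous f ∧ Increasing r f}, fun f hf => hf, fun x y => ⟨?_, ?_⟩⟩
    · intro hxy f hf
      exact hf.2 x y hxy
    · intro h
      by_contra hxy
      obtain ⟨f, hf, hi, hlt⟩ := hr.separate (hN r hr) hxy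
      exact absurd (h f ⟨hf, hi⟩) (not_le.2 hlt)

end H419R3.CP
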