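import Mathlib

set_option autoImplicit false

namespace Pool.Agent.H419R3

/-- Reduced trace `x + x̄` on the quaternion algebra `(a, b / F)`, where `i² = a`, `j² = b`,
`k = ij = -ji` and `x̄` is the standard involution `star x`. -/
def trd {F : Type*} [Field F] {a b : F} (x : QuaternionAlgebra F a 0 b) : F := (x + star x).re

/-- Reduced norm `x x̄` on the quaternion algebra `(a, b / F)`. -/
def nrd {F : Type*} [Field F] {a b : F} (x : QuaternionAlgebra F a 0 b) : F := (x * star x).re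

/-- Every nonzero element is invertible. -/
def IsDivision (R : Type*) [Ring R] : Prop := ∀ x : R, x ≠ 0 → IsUnit x

/-- The quaternion algebra `(a, b / ℚ)` is ramified at the prime `ℓ`: its completion
`(a, b / ℚ_ℓ)` is a division algebra. -/
def RamifiedAt (a b : ℚ) (ℓ : ℕ) [Fact ℓ.Prime] : Prop :=
  IsDivision (QuaternionAlgebra ℚ_[ℓ] (a : ℚ_[ℓ]) 0 (b : ℚ_[ℓ]))

/-- The quaternion algebra `(a, b / ℚ)` is ramified at infinity: `(a, b / ℝ)` is a division
algebra. -/
def RamifiedAtInfinity (a b : ℚ) : Prop :=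
  IsDivision (QuaternionAlgebra ℝ (a : ℝ) 0 (b : ℝ))

/-- `(a, b / ℚ)` is a quaternion algebra over `ℚ` ramified exactly at `p` and `∞`. -/
structure RamifiedExactly (a b : ℚ) (p : ℕ) : Prop where
  ha : a ≠ 0
  hb : b ≠ 0
  finite_places : ∀ (ℓ : ℕ) [Fact ℓ.Prime], RamifiedAt a b ℓ ↔ ℓ = p
  infinite_place : RamifiedAtInfinity a b

variable {a b : ℚ}

/-- An order: a subring that is a full `ℤ`-lattice (finitely generated and spanning over `ℚ`). -/
structure IsOrder (O : Subring (QuaternionAlgebra ℚ a 0 b)) : Prop where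
  fg : O.toAddSubgroup.FG
  span : Submodule.span ℚ (O : Set (QuaternionAlgebra ℚ a 0 b)) = ⊤

/-- A maximal order: an order not properly contained in another order. -/
def IsMaximalOrder (O : Subring (QuaternionAlgebra ℚ a 0 b)) : Prop :=
  IsOrder O ∧ ∀ O' : Subring (QuaternionAlgebra ℚ a 0 b), IsOrder O' → O ≤ O' → O' = O

/-- `O' = c⁻¹ O c` for some invertible `c`. -/
def Conjugate (O O' : Subring (QuaternionAlgebra ℚ a 0 b)) : Prop :=
  ∃ c : (QuaternionAlgebra ℚ a 0 b)ˣ, ∀ x : QuaternionAlgebra ℚ a 0 b,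
    x ∈ O' ↔ (c : QuaternionAlgebra ℚ a 0 b) * x * ((c⁻¹ : (QuaternionAlgebra ℚ a 0 b)ˣ) :
      QuaternionAlgebra ℚ a 0 b) ∈ O

/-- The Gross lattice `O^T = {2x - Tr(x) : x ∈ O}`. -/
def gross (O : Subring (QuaternionAlgebra ℚ a 0 b)) : Set (QuaternionAlgebra ℚ a 0 b) :=
  {h | ∃ x ∈ O, h = 2 * x - algebraMap ℚ (QuaternionAlgebra ℚ a 0 b) (trd x)}

/-- The number of primitive `h ∈ O^T` of norm `d`; a vector `h` of the lattice is primitive when it
is not a proper multiple `k h'` of another lattice vector (for `h ≠ 0` this says that its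
coordinates in a `ℤ`-basis have greatest common divisor one). -/
noncomputable def primReps (O : Subring (QuaternionAlgebra ℚ a 0 b)) (d : ℕ) : ℕ∞ :=
  Set.encard {h | h ∈ gross O ∧ nrd h = (d : ℚ) ∧
    ∀ (k : ℕ) (h' : QuaternionAlgebra ℚ a 0 b), h' ∈ gross O → h = k • h' → k = 1}

/-- The set of integers `n₀` such that there are positive `n₁, n₂ < n₀` with
`a_{O'^T}(n₁) ≥ a_{O^T}(n₁)` and `a_{O'^T}(n₂) < a_{O^T}(n₂)`; its least element is
`n₀(O, O')`. -/
def signChangeBounds (O O' : Subring (QuaternionAlgebra ℚ a 0 b)) : Set ℕ :=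
  {n₀ | ∃ n₁ n₂ : ℕ, 0 < n₁ ∧ n₁ < n₀ ∧ 0 < n₂ ∧ n₂ < n₀ ∧
    primReps O n₁ ≤ primReps O' n₁ ∧ primReps O' n₂ < primReps O n₂}

end Pool.Agent.H419R3
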