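import Pool.Agent.H419R3.GRam

set_option autoImplicit false
set_option linter.unusedSimpArgs false

namespace Pool.Agent.H419R3

variable {a b : ℚ}

/-- a ternary quadratic form over a finite prime field has a nontrivial zero -/
lemma exists_zero3 {p : ℕ} [Fact p.Prime] (c1 c2 c3 c4 c5 : ZMod p) :
    ∃ t x y : ZMod p, (t ≠ 0 ∨ x ≠ 0 ∨ y ≠ 0) ∧
      t ^ 2 + c1 * t * x + c2 * t * y + c3 * x ^ 2 + c4 * y ^ 2 + c5 * x * y = 0 := by
  classical
  let f : MvPolynomial (Fin 3) (ZMod p) :=
    MvPolynomial.X 0 * MvPolynomial.X 0 + MvPolynomial.C c1 * (MvPolynomial.X 0 * MvPolynomial.X 1)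
      + MvPolynomial.C c2 * (MvPolynomial.X 0 * MvPolynomial.X 2)
      + MvPolynomial.C c3 * (MvPolynomial.X 1 * MvPolynomial.X 1)
      + MvPolynomial.C c4 * (MvPolynomial.X 2 * MvPolynomial.X 2)
      + MvPolynomial.C c5 * (MvPolynomial.X 1 * MvPolynomial.X 2)
  have hXX : ∀ m n : Fin 3, (MvPolynomial.X m * MvPolynomial.X n :
      MvPolynomial (Fin 3) (ZMod p)).IsHomogeneous 2 := fun m n =>
    (MvPolynomial.isHomogeneous_X _ m).mul (MvPolynomial.isHomogeneous_X _ n)
  have hC : ∀ (c : ZMod p) (m n : Fin 3), (MvPolynomial.C c * (MvPolynomial.X m * MvPolynomial.X n) :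
      MvPolynomial (Fin 3) (ZMod p)).IsHomogeneous 2 := by
    intro c m n
    have := (MvPolynomial.isHomogeneous_C (Fin 3) c).mul (hXX m n)
    simpa using this
  have hhom : f.IsHomogeneous 2 :=
    (((((hXX 0 0).add (hC c1 0 1)).add (hC c2 0 2)).add (hC c3 1 1)).add (hC c4 2 2)).add (hC c5 1 2)
  have hdeg : f.totalDegree < Fintype.card (Fin 3) := by
    have h1 := hhom.totalDegree_le
    rw [Fintype.card_fin]
    omega
  have hdvd := char_dvd_card_solutions p hdeg
  have hcard : 1 < Fintype.card {x : Fin 3 → ZMod p // MvPolynomial.eval x f = 0} := by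
    have h0 : (0 : ℕ) < Fintype.card {x : Fin 3 → ZMod p // MvPolynomial.eval x f = 0} := by
      rw [Fintype.card_pos_iff]
      exact ⟨⟨0, by simp [f]⟩⟩
    have h2 := Nat.le_of_dvd h0 hdvd
    have := (Fact.out : p.Prime).two_le
    omega
  obtain ⟨⟨s, hs⟩, hne⟩ := Fintype.exists_ne_of_one_lt_card hcard ⟨0, by simp [f]⟩
  refine ⟨s 0, s 1, s 2, ?_, ?_⟩
  · by_contra hc
    simp only [not_or, not_not] at hc
    apply hne
    apply Subtype.ext
    ext m
    fin_cases m
    · exact hc.1
    · exact hc.2.1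
    · exact hc.2.2
  · simp [f] at hs
    linear_combination hs

lemma det4 (A B C u v w : ℤ) :
    Matrix.det !![2, u, v, w; u, 2 * B * C, u * v - C * w, w * u - B * v;
      v, u * v - C * w, 2 * A * C, v * w - A * u; w, w * u - B * v, v * w - A * u, 2 * A * B]
      = (disc A B C u v w) ^ 2 := by
  rw [Matrix.det_succ_row_zero, Fin.sum_univ_four]
  simp [Matrix.det_fin_three, Matrix.submatrix_apply, Fin.succAbove, disc]
  ring

/-- a prime at which the algebra is ramified divides the discriminant -/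
lemma Table.dvd_disc {i j k : QuaternionAlgebra ℚ a 0 b} {A B C u v w : ℤ}
    (h : Table i j k A B C u v w) {p : ℕ} [Fact p.Prime] (hr : RamifiedAt a b p) :
    (p : ℤ) ∣ disc A B C u v w := by
  have : NeZero p := ⟨(Fact.out : p.Prime).pos.ne'⟩
  obtain ⟨t, x, y, hne, hz⟩ := exists_zero3 (p := p) u v ((B : ZMod p) * C) ((A : ZMod p) * C)
    ((u : ZMod p) * v - C * w)
  set T : ℤ := (t.val : ℤ) with hT
  set X : ℤ := (x.val : ℤ) with hX
  set Y : ℤ := (y.val : ℤ) with hY
  have cT : (T : ZMod p) = t := by rw [hT]; push_cast; exact ZMod.natCast_zmod_val _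
  have cX : (X : ZMod p) = x := by rw [hX]; push_cast; exact ZMod.natCast_zmod_val _
  have cY : (Y : ZMod p) = y := by rw [hY]; push_cast; exact ZMod.natCast_zmod_val _
  set ξ : QuaternionAlgebra ℚ a 0 b := (T : ℚ) • 1 + (X : ℚ) • i + (Y : ℚ) • j + (0 : ℚ) • k with hξ
  have hn : nrd ξ = ((T ^ 2 + u * T * X + v * T * Y + B * C * X ^ 2 + A * C * Y ^ 2
      + (u * v - C * w) * X * Y : ℤ) : ℚ) := by
    rw [hξ, nrd_comb, h.trd_i, h.trd_j, h.trd_k, h.nrd_i, h.nrd_j, h.nrd_k, h.tr_ij, h.tr_jk,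
      h.tr_ki]
    push_cast; ring
  have hd : (p : ℤ) ∣ T ^ 2 + u * T * X + v * T * Y + B * C * X ^ 2 + A * C * Y ^ 2
      + (u * v - C * w) * X * Y := by
    rw [← CharP.intCast_eq_zero_iff (ZMod p) p]
    push_cast
    rw [cT, cX, cY]
    linear_combination hz
  -- the trace pairing with an element of integral trace form
  have key : ∀ (η : QuaternionAlgebra ℚ a 0 b) (N S : ℤ), nrd η = N → trd (ξ * star η) = S →
      (S : ZMod p) = 0 := by
    intro η N S hN hS
    rw [CharP.intCast_eq_zero_iff (ZMod p) p]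
    refine dvd_trd_of_dvd_nrd hr hS (N := (T ^ 2 + u * T * X + v * T * Y + B * C * X ^ 2
      + A * C * Y ^ 2 + (u * v - C * w) * X * Y) * N) ?_ (Dvd.dvd.mul_right hd N)
    rw [nrd_mul, nrd_star, hn, hN]; push_cast; ring
  have tji : trd (j * star i) = u * v - C * w := by
    rw [← h.tr_ij, ← trd_star, star_mul, star_star]
  have tik : trd (i * star k) = w * u - B * v := by
    rw [← h.tr_ki, ← trd_star, star_mul, star_star]
  have tkj : trd (k * star j) = v * w - A * u := by
    rw [← h.tr_jk, ← trd_star, star_mul, star_star]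
  have e0 := key 1 1 (2 * T + u * X + v * Y) (by simp [nrd_one]) (by
    rw [hξ, star_one, mul_one]
    simp only [trd_add, trd_smul, trd_one, h.trd_i, h.trd_j, h.trd_k]
    push_cast; ring)
  have e1 := key i (B * C) (u * T + 2 * B * C * X + (u * v - C * w) * Y)
    (by rw [h.nrd_i]; push_cast; ring) (by
    have hs1 : trd (star i) = u := by rw [trd_star, h.trd_i]
    have hii : trd (i * star i) = 2 * (B * C) := by
      rw [mul_star_self, trd_smul, trd_one, h.nrd_i]; ring
    rw [hξ]
    simp only [add_mul, smul_mul_assoc, one_mul, trd_add, trd_smul, hs1, hii, tji, h.tr_ki]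
    push_cast; ring)
  have e2 := key j (A * C) (v * T + (u * v - C * w) * X + 2 * A * C * Y)
    (by rw [h.nrd_j]; push_cast; ring) (by
    have hs1 : trd (star j) = v := by rw [trd_star, h.trd_j]
    have hjj : trd (j * star j) = 2 * (A * C) := by
      rw [mul_star_self, trd_smul, trd_one, h.nrd_j]; ring
    rw [hξ]
    simp only [add_mul, smul_mul_assoc, one_mul, trd_add, trd_smul, hs1, hjj, tkj, h.tr_ij]
    push_cast; ring)
  have e3 := key k (A * B) (w * T + (w * u - B * v) * X + (v * w - A * u) * Y)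
    (by rw [h.nrd_k]; push_cast; ring) (by
    have hs1 : trd (star k) = w := by rw [trd_star, h.trd_k]
    rw [hξ]
    simp only [add_mul, smul_mul_assoc, one_mul, trd_add, trd_smul, hs1, tik, h.tr_jk]
    push_cast; ring)
  push_cast at e0 e1 e2 e3
  rw [cT, cX, cY] at e0 e1 e2 e3
  let M : Matrix (Fin 4) (Fin 4) (ZMod p) :=
    (!![2, u, v, w; u, 2 * B * C, u * v - C * w, w * u - B * v;
      v, u * v - C * w, 2 * A * C, v * w - A * u; w, w * u - B * v, v * w - A * u, 2 * A * B]
      : Matrix (Fin 4) (Fin 4) ℤ).map (Int.cast : ℤ → ZMod p)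
  have hdet : M.det = 0 := by
    rw [← Matrix.exists_mulVec_eq_zero_iff]
    refine ⟨![t, x, y, 0], ?_, ?_⟩
    · intro h0
      have g0 := congrFun h0 0
      have g1 := congrFun h0 1
      have g2 := congrFun h0 2
      simp at g0 g1 g2
      rcases hne with h | h | h
      · exact h g0
      · exact h g1
      · exact h g2
    · ext m
      fin_cases m
      · simp [M, Matrix.mulVec, dotProduct, Fin.sum_univ_four]
        linear_combination e0
      · simp [M, Matrix.mulVec, dotProduct, Fin.sum_univ_four]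
        linear_combination e1
      · simp [M, Matrix.mulVec, dotProduct, Fin.sum_univ_four]
        linear_combination e2
      · simp [M, Matrix.mulVec, dotProduct, Fin.sum_univ_four]
        linear_combination e3
  have hdet2 : (((disc A B C u v w) ^ 2 : ℤ) : ZMod p) = 0 := by
    rw [← det4, ← hdet]
    exact (Int.cast_det _)
  rw [CharP.intCast_eq_zero_iff (ZMod p) p] at hdet2
  exact (Nat.prime_iff_prime_int.mp Fact.out).dvd_of_dvd_pow hdet2

/-- The discriminant of a maximal order of `B_p` is `± p`. -/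
theorem HasTable.disc_eq {O : Subring (QuaternionAlgebra ℚ a 0 b)} (hO : IsMaximalOrder O)
    {A B C u v w : ℤ} (h : HasTable O A B C u v w) {p : ℕ} (hp : p.Prime)
    (hr : RamifiedExactly a b p) : (disc A B C u v w).natAbs = p := by
  haveI : Fact p.Prime := ⟨hp⟩
  have hrp : RamifiedAt a b p := (hr.finite_places p).mpr rfl
  have hpd : (p : ℤ) ∣ disc A B C u v w := by
    obtain ⟨i, j, k, h, -⟩ := h
    exact h.dvd_disc hrp
  have honly : ∀ l : ℕ, l.Prime → (l : ℤ) ∣ disc A B C u v w →
      l = p ∧ ¬ (l : ℤ) ^ 2 ∣ disc A B C u v w := by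
    intro l hl hld
    haveI : Fact l.Prime := ⟨hl⟩
    obtain ⟨A', B', C', u', v', w', h', hdisc⟩ := h.step1 hld
    obtain ⟨hC, han⟩ := HasTable.step2 hO h'
    have hram := h'.ramified hC han
    refine ⟨(hr.finite_places l).mp hram, ?_⟩
    rw [← hdisc]
    exact not_sq_dvd hC han
  set D := disc A B C u v w with hD
  obtain ⟨m, hm⟩ := hpd
  have hm1 : m.natAbs = 1 := by
    by_contra hne
    obtain ⟨q, hq, hqd⟩ := Nat.exists_prime_and_dvd hne
    have hqm : (q : ℤ) ∣ m := Int.natCast_dvd.mpr hqd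
    have hqD : (q : ℤ) ∣ D := by rw [hm]; exact Dvd.dvd.mul_left hqm _
    obtain ⟨hqp, hsq⟩ := honly q hq hqD
    apply hsq
    obtain ⟨n, hn⟩ := hqm
    rw [hm, hn, hqp]
    exact ⟨n, by ring⟩
  rw [hm, Int.natAbs_mul, hm1, mul_one, Int.natAbs_natCast]

end Pool.Agent.H419R3
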