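import Pool.Agent.H419R3.GIso

set_option autoImplicit false
set_option linter.unusedSimpArgs false

namespace Pool.Agent.H419R3

variable {a b : ℚ}

/-- Gram form of the Gross lattice in terms of the table -/
def gForm (A B C u v w : ℤ) : (Fin 3 → ℤ) →ₗ[ℤ] (Fin 3 → ℤ) →ₗ[ℤ] ℤ :=
  LinearMap.mk₂ ℤ (fun x y =>
    (4 * B * C - u ^ 2) * (x 0 * y 0) + (4 * A * C - v ^ 2) * (x 1 * y 1)
    + (4 * A * B - w ^ 2) * (x 2 * y 2) + (u * v - 2 * C * w) * (x 0 * y 1 + x 1 * y 0)
    + (v * w - 2 * A * u) * (x 1 * y 2 + x 2 * y 1) + (u * w - 2 * B * v) * (x 0 * y 2 + x 2 * y 0))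
    (by intro x y z; simp only [Pi.add_apply]; ring)
    (by intro r x y; simp only [Pi.smul_apply, smul_eq_mul]; ring)
    (by intro x y z; simp only [Pi.add_apply]; ring)
    (by intro r x y; simp only [Pi.smul_apply, smul_eq_mul]; ring)

lemma gForm_apply (A B C u v w : ℤ) (x y : Fin 3 → ℤ) : gForm A B C u v w x y =
    (4 * B * C - u ^ 2) * (x 0 * y 0) + (4 * A * C - v ^ 2) * (x 1 * y 1)
    + (4 * A * B - w ^ 2) * (x 2 * y 2) + (u * v - 2 * C * w) * (x 0 * y 1 + x 1 * y 0)
    + (v * w - 2 * A * u) * (x 1 * y 2 + x 2 * y 1)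
    + (u * w - 2 * B * v) * (x 0 * y 2 + x 2 * y 0) := rfl

/-- the vector of the Gross lattice with given coordinates -/
def phi (i j k : QuaternionAlgebra ℚ a 0 b) (u v w : ℤ) (x : Fin 3 → ℤ) :
    QuaternionAlgebra ℚ a 0 b :=
  (x 0 : ℚ) • ((2 : ℚ) • i - (u : ℚ) • 1) + (x 1 : ℚ) • ((2 : ℚ) • j - (v : ℚ) • 1)
    + (x 2 : ℚ) • ((2 : ℚ) • k - (w : ℚ) • 1)

section
variable {i j k : QuaternionAlgebra ℚ a 0 b} {A B C u v w : ℤ}

lemma phi_add (x y : Fin 3 → ℤ) : phi i j k u v w (x + y) = phi i j k u v w x + phi i j k u v w y := by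
  unfold phi; simp only [Pi.add_apply]; push_cast; module

lemma phi_smul (r : ℤ) (x : Fin 3 → ℤ) :
    phi i j k u v w (r • x) = (r : ℚ) • phi i j k u v w x := by
  unfold phi; simp only [Pi.smul_apply, smul_eq_mul]; push_cast; module

lemma Table.star_phi (h : Table i j k A B C u v w) (x : Fin 3 → ℤ) :
    star (phi i j k u v w x) = -phi i j k u v w x := by
  unfold phi
  simp only [star_add, star_sub, QuaternionAlgebra.star_smul', star_one, h.si, h.sj, h.sk]
  module

lemma Table.phi_inj (h : Table i j k A B C u v w) {x y : Fin 3 → ℤ}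
    (hxy : phi i j k u v w x = phi i j k u v w y) : x = y := by
  have h1 := h.indep (-((x 0 - y 0) * u + (x 1 - y 1) * v + (x 2 - y 2) * w)) (2 * (x 0 - y 0))
    (2 * (x 1 - y 1)) (2 * (x 2 - y 2)) (by
      have : phi i j k u v w x - phi i j k u v w y = 0 := by rw [hxy, sub_self]
      rw [← this]; unfold phi; module)
  obtain ⟨-, h1, h2, h3⟩ := h1
  ext m
  fin_cases m
  · have : (x 0 : ℚ) = y 0 := by linarith
    exact_mod_cast this
  · have : (x 1 : ℚ) = y 1 := by linarith
    exact_mod_cast this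
  · have : (x 2 : ℚ) = y 2 := by linarith
    exact_mod_cast this

lemma Table.tr_phi (h : Table i j k A B C u v w) (x y : Fin 3 → ℤ) :
    trd (phi i j k u v w x * star (phi i j k u v w y)) = 2 * (gForm A B C u v w x y : ℚ) := by
  have tii : trd (i * star i) = 2 * (B * C) := by rw [mul_star_self, trd_smul, trd_one, h.nrd_i]; ring
  have tjj : trd (j * star j) = 2 * (A * C) := by rw [mul_star_self, trd_smul, trd_one, h.nrd_j]; ring
  have tkk : trd (k * star k) = 2 * (A * B) := by rw [mul_star_self, trd_smul, trd_one, h.nrd_k]; ring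
  have tji : trd (j * star i) = u * v - C * w := by
    rw [← h.tr_ij, ← trd_star, star_mul, star_star]
  have tik : trd (i * star k) = w * u - B * v := by
    rw [← h.tr_ki, ← trd_star, star_mul, star_star]
  have tkj : trd (k * star j) = v * w - A * u := by
    rw [← h.tr_jk, ← trd_star, star_mul, star_star]
  rw [gForm_apply]
  unfold phi
  simp only [star_add, star_sub, QuaternionAlgebra.star_smul', star_one, add_mul, mul_add, sub_mul,
    mul_sub, smul_mul_assoc, mul_smul_comm, one_mul, mul_one, trd_add, trd_sub, trd_smul, tii, tjj,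
    tkk, tji, tik, tkj, h.tr_ij, h.tr_jk, h.tr_ki, h.trd_i, h.trd_j, h.trd_k, trd_star, trd_one]
  push_cast
  ring

lemma Table.nrd_phi (h : Table i j k A B C u v w) (x : Fin 3 → ℤ) :
    nrd (phi i j k u v w x) = (gForm A B C u v w x x : ℚ) := by
  have h1 := h.tr_phi x x
  rw [mul_star_self, trd_smul, trd_one] at h1
  linarith

lemma Table.isGross (h : Table i j k A B C u v w) (ha : a < 0) (hb : b < 0) {p : ℕ}
    (hd : (disc A B C u v w).natAbs = p) : IsGross p (gForm A B C u v w) where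
  symm x y := by rw [gForm_apply, gForm_apply]; ring
  pos x hx := by
    have h1 : phi i j k u v w x ≠ 0 := by
      intro h0
      apply hx
      apply h.phi_inj
      rw [h0]; simp [phi]
    have h2 := nrd_pos ha hb h1
    rw [h.nrd_phi] at h2
    exact_mod_cast h2
  mod4 x := by
    have e : gForm A B C u v w x x = 4 * (B * C * x 0 ^ 2 + A * C * x 1 ^ 2 + A * B * x 2 ^ 2
      + (u * v - C * w) * x 0 * x 1 + (v * w - A * u) * x 1 * x 2 + (u * w - B * v) * x 0 * x 2)
      - (x 0 * u + x 1 * v + x 2 * w) ^ 2 := by rw [gForm_apply]; ring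
    rw [e]
    set s := x 0 * u + x 1 * v + x 2 * w
    rcases Int.even_or_odd' s with ⟨t, ht | ht⟩
    · left; rw [ht]; ring_nf; omega
    · right
      have : (s ^ 2) = 4 * (t ^ 2 + t) + 1 := by rw [ht]; ring
      omega
  minor x y := by
    have hdd : (disc A B C u v w : ℤ) = p ∨ disc A B C u v w = -p := by omega
    have e : gForm A B C u v w x x * gForm A B C u v w y y - gForm A B C u v w x y ^ 2
        = 4 * disc A B C u v w * (A * (x 1 * y 2 - x 2 * y 1) ^ 2 + B * (x 2 * y 0 - x 0 * y 2) ^ 2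
          + C * (x 0 * y 1 - x 1 * y 0) ^ 2
          + u * (x 2 * y 0 - x 0 * y 2) * (x 0 * y 1 - x 1 * y 0)
          + v * (x 1 * y 2 - x 2 * y 1) * (x 0 * y 1 - x 1 * y 0)
          + w * (x 1 * y 2 - x 2 * y 1) * (x 2 * y 0 - x 0 * y 2)) := by
      rw [gForm_apply, gForm_apply, gForm_apply]; unfold disc; ring
    rw [e]
    rcases hdd with h | h
    · rw [h]; exact Dvd.intro _ rfl
    · rw [h, mul_neg, neg_mul]; exact (Dvd.intro _ rfl).neg_right
  basis := by
    refine ⟨![1, 0, 0], ![0, 1, 0], ![0, 0, 1], ?_, ?_⟩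
    · intro x
      refine ⟨x 0, x 1, x 2, ?_⟩
      ext m
      fin_cases m <;> simp
    · have hdd : (disc A B C u v w) ^ 2 = (p : ℤ) ^ 2 := by
        rw [← hd, Int.natCast_natAbs, sq_abs]
      rw [← hdd]
      unfold gdet disc
      simp only [gForm_apply]
      simp
      ring

lemma Table.gross_eq (h : Table i j k A B C u v w) (x : QuaternionAlgebra ℚ a 0 b) :
    x ∈ gross h.subring ↔ ∃ q : Fin 3 → ℤ, x = phi i j k u v w q := by
  constructor
  · rintro ⟨y, ⟨n0, n1, n2, n3, rfl⟩, rfl⟩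
    refine ⟨![n1, n2, n3], ?_⟩
    simp only [trd_add, trd_smul, trd_one, h.trd_i, h.trd_j, h.trd_k, phi]
    rw [Algebra.algebraMap_eq_smul_one]
    simp only [Matrix.cons_val_zero, Matrix.cons_val_one, Matrix.cons_val]
    have e2 : (2 : QuaternionAlgebra ℚ a 0 b) = (2 : ℚ) • 1 := by
      rw [two_smul, one_add_one_eq_two]
    rw [e2, smul_mul_assoc, one_mul]
    module
  · rintro ⟨q, rfl⟩
    refine ⟨((0 : ℤ) : ℚ) • 1 + ((q 0 : ℤ) : ℚ) • i + ((q 1 : ℤ) : ℚ) • j + ((q 2 : ℤ) : ℚ) • k,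
      ⟨0, q 0, q 1, q 2, rfl⟩, ?_⟩
    simp only [trd_add, trd_smul, trd_one, h.trd_i, h.trd_j, h.trd_k, phi]
    rw [Algebra.algebraMap_eq_smul_one]
    have e2 : (2 : QuaternionAlgebra ℚ a 0 b) = (2 : ℚ) • 1 := by
      rw [two_smul, one_add_one_eq_two]
    rw [e2, smul_mul_assoc, one_mul]
    module

/-- primitive vectors of norm `n` in coordinates -/
lemma Table.primReps_pos_iff (h : Table i j k A B C u v w) (n : ℕ) :
    0 < primReps h.subring n ↔ ∃ q : Fin 3 → ℤ, Prim q ∧ gForm A B C u v w q q = n := by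
  unfold primReps
  rw [Set.encard_pos]
  constructor
  · rintro ⟨x, hx, hn, hp⟩
    obtain ⟨q, rfl⟩ := (h.gross_eq x).mp hx
    refine ⟨q, ?_, ?_⟩
    · intro m y hy
      rcases le_total 0 m with hm | hm
      · have h1 := hp m.natAbs (phi i j k u v w y) ((h.gross_eq _).mpr ⟨y, rfl⟩) (by
          rw [hy, phi_smul, ← Nat.cast_smul_eq_nsmul ℚ]
          congr 1
          have h0 : ((m.natAbs : ℕ) : ℤ) = m := Int.natAbs_of_nonneg hm
          calc ((m : ℤ) : ℚ) = (((m.natAbs : ℕ) : ℤ) : ℚ) := by rw [h0]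
            _ = ((m.natAbs : ℕ) : ℚ) := Int.cast_natCast _)
        rw [Int.isUnit_iff]; omega
      · have h1 := hp m.natAbs (phi i j k u v w (-y)) ((h.gross_eq _).mpr ⟨-y, rfl⟩) (by
          rw [hy, phi_smul, ← Nat.cast_smul_eq_nsmul ℚ]
          have e : phi i j k u v w (-y) = -phi i j k u v w y := by
            have := phi_smul (i := i) (j := j) (k := k) (u := u) (v := v) (w := w) (-1) y
            simpa using this
          rw [e, smul_neg, ← neg_smul]
          congr 1
          have h0 : ((m.natAbs : ℕ) : ℤ) = -m := by omega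
          have h2 : ((m.natAbs : ℕ) : ℚ) = -(m : ℚ) := by
            calc ((m.natAbs : ℕ) : ℚ) = (((m.natAbs : ℕ) : ℤ) : ℚ) := (Int.cast_natCast _).symm
              _ = -(m : ℚ) := by rw [h0, Int.cast_neg]
          rw [h2, neg_neg])
        rw [Int.isUnit_iff]; omega
    · rw [h.nrd_phi] at hn
      exact_mod_cast hn
  · rintro ⟨q, hp, hn⟩
    refine ⟨phi i j k u v w q, (h.gross_eq _).mpr ⟨q, rfl⟩, ?_, ?_⟩
    · rw [h.nrd_phi, hn]; simp
    · intro m x' hx' he
      obtain ⟨y, rfl⟩ := (h.gross_eq x').mp hx'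
      have h1 : q = (m : ℤ) • y := by
        apply h.phi_inj
        rw [he, phi_smul, ← Nat.cast_smul_eq_nsmul ℚ]
        simp
      have h2 := hp m y h1
      rw [Int.isUnit_iff] at h2
      omega

/-- transfer of membership under conjugation -/
lemma Table.transfer (h : Table i j k A B C u v w) {i' j' k' : QuaternionAlgebra ℚ a 0 b}
    {A' B' C' u' v' w' : ℤ} (h' : Table i' j' k' A' B' C' u' v' w')
    {c d : QuaternionAlgebra ℚ a 0 b} (hcd : c * d = 1) (hdc : d * c = 1)
    (hyp : ∀ q : Fin 3 → ℤ, ∃ q' : Fin 3 → ℤ, c * phi i j k u v w q * d = phi i' j' k' u' v' w' q')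
    {x : QuaternionAlgebra ℚ a 0 b} (hx : x ∈ h.subring) : c * x * d ∈ h'.subring := by
  obtain ⟨n0, n1, n2, n3, rfl⟩ := hx
  obtain ⟨q', hq'⟩ := hyp ![n1, n2, n3]
  set t : ℤ := 2 * n0 + n1 * u + n2 * v + n3 * w with ht
  set s : ℤ := q' 0 * u' + q' 1 * v' + q' 2 * w' with hs
  have e1 : (2 : ℚ) • ((n0 : ℚ) • (1 : QuaternionAlgebra ℚ a 0 b) + (n1 : ℚ) • i + (n2 : ℚ) • j
      + (n3 : ℚ) • k) = (t : ℚ) • 1 + phi i j k u v w ![n1, n2, n3] := by
    rw [ht]; unfold phi
    simp only [Matrix.cons_val_zero, Matrix.cons_val_one, Matrix.cons_val]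
    push_cast; module
  have e2 : (2 : ℚ) • (c * ((n0 : ℚ) • (1 : QuaternionAlgebra ℚ a 0 b) + (n1 : ℚ) • i + (n2 : ℚ) • j
      + (n3 : ℚ) • k) * d) = (t : ℚ) • 1 + phi i' j' k' u' v' w' q' := by
    rw [← smul_mul_assoc, ← mul_smul_comm, e1, mul_add, add_mul, hq', mul_smul_comm,
      smul_mul_assoc, mul_one, hcd]
  -- parity
  have hnorm : gForm A B C u v w ![n1, n2, n3] ![n1, n2, n3] = gForm A' B' C' u' v' w' q' q' := by
    have h1 := h.nrd_phi ![n1, n2, n3]
    have h2 := h'.nrd_phi q'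
    have h3 : nrd (c * phi i j k u v w ![n1, n2, n3] * d) = nrd (phi i j k u v w ![n1, n2, n3]) := by
      rw [nrd_mul, nrd_mul]
      have h4 : nrd c * nrd d = 1 := by rw [← nrd_mul, hcd, nrd_one]
      linear_combination nrd (phi i j k u v w ![n1, n2, n3]) * h4
    rw [hq', h1, h2] at h3
    exact_mod_cast h3.symm
  have hpar : (2 : ℤ) ∣ t - s := by
    have f1 : ∃ m1 : ℤ, gForm A B C u v w ![n1, n2, n3] ![n1, n2, n3]
        = 4 * m1 - (n1 * u + n2 * v + n3 * w) ^ 2 := by
      refine ⟨B * C * n1 ^ 2 + A * C * n2 ^ 2 + A * B * n3 ^ 2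
        + (u * v - C * w) * n1 * n2 + (v * w - A * u) * n2 * n3 + (u * w - B * v) * n1 * n3, ?_⟩
      rw [gForm_apply]
      simp only [Matrix.cons_val_zero, Matrix.cons_val_one, Matrix.cons_val]
      ring
    have f2 : ∃ m2 : ℤ, gForm A' B' C' u' v' w' q' q' = 4 * m2 - s ^ 2 := by
      refine ⟨B' * C' * q' 0 ^ 2 + A' * C' * q' 1 ^ 2 + A' * B' * q' 2 ^ 2
        + (u' * v' - C' * w') * q' 0 * q' 1 + (v' * w' - A' * u') * q' 1 * q' 2
        + (u' * w' - B' * v') * q' 0 * q' 2, ?_⟩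
      rw [gForm_apply, hs]; ring
    obtain ⟨m1, hm1⟩ := f1
    obtain ⟨m2, hm2⟩ := f2
    rw [hm1, hm2] at hnorm
    set t' := n1 * u + n2 * v + n3 * w with ht'
    have htt : t - s = 2 * n0 + (t' - s) := by rw [ht]; ring
    rw [htt]
    have h4 : (4 : ℤ) ∣ (t' - s) * (t' + s) := ⟨m1 - m2, by linear_combination -hnorm⟩
    have h5 : (2 : ℤ) ∣ (t' - s) * (t' + s) := (by norm_num : (2 : ℤ) ∣ 4).trans h4
    have h6 : (2 : ℤ) ∣ t' - s := by
      rcases Int.prime_two.dvd_or_dvd h5 with h7 | h7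
      · exact h7
      · omega
    exact (Dvd.intro _ rfl).add h6
  obtain ⟨m, hm⟩ := hpar
  have hm' : (t : ℚ) = 2 * m + s := by
    have : t = 2 * m + s := by linarith
    rw [this]; push_cast; ring
  refine ⟨m, q' 0, q' 1, q' 2, ?_⟩
  have h2 : (2 : ℚ) ≠ 0 := two_ne_zero
  apply smul_right_injective _ h2
  change (2 : ℚ) • _ = (2 : ℚ) • _
  rw [e2, hm', hs]
  unfold phi
  push_cast
  module

/-- equal Gram matrices give conjugate orders -/
lemma Table.conj_of_gramEq (h : Table i j k A B C u v w) {i' j' k' : QuaternionAlgebra ℚ a 0 b}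
    {A' B' C' u' v' w' : ℤ} (h' : Table i' j' k' A' B' C' u' v' w') (ha : a < 0) (hb : b < 0)
    {p : ℕ} (hp : 0 < p) (hG : IsGross p (gForm A B C u v w))
    {x y z x' y' z' : Fin 3 → ℤ} (hs : Spans x y z) (hs' : Spans x' y' z')
    (hgram : GramEq (gForm A B C u v w) (gForm A' B' C' u' v' w') x y z x' y' z') :
    Conjugate h.subring h'.subring := by
  obtain ⟨g1, g2, g3, g4, g5, g6⟩ := hgram
  have sy : ∀ s t, gForm A B C u v w s t = gForm A B C u v w t s := hG.symm
  have sy' : ∀ s t, gForm A' B' C' u' v' w' s t = gForm A' B' C' u' v' w' t s := by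
    intro s t; rw [gForm_apply, gForm_apply]; ring
  let X : Fin 3 → (Fin 3 → ℤ) := ![x, y, z]
  let X' : Fin 3 → (Fin 3 → ℤ) := ![x', y', z']
  have hXX : ∀ m n, gForm A B C u v w (X m) (X n) = gForm A' B' C' u' v' w' (X' m) (X' n) := by
    intro m n
    fin_cases m <;> fin_cases n <;> simp [X, X']
    · exact g1.symm
    · exact g6.symm
    · exact g5.symm
    · rw [sy, sy']; exact g6.symm
    · exact g2.symm
    · exact g4.symm
    · rw [sy, sy']; exact g5.symm
    · rw [sy, sy']; exact g4.symm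
    · exact g3.symm
  -- independence
  have hind : ∀ q : Fin 3 → ℚ, q 0 • phi i j k u v w (X 0) + q 1 • phi i j k u v w (X 1)
      + q 2 • phi i j k u v w (X 2) = 0 → q = 0 := by
    intro q hq
    -- use the Gram determinant
    have hD := hG.gdet_spans hp hs
    have hDne : (gdet (gForm A B C u v w) x y z : ℚ) ≠ 0 := by
      rw [hD]; positivity
    have key : ∀ n : Fin 3, q 0 * (gForm A B C u v w (X 0) (X n) : ℚ)
        + q 1 * (gForm A B C u v w (X 1) (X n) : ℚ) + q 2 * (gForm A B C u v w (X 2) (X n) : ℚ) = 0 := by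
      intro n
      have h1 := congrArg (fun t => trd (t * star (phi i j k u v w (X n)))) hq
      simp only [add_mul, smul_mul_assoc, trd_add, trd_smul, h.tr_phi, zero_mul] at h1
      have h2 : trd (0 : QuaternionAlgebra ℚ a 0 b) = 0 := by simp [trd_eq]
      rw [h2] at h1
      linarith
    have k0 := key 0
    have k1 := key 1
    have k2 := key 2
    simp only [X, Matrix.cons_val_zero, Matrix.cons_val_one, Matrix.cons_val] at k0 k1 k2
    rw [sy y x, sy z x] at k0
    rw [sy z y] at k1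
    unfold gdet at hDne
    push_cast at hDne
    set gxx := (gForm A B C u v w x x : ℚ)
    set gyy := (gForm A B C u v w y y : ℚ)
    set gzz := (gForm A B C u v w z z : ℚ)
    set gxy := (gForm A B C u v w x y : ℚ)
    set gxz := (gForm A B C u v w x z : ℚ)
    set gyz := (gForm A B C u v w y z : ℚ)
    have d0 : (gxx * gyy * gzz + 2 * gyz * gxz * gxy - gxx * gyz ^ 2 - gyy * gxz ^ 2
        - gzz * gxy ^ 2) * q 0 = 0 := by
      linear_combination (gyy * gzz - gyz ^ 2) * k0 + (gxz * gyz - gxy * gzz) * k1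
        + (gxy * gyz - gyy * gxz) * k2
    have d1 : (gxx * gyy * gzz + 2 * gyz * gxz * gxy - gxx * gyz ^ 2 - gyy * gxz ^ 2
        - gzz * gxy ^ 2) * q 1 = 0 := by
      linear_combination (gxz * gyz - gxy * gzz) * k0 + (gxx * gzz - gxz ^ 2) * k1
        + (gxy * gxz - gxx * gyz) * k2
    have d2 : (gxx * gyy * gzz + 2 * gyz * gxz * gxy - gxx * gyz ^ 2 - gyy * gxz ^ 2
        - gzz * gxy ^ 2) * q 2 = 0 := by
      linear_combination (gxy * gyz - gyy * gxz) * k0 + (gxy * gxz - gxx * gyz) * k1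
        + (gxx * gyy - gxy ^ 2) * k2
    ext m
    fin_cases m
    · exact (mul_eq_zero.mp d0).resolve_left hDne
    · exact (mul_eq_zero.mp d1).resolve_left hDne
    · exact (mul_eq_zero.mp d2).resolve_left hDne
  obtain ⟨c, ε, hc, hε, hcf⟩ := exists_conj_isometry ha hb
    (f := fun m => phi i j k u v w (X m)) (g := fun m => phi i' j' k' u' v' w' (X' m))
    (fun m => h.star_phi _) (fun m => h'.star_phi _) hind (by
      intro m n
      rw [h.tr_phi, h'.tr_phi, hXX])
  have hεi : ∃ e : ℤ, (e : ℚ) = ε ∧ e * e = 1 := by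
    rcases hε with h | h
    · exact ⟨1, by rw [h]; norm_num, by norm_num⟩
    · exact ⟨-1, by rw [h]; norm_num, by norm_num⟩
  obtain ⟨e, he, hee⟩ := hεi
  have hn : nrd c ≠ 0 := (nrd_pos ha hb hc).ne'
  obtain ⟨U, hU⟩ := isUnit_of_nrd_ne hn
  set d : QuaternionAlgebra ℚ a 0 b := ((U⁻¹ : (QuaternionAlgebra ℚ a 0 b)ˣ) : QuaternionAlgebra ℚ a 0 b)
    with hd
  have hcd : c * d = 1 := by rw [← hU, hd]; exact U.mul_inv
  have hdc : d * c = 1 := by rw [← hU, hd]; exact U.inv_mul
  have hgen : ∀ (m : Fin 3), c * phi i j k u v w (X m) * d = ε • phi i' j' k' u' v' w' (X' m) := by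
    intro m
    rw [hcf m, smul_mul_assoc, mul_assoc, hcd, mul_one]
  have hgen' : ∀ (m : Fin 3), d * phi i' j' k' u' v' w' (X' m) * c = ε • phi i j k u v w (X m) := by
    intro m
    have hεε : ε * ε = 1 := by rw [← he]; exact_mod_cast hee
    have h1 : ε • (c * phi i j k u v w (X m)) = phi i' j' k' u' v' w' (X' m) * c := by
      rw [hcf m, smul_smul, hεε, one_smul]
    rw [mul_assoc, ← h1, mul_smul_comm, ← mul_assoc, hdc, one_mul]
  have hyp1 : ∀ q : Fin 3 → ℤ, ∃ q' : Fin 3 → ℤ,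
      c * phi i j k u v w q * d = phi i' j' k' u' v' w' q' := by
    intro q
    obtain ⟨r, s, t, hq⟩ := hs q
    refine ⟨(e * r) • x' + (e * s) • y' + (e * t) • z', ?_⟩
    rw [hq]
    have m0 := hgen 0
    have m1 := hgen 1
    have m2 := hgen 2
    simp only [X, X', Matrix.cons_val_zero, Matrix.cons_val_one, Matrix.cons_val] at m0 m1 m2
    simp only [phi_add, phi_smul, mul_add, add_mul, mul_smul_comm, smul_mul_assoc, m0, m1, m2]
    push_cast
    rw [he]
    module
  have hyp2 : ∀ q : Fin 3 → ℤ, ∃ q' : Fin 3 → ℤ,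
      d * phi i' j' k' u' v' w' q * c = phi i j k u v w q' := by
    intro q
    obtain ⟨r, s, t, hq⟩ := hs' q
    refine ⟨(e * r) • x + (e * s) • y + (e * t) • z, ?_⟩
    rw [hq]
    have m0 := hgen' 0
    have m1 := hgen' 1
    have m2 := hgen' 2
    simp only [X, X', Matrix.cons_val_zero, Matrix.cons_val_one, Matrix.cons_val] at m0 m1 m2
    simp only [phi_add, phi_smul, mul_add, add_mul, mul_smul_comm, smul_mul_assoc, m0, m1, m2]
    push_cast
    rw [he]
    module
  refine ⟨U⁻¹, fun x => ?_⟩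
  rw [inv_inv, hU, ← hd]
  constructor
  · intro hx
    exact h'.transfer h hdc hcd hyp2 hx
  · intro hx
    have h1 := h.transfer h' hcd hdc hyp1 hx
    have h2 : c * (d * x * c) * d = x := by
      calc c * (d * x * c) * d = (c * d) * x * (c * d) := by simp only [mul_assoc]
        _ = x := by rw [hcd, one_mul, mul_one]
    rwa [h2] at h1

end

/-- Main theorem: the first sign change occurs by `2p + 1`. -/
theorem sign_change_bound {p : ℕ} (hp : p.Prime) (hr : RamifiedExactly a b p)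
    {O O' : Subring (QuaternionAlgebra ℚ a 0 b)} (hO : IsMaximalOrder O) (hO' : IsMaximalOrder O')
    (hne : ¬ Conjugate O O') : ∃ n₀ : ℕ, IsLeast (signChangeBounds O O') n₀ ∧ n₀ ≤ 2 * p + 1 := by
  obtain ⟨ha, hb⟩ := neg_of_ramifiedInf hr.infinite_place hr.ha hr.hb
  obtain ⟨A, B, C, u, v, w, hT⟩ := exists_table ha hb hO.1
  obtain ⟨A', B', C', u', v', w', hT'⟩ := exists_table ha hb hO'.1
  have hd := hT.disc_eq hO hp hr
  have hd' := hT'.disc_eq hO' hp hr
  obtain ⟨i, j, k, h, rfl⟩ := hT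
  obtain ⟨i', j', k', h', rfl⟩ := hT'
  have hG := h.isGross ha hb hd
  have hG' := h'.isGross ha hb hd'
  rcases IsGross.main_lattice hp hG hG' with hiso | hmiss
  · exfalso
    obtain ⟨x, y, z, x', y', z', hs, hs', hgram⟩ := hiso
    exact hne (h.conj_of_gramEq h' ha hb hp.pos hG hs hs' hgram)
  · obtain ⟨n, hn0, hn2, ⟨x, hx, hxn⟩, hmis⟩ := hmiss
    have h1 : primReps h.subring 1 = 0 := by
      by_contra hc
      have hc' : 0 < primReps h.subring 1 := pos_iff_ne_zero.mpr hc
      rw [h.primReps_pos_iff] at hc'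
      obtain ⟨q, -, hq⟩ := hc'
      have := hG.mod4 q
      rw [hq] at this
      omega
    have h2 : 0 < primReps h.subring n := (h.primReps_pos_iff n).mpr ⟨x, hx, hxn⟩
    have h3 : primReps h'.subring n = 0 := by
      by_contra hc
      have hc' : 0 < primReps h'.subring n := pos_iff_ne_zero.mpr hc
      rw [h'.primReps_pos_iff] at hc'
      obtain ⟨q, hq1, hq2⟩ := hc'
      exact hmis q hq1 hq2
    have hmem : 2 * p + 1 ∈ signChangeBounds h.subring h'.subring := by
      refine ⟨1, n, one_pos, ?_, hn0, by omega, ?_, ?_⟩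
      · have := hp.pos; omega
      · rw [h1]; exact zero_le
      · rw [h3]; exact h2
    refine ⟨sInf (signChangeBounds h.subring h'.subring), ⟨Nat.sInf_mem ⟨_, hmem⟩, ?_⟩, Nat.sInf_le hmem⟩
    intro m hm
    exact Nat.sInf_le hm

end Pool.Agent.H419R3
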