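import Pool.Agent.H419R3.GDisc

set_option autoImplicit false
set_option linter.unusedSimpArgs false

namespace Pool.Agent.H419R3

variable {a b : ℚ}

lemma rat_sq_int {q : ℚ} {n : ℤ} (h : q ^ 2 = n) : ∃ m : ℤ, q = m := by
  have h1 : (q ^ 2).den = 1 := by rw [h]; simp
  rw [Rat.den_pow] at h1
  have h2 : q.den = 1 := by
    have := Nat.pow_eq_one.mp h1
    simpa using this
  exact ⟨q.num, by rw [← Rat.num_div_den q, h2]; simp⟩

/-- a scalar in an order is an integer -/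
lemma IsOrder.scalar_int {O : Subring (QuaternionAlgebra ℚ a 0 b)} (hO : IsOrder O) {q : ℚ}
    (hq : q • (1 : QuaternionAlgebra ℚ a 0 b) ∈ O) : ∃ m : ℤ, q = m := by
  obtain ⟨n, hn⟩ := hO.nrd_int hq
  rw [nrd_smul, nrd_one, mul_one] at hn
  exact rat_sq_int hn

lemma eq_smul_of_star_eq {x : QuaternionAlgebra ℚ a 0 b} (h : x - star x = 0) :
    x = x.re • (1 : QuaternionAlgebra ℚ a 0 b) := by
  have h1 := congrArg QuaternionAlgebra.imI h
  have h2 := congrArg QuaternionAlgebra.imJ h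
  have h3 := congrArg QuaternionAlgebra.imK h
  simp at h1 h2 h3
  ext
  · simp
  · simp; linarith
  · simp; linarith
  · simp; linarith

/-- the map `x ↦ x - x̄` -/
def piMap (a b : ℚ) : QuaternionAlgebra ℚ a 0 b →ₗ[ℚ] QuaternionAlgebra ℚ a 0 b where
  toFun x := x - star x
  map_add' x y := by rw [star_add]; abel
  map_smul' r x := by
    rw [QuaternionAlgebra.star_smul', RingHom.id_apply, smul_sub]

lemma exists_basis {O : Subring (QuaternionAlgebra ℚ a 0 b)} (hO : IsOrder O) :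
    ∃ e1 e2 e3 : QuaternionAlgebra ℚ a 0 b, e1 ∈ O ∧ e2 ∈ O ∧ e3 ∈ O ∧
      (∀ x ∈ O, ∃ n0 n1 n2 n3 : ℤ, x = (n0 : ℚ) • 1 + (n1 : ℚ) • e1 + (n2 : ℚ) • e2 + (n3 : ℚ) • e3) ∧
      (∀ q0 q1 q2 q3 : ℚ, q0 • (1 : QuaternionAlgebra ℚ a 0 b) + q1 • e1 + q2 • e2 + q3 • e3 = 0 →
        q0 = 0 ∧ q1 = 0 ∧ q2 = 0 ∧ q3 = 0) := by
  classical
  let π : QuaternionAlgebra ℚ a 0 b →+ QuaternionAlgebra ℚ a 0 b := (piMap a b).toAddMonoidHom
  have hπ : ∀ x, π x = x - star x := fun x => rfl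
  let L : Submodule ℤ (QuaternionAlgebra ℚ a 0 b) :=
    AddSubgroup.toIntSubmodule (O.toAddSubgroup.map π)
  have hLmem : ∀ y, y ∈ L ↔ ∃ x ∈ O, π x = y := by
    intro y
    rfl
  have hfg : L.FG := by
    rw [Submodule.fg_iff_addSubgroup_fg]
    have h1 : (O.toAddSubgroup.map π).FG := by
      obtain ⟨S, hS⟩ := hO.fg
      exact ⟨S.image π, by rw [Finset.coe_image, ← AddMonoidHom.map_closure, hS]⟩
    exact h1
  have : Module.Finite ℤ L := Module.Finite.iff_fg.mpr hfg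
  have : Module.IsTorsionFree ℤ (QuaternionAlgebra ℚ a 0 b) := by
    apply Module.IsTorsionFree.of_smul_eq_zero
    intro r m h
    rw [← Int.cast_smul_eq_zsmul ℚ] at h
    rcases smul_eq_zero.mp h with h | h
    · left; exact_mod_cast h
    · right; exact h
  have : Module.IsTorsionFree ℤ L := by
    apply Module.IsTorsionFree.of_smul_eq_zero
    intro r m h
    have h' := congrArg (fun z : L => (z : QuaternionAlgebra ℚ a 0 b)) h
    simp only [Submodule.coe_smul_of_tower, Submodule.coe_zero] at h'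
    rcases smul_eq_zero.mp h' with h | h
    · left; exact h
    · right; exact Subtype.ext h
  have : Module.Free ℤ L := Module.free_of_finite_type_torsion_free'
  obtain ⟨n, ⟨bL⟩⟩ : ∃ n : ℕ, Nonempty (Module.Basis (Fin n) ℤ L) := ⟨_, ⟨Module.finBasis ℤ L⟩⟩
  have hch : ∀ m : Fin n, ∃ x ∈ O, π x = (bL m : QuaternionAlgebra ℚ a 0 b) := fun m =>
    (hLmem _).mp (bL m).2
  choose e heO heπ using hch
  have hliZ : LinearIndependent ℤ (fun m => (bL m : QuaternionAlgebra ℚ a 0 b)) :=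
    bL.linearIndependent.map' L.subtype (Submodule.ker_subtype _)
  have hliQ : LinearIndependent ℚ (fun m => (bL m : QuaternionAlgebra ℚ a 0 b)) :=
    (LinearIndependent.iff_fractionRing ℤ ℚ).mp hliZ
  let f : Fin (n + 1) → QuaternionAlgebra ℚ a 0 b := Fin.cons 1 e
  have hf0 : f 0 = 1 := rfl
  have hfs : ∀ m : Fin n, f m.succ = e m := fun m => rfl
  have hli : LinearIndependent ℚ f := by
    rw [Fintype.linearIndependent_iff]
    intro g hg
    rw [Fin.sum_univ_succ] at hg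
    simp only [hf0, hfs] at hg
    have h1 := congrArg (piMap a b) hg
    rw [map_add, map_sum, map_smul, map_zero] at h1
    have h2 : piMap a b 1 = 0 := by
      change (1 : QuaternionAlgebra ℚ a 0 b) - star 1 = 0
      rw [star_one, sub_self]
    rw [h2, smul_zero, zero_add] at h1
    have h3 : ∑ m : Fin n, g m.succ • (bL m : QuaternionAlgebra ℚ a 0 b) = 0 := by
      rw [← h1]
      refine Finset.sum_congr rfl (fun m _ => ?_)
      rw [map_smul, ← heπ m]; rfl
    have h4 := (Fintype.linearIndependent_iff.mp hliQ) (fun m => g m.succ) h3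
    have h5 : g 0 = 0 := by
      simp only [h4, zero_smul, Finset.sum_const_zero, add_zero] at hg
      have := congrArg QuaternionAlgebra.re hg
      simpa using this
    intro m
    refine Fin.cases h5 h4 m
  have hgen : ∀ x ∈ O, ∃ (n0 : ℤ) (c : Fin n → ℤ), x = (n0 : ℚ) • 1 + ∑ m, (c m : ℚ) • e m := by
    intro x hx
    have hxL : π x ∈ L := (hLmem _).mpr ⟨x, hx, rfl⟩
    let c : Fin n → ℤ := fun m => bL.repr ⟨π x, hxL⟩ m
    have h1 : ∑ m, c m • bL m = (⟨π x, hxL⟩ : L) := bL.sum_repr _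
    have h2 : ∑ m, (c m : ℚ) • (bL m : QuaternionAlgebra ℚ a 0 b) = π x := by
      have := congrArg (fun z : L => (z : QuaternionAlgebra ℚ a 0 b)) h1
      simp only [Submodule.coe_sum, Submodule.coe_smul_of_tower] at this
      rw [← this]
      refine Finset.sum_congr rfl (fun m _ => ?_)
      rw [Int.cast_smul_eq_zsmul]
    set x' := x - ∑ m, (c m : ℚ) • e m with hx'
    have hx'O : x' ∈ O := by
      refine O.sub_mem hx (O.sum_mem (fun m _ => ?_))
      rw [Int.cast_smul_eq_zsmul]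
      exact O.zsmul_mem (heO m) _
    have h3 : x' - star x' = 0 := by
      have : piMap a b x' = 0 := by
        rw [hx', map_sub, map_sum]
        have h4 : piMap a b x = π x := rfl
        rw [h4, ← h2, sub_eq_zero]
        refine Finset.sum_congr rfl (fun m _ => ?_)
        rw [map_smul, ← heπ m]; rfl
      exact this
    have h4 := eq_smul_of_star_eq h3
    rw [h4] at hx'O
    obtain ⟨n0, hn0⟩ := hO.scalar_int hx'O
    refine ⟨n0, c, ?_⟩
    rw [← hn0, ← h4, hx']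
    abel
  have hspan : ⊤ ≤ Submodule.span ℚ (Set.range f) := by
    rw [← hO.span, Submodule.span_le]
    intro x hx
    obtain ⟨n0, c, rfl⟩ := hgen x hx
    refine add_mem (Submodule.smul_mem _ _ (Submodule.subset_span ⟨0, rfl⟩)) (sum_mem (fun m _ => ?_))
    exact Submodule.smul_mem _ _ (Submodule.subset_span ⟨m.succ, rfl⟩)
  let bB := Module.Basis.mk hli hspan
  have hn : n = 3 := by
    have h1 := Module.finrank_eq_card_basis bB
    rw [QuaternionAlgebra.finrank_eq_four, Fintype.card_fin] at h1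
    omega
  subst hn
  refine ⟨e 0, e 1, e 2, heO 0, heO 1, heO 2, ?_, ?_⟩
  · intro x hx
    obtain ⟨n0, c, hc⟩ := hgen x hx
    refine ⟨n0, c 0, c 1, c 2, ?_⟩
    rw [hc, Fin.sum_univ_three]; abel
  · intro q0 q1 q2 q3 hq
    have h1 := (Fintype.linearIndependent_iff.mp hli) ![q0, q1, q2, q3] (by
      rw [Fin.sum_univ_four]
      exact hq)
    exact ⟨h1 0, h1 1, h1 2, h1 3⟩

/-- the algebraic core: a normalised basis has a good multiplication table -/
lemma core_table (ha : a < 0) (hb : b < 0) {i j k : QuaternionAlgebra ℚ a 0 b}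
    (indep : ∀ q0 q1 q2 q3 : ℚ, q0 • (1 : QuaternionAlgebra ℚ a 0 b) + q1 • i + q2 • j + q3 • k = 0 →
        q0 = 0 ∧ q1 = 0 ∧ q2 = 0 ∧ q3 = 0)
    {u v w ni nj nk ε s ε2 r1 r2 l0 l1 l2 l3 : ℤ}
    (hu : trd i = u) (hv : trd j = v) (hw : trd k = w)
    (hni : nrd i = ni) (hnj : nrd j = nj) (hnk : nrd k = nk)
    (hjk : j * k = (ε : ℚ) • 1 + (s : ℚ) • i)
    (hki : k * i = (ε2 : ℚ) • 1 + (r1 : ℚ) • i + (r2 : ℚ) • j)
    (hij : i * j = (l0 : ℚ) • 1 + (l1 : ℚ) • i + (l2 : ℚ) • j + (l3 : ℚ) • k) :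
    Table i j k (-s) (-r2) (-l3) u v w := by
  have ii : i * i = (u : ℚ) • i - (ni : ℚ) • 1 := by rw [self_sq, hu, hni]
  have jj : j * j = (v : ℚ) • j - (nj : ℚ) • 1 := by rw [self_sq, hv, hnj]
  have kk : k * k = (w : ℚ) • k - (nk : ℚ) • 1 := by rw [self_sq, hw, hnk]
  have si : star i = (u : ℚ) • 1 - i := by rw [star_eq, hu]
  have sj : star j = (v : ℚ) • 1 - j := by rw [star_eq, hv]
  have sk : star k = (w : ℚ) • 1 - k := by rw [star_eq, hw]
  have npos : ∀ x : QuaternionAlgebra ℚ a 0 b, x ≠ 0 → 0 < nrd x := fun x hx => nrd_pos ha hb hx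
  have hi0 : i ≠ 0 := by
    intro h0
    have := (indep 0 1 0 0 (by simp [h0])).2.1
    exact one_ne_zero this
  have hj0 : j ≠ 0 := by
    intro h0
    have := (indep 0 0 1 0 (by simp [h0])).2.2.1
    exact one_ne_zero this
  have hk0 : k ≠ 0 := by
    intro h0
    have := (indep 0 0 0 1 (by simp [h0])).2.2.2
    exact one_ne_zero this
  have pni : (0 : ℚ) < ni := by rw [← hni]; exact npos i hi0
  have pnj : (0 : ℚ) < nj := by rw [← hnj]; exact npos j hj0
  have pnk : (0 : ℚ) < nk := by rw [← hnk]; exact npos k hk0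
  -- associativity (jk)i = j(ki)
  have assoc1 : (ε : ℚ) • i + (s : ℚ) • ((u : ℚ) • i - (ni : ℚ) • 1) =
      (ε2 : ℚ) • j + (r1 : ℚ) • (j * i) + (r2 : ℚ) • ((v : ℚ) • j - (nj : ℚ) • 1) := by
    have h1 : (j * k) * i = j * (k * i) := mul_assoc j k i
    rw [hjk, hki] at h1
    simp only [add_mul, mul_add, smul_mul_assoc, mul_smul_comm, one_mul, mul_one, ii, jj] at h1
    exact h1
  have hr1 : (r1 : ℚ) = 0 := by
    by_contra hne
    set c0 : ℚ := (r2 * nj - s * ni) / r1 with hc0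
    set c1 : ℚ := (ε + s * u) / r1 with hc1
    set c2 : ℚ := -(ε2 + r2 * v) / r1 with hc2
    have hji : j * i = c0 • 1 + c1 • i + c2 • j := by
      have h1 : (r1 : ℚ) • (j * i) = (r1 : ℚ) • (c0 • 1 + c1 • i + c2 • j) := by
        have e0 : (r1 : ℚ) * c0 = r2 * nj - s * ni := by rw [hc0]; field_simp
        have e1 : (r1 : ℚ) * c1 = ε + s * u := by rw [hc1]; field_simp
        have e2 : (r1 : ℚ) * c2 = -(ε2 + r2 * v) := by rw [hc2]; field_simp
        have h2 : (r1 : ℚ) • (j * i) = (ε : ℚ) • i + (s : ℚ) • ((u : ℚ) • i - (ni : ℚ) • 1)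
            - (ε2 : ℚ) • j - (r2 : ℚ) • ((v : ℚ) • j - (nj : ℚ) • 1) := by
          rw [assoc1]; abel
        rw [h2, smul_add, smul_add, smul_smul, smul_smul, smul_smul, e0, e1, e2]
        module
      exact smul_right_injective _ hne h1
    have hprod : (j - c1 • 1) * (i - c2 • 1) = (c0 + c1 * c2) • (1 : QuaternionAlgebra ℚ a 0 b) := by
      simp only [sub_mul, mul_sub, smul_mul_assoc, mul_smul_comm, one_mul, mul_one, hji]
      module
    have hstar : star (j - c1 • 1) = (v : ℚ) • 1 - j - c1 • (1 : QuaternionAlgebra ℚ a 0 b) := by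
      rw [star_sub, QuaternionAlgebra.star_smul', star_one, sj]
    have h3 : nrd (j - c1 • 1) • (i - c2 • 1)
        = (c0 + c1 * c2) • ((v : ℚ) • 1 - j - c1 • (1 : QuaternionAlgebra ℚ a 0 b)) := by
      have h4 : star (j - c1 • 1) * ((j - c1 • 1) * (i - c2 • 1))
          = nrd (j - c1 • 1) • (i - c2 • 1) := by
        rw [← mul_assoc, star_mul_self, smul_mul_assoc, one_mul]
      rw [← h4, hprod, mul_smul_comm, mul_one, hstar]
    have h5 := (indep (-(nrd (j - c1 • 1) * c2) - (c0 + c1 * c2) * (v - c1)) (nrd (j - c1 • 1))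
      (c0 + c1 * c2) 0 (by
        have h6 : nrd (j - c1 • 1) • (i - c2 • 1)
          - (c0 + c1 * c2) • ((v : ℚ) • 1 - j - c1 • (1 : QuaternionAlgebra ℚ a 0 b)) = 0 := by
          rw [h3, sub_self]
        rw [← h6]; module)).2.1
    have h7 : j - c1 • 1 ≠ 0 := by
      intro h0
      have := (indep (-c1) 0 1 0 (by rw [← h0]; module)).2.2.1
      exact one_ne_zero this
    have := npos _ h7
    linarith
  rw [hr1, zero_smul, add_zero] at assoc1
  have hB := indep (-(s * ni) + r2 * nj) (ε + s * u) (-(ε2 + r2 * v)) 0 (by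
    have h6 : (ε : ℚ) • i + (s : ℚ) • ((u : ℚ) • i - (ni : ℚ) • 1) -
      ((ε2 : ℚ) • j + (r2 : ℚ) • ((v : ℚ) • j - (nj : ℚ) • (1 : QuaternionAlgebra ℚ a 0 b))) = 0 := by
      rw [assoc1, sub_self]
    rw [← h6]; module)
  obtain ⟨b0, b1, b2, -⟩ := hB
  have hε : (ε : ℚ) = -(s * u) := by linarith
  have hε2 : (ε2 : ℚ) = -(r2 * v) := by linarith
  rw [hε] at hjk
  rw [hε2, hr1, zero_smul, add_zero] at hki
  -- (ij)k = i(jk)
  have hijk : (i * j) * k = (-(s * ni) : ℚ) • 1 := by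
    rw [mul_assoc, hjk]
    simp only [mul_add, mul_smul_comm, mul_one, ii]
    module
  have h8 : (nk : ℚ) • (i * j) = (-(s * ni) : ℚ) • ((w : ℚ) • 1 - k) := by
    have h9 : ((i * j) * k) * star k = (nk : ℚ) • (i * j) := by
      rw [mul_assoc, mul_star_self, hnk, mul_smul_comm, mul_one]
    rw [← h9, hijk, smul_mul_assoc, one_mul, sk]
  rw [hij] at h8
  have hD := indep (nk * l0 + s * ni * w) (nk * l1) (nk * l2) (nk * l3 - s * ni) (by
    have h6 : (nk : ℚ) • ((l0 : ℚ) • 1 + (l1 : ℚ) • i + (l2 : ℚ) • j + (l3 : ℚ) • k)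
        - (-(s * ni) : ℚ) • ((w : ℚ) • (1 : QuaternionAlgebra ℚ a 0 b) - k) = 0 := by
      rw [h8, sub_self]
    rw [← h6]; module)
  obtain ⟨d0, d1, d2, d3⟩ := hD
  have hl1 : (l1 : ℚ) = 0 := (mul_eq_zero.mp d1).resolve_left pnk.ne'
  have hl2 : (l2 : ℚ) = 0 := (mul_eq_zero.mp d2).resolve_left pnk.ne'
  have hl0 : (l0 : ℚ) = -(l3 * w) := by
    have : (nk : ℚ) * (l0 + l3 * w) = 0 := by linear_combination d0 + w * d3
    have := (mul_eq_zero.mp this).resolve_left pnk.ne'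
    linarith
  -- norms
  have hnn : (nj : ℚ) * nk = s ^ 2 * ni := by
    have h1 : nrd (j * k) = nj * nk := by rw [nrd_mul, hnj, hnk]
    have h2 : j * k = (-(s : ℚ)) • star i := by rw [hjk, si]; module
    rw [← h1, h2, nrd_smul, nrd_star, hni]; ring
  have hs0 : (s : ℚ) ≠ 0 := by
    intro h0
    rw [h0] at hnn
    have := mul_pos pnj pnk
    rw [hnn] at this
    norm_num at this
  have hr20 : (r2 : ℚ) ≠ 0 := by
    intro h0
    rw [h0] at b0
    have : (s : ℚ) * ni = 0 := by linarith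
    exact (mul_ne_zero hs0 pni.ne') this
  have hl30 : (l3 : ℚ) ≠ 0 := by
    intro h0
    rw [h0] at d3
    have : (s : ℚ) * ni = 0 := by linarith
    exact (mul_ne_zero hs0 pni.ne') this
  have e1 : (r2 : ℚ) * nj = s * ni := by linarith
  have e2 : (l3 : ℚ) * nk = s * ni := by linarith
  have hniBC : (ni : ℚ) = r2 * l3 := by
    have : ((s : ℚ) ^ 2 * ni) * ni = ((s : ℚ) ^ 2 * ni) * (r2 * l3) := by
      linear_combination (r2 * l3 : ℚ) * hnn - (l3 * nk : ℚ) * e1 - (s * ni : ℚ) * e2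
    exact mul_left_cancel₀ (mul_ne_zero (pow_ne_zero 2 hs0) pni.ne') this
  have hnjAC : (nj : ℚ) = s * l3 := by
    have : (r2 : ℚ) * nj = r2 * (s * l3) := by rw [e1, hniBC]; ring
    exact mul_left_cancel₀ hr20 this
  have hnkAB : (nk : ℚ) = s * r2 := by
    have : (l3 : ℚ) * nk = l3 * (s * r2) := by rw [e2, hniBC]; ring
    exact mul_left_cancel₀ hl30 this
  refine ⟨indep, si, sj, sk, ?_, ?_, ?_, ?_, ?_, ?_⟩
  · rw [ii, hniBC]; push_cast; congr 2; ring
  · rw [jj, hnjAC]; push_cast; congr 2; ring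
  · rw [kk, hnkAB]; push_cast; congr 2; ring
  · rw [hjk]; push_cast; module
  · rw [hki]; push_cast; module
  · rw [hij, hl0, hl1, hl2]; push_cast; module

/-- every order of a definite quaternion algebra has a multiplication table -/
theorem exists_table (ha : a < 0) (hb : b < 0) {O : Subring (QuaternionAlgebra ℚ a 0 b)}
    (hO : IsOrder O) : ∃ A B C u v w : ℤ, HasTable O A B C u v w := by
  obtain ⟨e1, e2, e3, h1, h2, h3, hgen, hind⟩ := exists_basis hO
  obtain ⟨n0, n1, n2, n3, hn⟩ := hgen _ (O.mul_mem h2 h3)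
  have hZ : ∀ (n : ℤ), (n : ℚ) • (1 : QuaternionAlgebra ℚ a 0 b) ∈ O := by
    intro n; rw [Int.cast_smul_eq_zsmul]; exact O.zsmul_mem O.one_mem n
  set j := e2 - (n3 : ℚ) • (1 : QuaternionAlgebra ℚ a 0 b) with hj
  set k := e3 - (n2 : ℚ) • (1 : QuaternionAlgebra ℚ a 0 b) with hk
  have hjO : j ∈ O := O.sub_mem h2 (hZ n3)
  have hkO : k ∈ O := O.sub_mem h3 (hZ n2)
  obtain ⟨m0, m1, m2, m3, hm⟩ := hgen _ (O.mul_mem hkO h1)
  set i := e1 - (m3 : ℚ) • (1 : QuaternionAlgebra ℚ a 0 b) with hi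
  have hiO : i ∈ O := O.sub_mem h1 (hZ m3)
  have he1 : e1 = i + (m3 : ℚ) • 1 := by rw [hi]; abel
  have he2 : e2 = j + (n3 : ℚ) • 1 := by rw [hj]; abel
  have he3 : e3 = k + (n2 : ℚ) • 1 := by rw [hk]; abel
  have hgen' : ∀ x ∈ O, ∃ q0 q1 q2 q3 : ℤ,
      x = (q0 : ℚ) • 1 + (q1 : ℚ) • i + (q2 : ℚ) • j + (q3 : ℚ) • k := by
    intro x hx
    obtain ⟨q0, q1, q2, q3, hq⟩ := hgen x hx
    refine ⟨q0 + q1 * m3 + q2 * n3 + q3 * n2, q1, q2, q3, ?_⟩
    rw [hq, he1, he2, he3]; push_cast; module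
  have hind' : ∀ q0 q1 q2 q3 : ℚ,
      q0 • (1 : QuaternionAlgebra ℚ a 0 b) + q1 • i + q2 • j + q3 • k = 0 →
        q0 = 0 ∧ q1 = 0 ∧ q2 = 0 ∧ q3 = 0 := by
    intro q0 q1 q2 q3 hq
    obtain ⟨g0, g1, g2, g3⟩ := hind (q0 - q1 * m3 - q2 * n3 - q3 * n2) q1 q2 q3 (by
      rw [← hq, hi, hj, hk]; module)
    subst g1 g2 g3
    exact ⟨by simpa using g0, rfl, rfl, rfl⟩
  have hjk : j * k = ((n0 + n2 * n3 + n1 * m3 : ℤ) : ℚ) • 1 + (n1 : ℚ) • i := by
    have e : j * k = e2 * e3 - (n2 : ℚ) • e2 - (n3 : ℚ) • e3 + ((n2 : ℚ) * n3) • 1 := by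
      rw [hj, hk]
      simp only [sub_mul, mul_sub, smul_mul_assoc, mul_smul_comm, one_mul, mul_one]
      module
    rw [e, hn, he1]; push_cast; module
  have hki : k * i = ((m0 + m1 * m3 + m2 * n3 + m3 * n2 : ℤ) : ℚ) • 1 + (m1 : ℚ) • i
      + (m2 : ℚ) • j := by
    have e : k * i = k * e1 - (m3 : ℚ) • k := by
      rw [hi, mul_sub, mul_smul_comm, mul_one]
    rw [e, hm, he1, he2, he3]; push_cast; module
  obtain ⟨l0, l1, l2, l3, hl⟩ := hgen' _ (O.mul_mem hiO hjO)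
  obtain ⟨u, hu⟩ := hO.trd_int hiO
  obtain ⟨v, hv⟩ := hO.trd_int hjO
  obtain ⟨w, hw⟩ := hO.trd_int hkO
  obtain ⟨ni, hni⟩ := hO.nrd_int hiO
  obtain ⟨nj, hnj⟩ := hO.nrd_int hjO
  obtain ⟨nk, hnk⟩ := hO.nrd_int hkO
  have T := core_table ha hb hind' hu hv hw hni hnj hnk hjk hki hl
  refine ⟨_, _, _, _, _, _, i, j, k, T, ?_⟩
  ext x
  constructor
  · rintro ⟨q0, q1, q2, q3, rfl⟩
    refine O.add_mem (O.add_mem (O.add_mem (hZ q0) ?_) ?_) ?_ <;>
      rw [Int.cast_smul_eq_zsmul] <;> refine O.zsmul_mem ?_ _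
    · exact hiO
    · exact hjO
    · exact hkO
  · intro hx
    exact hgen' x hx

end Pool.Agent.H419R3
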