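import Pool.Agent.H419R3.GLat2

set_option autoImplicit false

namespace Pool.Agent.H419R3

variable {M : Type*} [AddCommGroup M] {M' : Type*} [AddCommGroup M']

namespace IsGross

variable {p : ℕ} {β : M →ₗ[ℤ] M →ₗ[ℤ] ℤ} {β' : M' →ₗ[ℤ] M' →ₗ[ℤ] ℤ}

/-- a primitive vector is part of a generating triple -/
lemma prim_extend (hβ : IsGross p β) {x : M} (hx : Prim x) : ∃ y z, Spans x y z := by
  obtain ⟨u, v, w, hs, -⟩ := hβ.basis
  obtain ⟨r, s, t, hxr⟩ := hs x
  by_cases h0 : r = 0 ∧ s = 0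
  · obtain ⟨rfl, rfl⟩ := h0
    have hx' : x = t • w := by rw [hxr]; module
    have ht := hx t w hx'
    refine ⟨v, u, ?_⟩
    have hsp : Spans (t • w) v u := by
      have := spans_signs (s1 := t) (s2 := 1) (s3 := 1) hs.swap12.swap23.swap12.swap23
        (Int.isUnit_iff.mp ht) (Or.inl rfl) (Or.inl rfl)
      simpa using this.swap23
    rw [hx']; exact hsp
  · set g : ℤ := (Int.gcd r s : ℤ) with hg
    have hgpos : 0 < Int.gcd r s := by
      rw [Nat.pos_iff_ne_zero]
      intro h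
      exact h0 (Int.gcd_eq_zero_iff.mp h)
    have hg0 : g ≠ 0 := by rw [hg]; exact_mod_cast hgpos.ne'
    obtain ⟨r', hr'⟩ : g ∣ r := Int.gcd_dvd_left ..
    obtain ⟨s', hs'⟩ : g ∣ s := Int.gcd_dvd_right ..
    have hb : g = r * Int.gcdA r s + s * Int.gcdB r s := Int.gcd_eq_gcd_ab r s
    set α := Int.gcdA r s
    set γ := Int.gcdB r s
    have hrs : r' * α + s' * γ = 1 := by
      have : g * (r' * α + s' * γ) = g * 1 := by
        rw [mul_one]; conv_rhs => rw [hb, hr', hs']
        ring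
      exact mul_left_cancel₀ hg0 this
    -- g and t are coprime
    have hd : Int.gcd g t = 1 := by
      have hdg : (Int.gcd g t : ℤ) ∣ g := Int.gcd_dvd_left ..
      have hdt : (Int.gcd g t : ℤ) ∣ t := Int.gcd_dvd_right ..
      obtain ⟨g1, hg1⟩ := hdg
      obtain ⟨t1, ht1⟩ := hdt
      have hu : IsUnit (Int.gcd g t : ℤ) := by
        apply hx _ ((g1 * r') • u + (g1 * s') • v + t1 • w)
        have e1 : r = (Int.gcd g t : ℤ) * (g1 * r') := by
          rw [← mul_assoc, ← hg1, ← hr']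
        have e2 : s = (Int.gcd g t : ℤ) * (g1 * s') := by
          rw [← mul_assoc, ← hg1, ← hs']
        rw [hxr]
        conv_lhs => rw [e1, e2]
        have e3 : t • w = ((Int.gcd g t : ℤ) * t1) • w := by rw [← ht1]
        rw [e3]
        module
      rw [Int.isUnit_iff] at hu
      omega
    have hb2 : (Int.gcd g t : ℤ) = g * Int.gcdA g t + t * Int.gcdB g t := Int.gcd_eq_gcd_ab g t
    set X := Int.gcdA g t
    set Y := Int.gcdB g t
    rw [hd, Nat.cast_one] at hb2
    refine ⟨(-γ) • u + α • v + (0 : ℤ) • w, (-(Y * r')) • u + (-(Y * s')) • v + X • w, ?_⟩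
    refine spans_of_det hs !![r, s, t; -γ, α, 0; -(Y * r'), -(Y * s'), X] ?_ ?_ ?_ ?_
    · simpa using hxr
    · simp
    · simp
    · have : Matrix.det !![r, s, t; -γ, α, 0; -(Y * r'), -(Y * s'), X] = 1 := by
        rw [Matrix.det_fin_three]
        simp only [Matrix.of_apply, Matrix.cons_val', Matrix.cons_val_zero, Matrix.cons_val_one,
          Matrix.cons_val]
        rw [hr', hs']
        linear_combination (g * X + t * Y) * hrs - hb2
      rw [this]; norm_num

/-- reduction relative to a fixed first vector -/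
lemma exists_rel (hβ : IsGross p β) (hp : 0 < p) {x y0 z0 : M} (hs0 : Spans x y0 z0) :
    ∃ y z : M, ∃ A B C : ℤ, Spans x y z ∧ 4 * p * A = β x x * β y y - β x y ^ 2 ∧
      4 * p * C = β x x * β z z - β x z ^ 2 ∧
      2 * p * B = β x x * β y z - β x y * β x z ∧ |B| ≤ A ∧ A ≤ C ∧ 4 * A * C - B ^ 2 = β x x := by
  classical
  have hpz : (0 : ℤ) < p := by exact_mod_cast hp
  choose F hF using fun y => hβ.minor x y
  have hFnn : ∀ y, 0 ≤ F y := by
    intro y
    have h1 := hβ.cauchy x y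
    have h2 := hF y
    by_contra hc
    have hc' := not_le.mp hc
    nlinarith
  let S : Set (M × M) := {T | Spans x T.1 T.2}
  obtain ⟨T1, hT1, hm1⟩ := exists_argmin S ⟨(y0, z0), hs0⟩ (fun T => (F T.1).toNat)
  let S1 : Set (M × M) := {T | T ∈ S ∧ F T.1 = F T1.1}
  obtain ⟨T2, hT2, hm2⟩ := exists_argmin S1 ⟨T1, hT1, rfl⟩ (fun T => (F T.2).toNat)
  obtain ⟨y, z⟩ := T2
  have hs : Spans x y z := hT2.1
  have hy : F y = F T1.1 := hT2.2
  -- minimality in usable form
  have m1 : ∀ y' z', Spans x y' z' → F y ≤ F y' := by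
    intro y' z' h
    have := hm1 (y', z') h
    have a1 := hFnn T1.1
    have a2 := hFnn y'
    rw [hy]; simp only at this; omega
  have m2 : ∀ z', Spans x y z' → F z ≤ F z' := by
    intro z' h
    have := hm2 (y, z') ⟨h, hy⟩
    have a1 := hFnn z
    have a2 := hFnn z'
    simp only at this; omega
  have hsum : ∀ k : ℤ, 4 * (p : ℤ) * F (z + k • y) = 4 * p * F z + 2 * k * (β x x * β y z - β x y * β x z)
      + k ^ 2 * (4 * p * F y) := by
    intro k
    rw [← hF, ← hF, ← hF]
    simp only [map_add, map_smul, LinearMap.add_apply, LinearMap.smul_apply, smul_eq_mul]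
    rw [hβ.symm z y]; ring
  have hp1 := hsum 1
  have hm := hsum (-1)
  obtain ⟨B, hB⟩ : ∃ B : ℤ, 2 * p * B = β x x * β y z - β x y * β x z := by
    refine ⟨F (z + (1 : ℤ) • y) - F z - F y, ?_⟩
    linarith
  have sp : ∀ k : ℤ, Spans x y (z + k • y) := by
    intro k
    have := hs.addw 0 k
    simpa using this
  have q1 : F z ≤ F (z + (1 : ℤ) • y) := m2 _ (sp 1)
  have q2 : F z ≤ F (z + (-1 : ℤ) • y) := m2 _ (sp (-1))
  have q3 : F y ≤ F z := m1 _ _ hs.swap23
  have q4 : F (z + (1 : ℤ) • y) = F z + B + F y := by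
    have : 4 * (p : ℤ) * F (z + (1 : ℤ) • y) = 4 * p * (F z + B + F y) := by
      rw [hp1, ← hB]; ring
    exact mul_left_cancel₀ (by positivity) this
  have q5 : F (z + (-1 : ℤ) • y) = F z - B + F y := by
    have : 4 * (p : ℤ) * F (z + (-1 : ℤ) • y) = 4 * p * (F z - B + F y) := by
      rw [hm, ← hB]; ring
    exact mul_left_cancel₀ (by positivity) this
  refine ⟨y, z, F y, B, F z, hs, (hF y).symm, (hF z).symm, hB, ?_, q3, ?_⟩
  · rw [abs_le]; constructor <;> linarith
  · have hD := hβ.gdet_spans hp hs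
    have e : (4 * p * F y) * (4 * p * F z) - (2 * (p * B)) ^ 2 = β x x * gdet β x y z := by
      rw [← hF, ← hF]
      have : 2 * (p * B) = β x x * β y z - β x y * β x z := by rw [← hB]; ring
      rw [this]; unfold gdet; ring
    rw [hD] at e
    have : (4 * (p : ℤ) ^ 2) * (4 * F y * F z - B ^ 2) = (4 * (p : ℤ) ^ 2) * β x x := by
      linear_combination e
    exact mul_left_cancel₀ (by positivity) this

/-- canonical shape for a primitive vector of norm 3 -/
lemma canon3 (hβ : IsGross p β) (hp : p.Prime) {x : M} (hx : Prim x) (h3 : β x x = 3) :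
    ∃ x y z : M, ∃ e : ℤ, Spans x y z ∧ β x x = 3 ∧ β x y = e ∧ β x z = -e ∧
      3 * β y y = e ^ 2 + 4 * p ∧ 3 * β z z = e ^ 2 + 4 * p ∧ 3 * β y z = 2 * p - e ^ 2 ∧
      e = (if p % 3 = 0 then 0 else 1) := by
  obtain ⟨y0, z0, hs0⟩ := hβ.prim_extend hx
  obtain ⟨y, z, A, B, C, hs, hA, hC, hB, hBA, hAC, hdisc⟩ := hβ.exists_rel hp.pos hs0
  rw [h3] at hA hC hB hdisc
  have hA1 : A = 1 := by
    have h1 : 0 ≤ A := (abs_nonneg B).trans hBA
    rw [abs_le] at hBA
    have h2 : B ^ 2 ≤ A ^ 2 := by nlinarith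
    have h4 : 3 * A ^ 2 ≤ 3 := by nlinarith
    have h5 : A ≤ 1 := by nlinarith
    have h6 : A ≠ 0 := by
      rintro rfl
      have : B = 0 := by omega
      rw [this] at hdisc; norm_num at hdisc
    omega
  subst hA1
  rw [abs_le] at hBA
  have hB1 : B = 1 ∨ B = -1 := by
    have : B = -1 ∨ B = 0 ∨ B = 1 := by omega
    rcases this with h | h | h
    · right; exact h
    · rw [h] at hdisc; omega
    · left; exact h
  have hC1 : C = 1 := by rcases hB1 with h | h <;> rw [h] at hdisc <;> omega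
  subst hC1
  -- replace z by -z if necessary so that B = 1
  obtain ⟨z1, hs1, hC', hB'⟩ : ∃ z1, Spans x y z1 ∧ 4 * (p : ℤ) * 1 = 3 * β z1 z1 - β x z1 ^ 2 ∧
      2 * (p : ℤ) * 1 = 3 * β y z1 - β x y * β x z1 := by
    rcases hB1 with h | h
    · exact ⟨z, hs, hC, by rw [h] at hB; exact hB⟩
    · refine ⟨-z, hs.neg3, ?_, ?_⟩
      · simp only [map_neg, LinearMap.neg_apply, neg_neg]; linear_combination hC
      · simp only [map_neg]; rw [h] at hB; linear_combination -hB
  -- shift to make the inner products small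
  obtain ⟨k, hk⟩ : ∃ k : ℤ, β x y + 3 * k = -1 ∨ β x y + 3 * k = 0 ∨ β x y + 3 * k = 1 := by
    have : β x y % 3 = 0 ∨ β x y % 3 = 1 ∨ β x y % 3 = 2 := by omega
    rcases this with h | h | h
    · exact ⟨-(β x y / 3), by omega⟩
    · exact ⟨-(β x y / 3), by omega⟩
    · exact ⟨-(β x y / 3) - 1, by omega⟩
  obtain ⟨l, hl⟩ : ∃ l : ℤ, β x z1 + 3 * l = -1 ∨ β x z1 + 3 * l = 0 ∨ β x z1 + 3 * l = 1 := by
    have : β x z1 % 3 = 0 ∨ β x z1 % 3 = 1 ∨ β x z1 % 3 = 2 := by omega
    rcases this with h | h | h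
    · exact ⟨-(β x z1 / 3), by omega⟩
    · exact ⟨-(β x z1 / 3), by omega⟩
    · exact ⟨-(β x z1 / 3) - 1, by omega⟩
  have hs2 : Spans x (y + k • x) (z1 + l • x) := by
    have := (hs1.addv k).addw l 0
    simpa using this
  have b1 : β x (y + k • x) = β x y + 3 * k := by
    simp only [map_add, map_smul, smul_eq_mul, h3]; ring
  have b2 : β x (z1 + l • x) = β x z1 + 3 * l := by
    simp only [map_add, map_smul, smul_eq_mul, h3]; ring
  have b3 : 3 * β (y + k • x) (y + k • x) = β x (y + k • x) ^ 2 + 4 * p := by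
    rw [b1]
    simp only [map_add, map_smul, LinearMap.add_apply, LinearMap.smul_apply, smul_eq_mul, h3]
    rw [hβ.symm y x]; linear_combination -hA
  have b4 : 3 * β (z1 + l • x) (z1 + l • x) = β x (z1 + l • x) ^ 2 + 4 * p := by
    rw [b2]
    simp only [map_add, map_smul, LinearMap.add_apply, LinearMap.smul_apply, smul_eq_mul, h3]
    rw [hβ.symm z1 x]; linear_combination -hC'
  have b5 : 3 * β (y + k • x) (z1 + l • x) = β x (y + k • x) * β x (z1 + l • x) + 2 * p := by
    rw [b1, b2]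
    simp only [map_add, map_smul, LinearMap.add_apply, LinearMap.smul_apply, smul_eq_mul, h3]
    rw [hβ.symm y x]; linear_combination -hB'
  set y2 := y + k • x with hy2
  set z2 := z1 + l • x with hz2
  rw [← b1] at hk
  rw [← b2] at hl
  by_cases hp3 : p % 3 = 0
  · -- p = 3
    have hy0 : β x y2 = 0 := by
      rcases hk with h | h | h
      · rw [h] at b3; omega
      · exact h
      · rw [h] at b3; omega
    have hz0 : β x z2 = 0 := by
      rcases hl with h | h | h
      · rw [h] at b4; omega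
      · exact h
      · rw [h] at b4; omega
    refine ⟨x, y2, z2, 0, hs2, h3, hy0, by rw [hz0]; norm_num, ?_, ?_, ?_, by simp [hp3]⟩
    · rw [b3, hy0]
    · rw [b4, hz0]
    · rw [b5, hy0, hz0]; ring
  · have hy0 : β x y2 ^ 2 = 1 := by
      rcases hk with h | h | h
      · rw [h]; norm_num
      · rw [h] at b3; exfalso; omega
      · rw [h]; norm_num
    have hz0 : β x z2 ^ 2 = 1 := by
      rcases hl with h | h | h
      · rw [h]; norm_num
      · rw [h] at b4; exfalso; omega
      · rw [h]; norm_num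
    have hprod : β x y2 * β x z2 = -1 := by
      rcases hk with h | h | h <;> rcases hl with h' | h' | h' <;> rw [h] at hy0 b3 b5 ⊢ <;>
        rw [h'] at hz0 b4 b5 ⊢ <;> norm_num at * <;> omega
    rcases hk with h | h | h
    · -- negate x
      have h' : β x z2 = 1 := by rw [h] at hprod; linarith
      refine ⟨-x, y2, z2, 1, hs2.neg1, ?_, ?_, ?_, ?_, ?_, ?_, by simp [hp3]⟩
      · simp [h3]
      · simp [h]
      · simp [h']
      · rw [b3, hy0]; ring
      · rw [b4, hz0]; ring
      · rw [b5, hprod]; ring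
    · rw [h] at hy0; norm_num at hy0
    · have h' : β x z2 = -1 := by rw [h] at hprod; linarith
      refine ⟨x, y2, z2, 1, hs2, h3, h, h', ?_, ?_, ?_, by simp [hp3]⟩
      · rw [b3, hy0]; ring
      · rw [b4, hz0]; ring
      · rw [b5, hprod]; ring

/-- canonical shape for a primitive vector of norm 4 -/
lemma canon4 (hβ : IsGross p β) (hp : p.Prime) (hp2 : p ≠ 2) {x : M} (hx : Prim x)
    (h4 : β x x = 4) :
    ∃ y z : M, Spans x y z ∧ β x x = 4 ∧ β x y = 0 ∧ β x z = 2 ∧
      β y y = p ∧ β z z = p + 1 ∧ β y z = 0 := by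
  obtain ⟨y0, z0, hs0⟩ := hβ.prim_extend hx
  obtain ⟨y, z, A, B, C, hs, hA, hC, hB, hBA, hAC, hdisc⟩ := hβ.exists_rel hp.pos hs0
  rw [h4] at hA hC hB hdisc
  have hodd : p % 2 = 1 := by
    rcases hp.eq_two_or_odd with h | h
    · exact absurd h hp2
    · exact h
  have hA1 : A = 1 := by
    have h1 : 0 ≤ A := (abs_nonneg B).trans hBA
    rw [abs_le] at hBA
    have h2 : B ^ 2 ≤ A ^ 2 := by nlinarith
    have h5 : A ≤ 1 := by nlinarith
    have h6 : A ≠ 0 := by
      rintro rfl
      have : B = 0 := by omega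
      rw [this] at hdisc; norm_num at hdisc
    omega
  subst hA1
  rw [abs_le] at hBA
  have hB0 : B = 0 := by
    have : B = -1 ∨ B = 0 ∨ B = 1 := by omega
    rcases this with h | h | h
    · rw [h] at hdisc; omega
    · exact h
    · rw [h] at hdisc; omega
  subst hB0
  have hC1 : C = 1 := by omega
  subst hC1
  obtain ⟨k, hk⟩ : ∃ k : ℤ, β x y + 4 * k = -1 ∨ β x y + 4 * k = 0 ∨ β x y + 4 * k = 1 ∨
      β x y + 4 * k = 2 := by
    have : β x y % 4 = 0 ∨ β x y % 4 = 1 ∨ β x y % 4 = 2 ∨ β x y % 4 = 3 := by omega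
    rcases this with h | h | h | h
    · exact ⟨-(β x y / 4), by omega⟩
    · exact ⟨-(β x y / 4), by omega⟩
    · exact ⟨-(β x y / 4), by omega⟩
    · exact ⟨-(β x y / 4) - 1, by omega⟩
  obtain ⟨l, hl⟩ : ∃ l : ℤ, β x z + 4 * l = -1 ∨ β x z + 4 * l = 0 ∨ β x z + 4 * l = 1 ∨
      β x z + 4 * l = 2 := by
    have : β x z % 4 = 0 ∨ β x z % 4 = 1 ∨ β x z % 4 = 2 ∨ β x z % 4 = 3 := by omega
    rcases this with h | h | h | h
    · exact ⟨-(β x z / 4), by omega⟩
    · exact ⟨-(β x z / 4), by omega⟩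
    · exact ⟨-(β x z / 4), by omega⟩
    · exact ⟨-(β x z / 4) - 1, by omega⟩
  have hs2 : Spans x (y + k • x) (z + l • x) := by
    have := (hs.addv k).addw l 0
    simpa using this
  have b1 : β x (y + k • x) = β x y + 4 * k := by
    simp only [map_add, map_smul, smul_eq_mul, h4]; ring
  have b2 : β x (z + l • x) = β x z + 4 * l := by
    simp only [map_add, map_smul, smul_eq_mul, h4]; ring
  have b3 : 4 * β (y + k • x) (y + k • x) = β x (y + k • x) ^ 2 + 4 * p := by
    rw [b1]
    simp only [map_add, map_smul, LinearMap.add_apply, LinearMap.smul_apply, smul_eq_mul, h4]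
    rw [hβ.symm y x]; linear_combination -hA
  have b4 : 4 * β (z + l • x) (z + l • x) = β x (z + l • x) ^ 2 + 4 * p := by
    rw [b2]
    simp only [map_add, map_smul, LinearMap.add_apply, LinearMap.smul_apply, smul_eq_mul, h4]
    rw [hβ.symm z x]; linear_combination -hC
  have b5 : 4 * β (y + k • x) (z + l • x) = β x (y + k • x) * β x (z + l • x) := by
    rw [b1, b2]
    simp only [map_add, map_smul, LinearMap.add_apply, LinearMap.smul_apply, smul_eq_mul, h4]
    rw [hβ.symm y x]; linear_combination -hB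
  set y2 := y + k • x with hy2
  set z2 := z + l • x with hz2
  rw [← b1] at hk
  rw [← b2] at hl
  have hsum := hβ.mod4 (y2 + z2)
  have e : β (y2 + z2) (y2 + z2) = β y2 y2 + β z2 z2 + 2 * β y2 z2 := by
    simp only [map_add, LinearMap.add_apply]
    rw [hβ.symm z2 y2]; ring
  rw [e] at hsum
  rcases hk with h | h | h | h
  · rw [h] at b3; exfalso; omega
  · rcases hl with h' | h' | h' | h'
    · rw [h'] at b4; exfalso; omega
    · rw [h] at b3 b5; rw [h'] at b4 b5; exfalso; omega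
    · rw [h'] at b4; exfalso; omega
    · rw [h] at b3 b5; rw [h'] at b4 b5
      exact ⟨y2, z2, hs2, h4, h, h', by linarith, by linarith, by linarith⟩
  · rw [h] at b3; exfalso; omega
  · rcases hl with h' | h' | h' | h'
    · rw [h'] at b4; exfalso; omega
    · rw [h] at b3 b5; rw [h'] at b4 b5
      exact ⟨z2, y2, hs2.swap23, h4, h', h, by linarith, by linarith,
        by rw [hβ.symm]; linarith⟩
    · rw [h'] at b4; exfalso; omega
    · rw [h] at b3 b5; rw [h'] at b4 b5; exfalso; omega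

/-- the prime 2 -/
lemma canon_two {β : M →ₗ[ℤ] M →ₗ[ℤ] ℤ} (hβ : IsGross 2 β) :
    ∃ x y z : M, Spans x y z ∧ β x x = 3 ∧ β y y = 3 ∧ β z z = 3 ∧
      β y z = -1 ∧ β x z = -1 ∧ β x y = -1 := by
  obtain ⟨u, v, w, hr⟩ := hβ.exists_reduced
  have hpos := hβ.pos_of_spans (by norm_num) hr.spans
  have hprod := hβ.prod_le (by norm_num) hr hpos
  have hab := hr.ab
  have hbc := hr.bc
  have hD := hβ.gdet_spans (by norm_num) hr.spans
  have m1 := hβ.mod4 u
  have m2 := hβ.mod4 v
  have m3 := hβ.mod4 w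
  have m12 := hβ.mod4 (u + v)
  have m13 := hβ.mod4 (u + w)
  have m23 := hβ.mod4 (v + w)
  have e12 : β (u + v) (u + v) = β u u + β v v + 2 * β u v := by
    simp only [map_add, LinearMap.add_apply]; rw [hβ.symm v u]; ring
  have e13 : β (u + w) (u + w) = β u u + β w w + 2 * β u w := by
    simp only [map_add, LinearMap.add_apply]; rw [hβ.symm w u]; ring
  have e23 : β (v + w) (v + w) = β v v + β w w + 2 * β v w := by
    simp only [map_add, LinearMap.add_apply]; rw [hβ.symm w v]; ring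
  rw [e12] at m12
  rw [e13] at m13
  rw [e23] at m23
  have hf := hr.f
  have hg := hr.g
  have hh := hr.h
  rw [abs_le] at hf hg hh
  have ha3 : 3 ≤ β u u := by omega
  norm_num at hprod
  have hu3 : β u u = 3 := by
    by_contra hne
    have : 4 ≤ β u u := by omega
    have h1 : 16 ≤ β u u * β v v := by nlinarith
    have h2 : 64 ≤ β u u * β v v * β w w := by nlinarith
    linarith
  have hv3 : β v v = 3 := by
    by_contra hne
    have : 4 ≤ β v v := by omega
    rw [hu3] at hprod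
    nlinarith
  have hw3 : β w w = 3 := by
    by_contra hne
    have : 4 ≤ β w w := by omega
    rw [hu3, hv3] at hprod
    nlinarith
  rw [hu3] at hg hh m12 m13
  rw [hv3] at hf m12 m23
  rw [hw3] at m13 m23
  have h1 : β u v = 1 ∨ β u v = -1 := by omega
  have h2 : β u w = 1 ∨ β u w = -1 := by omega
  have h3 : β v w = 1 ∨ β v w = -1 := by omega
  have sf : β v w ^ 2 = (-1) ^ 2 := by rcases h3 with h | h <;> rw [h] <;> norm_num
  have sg : β u w ^ 2 = (-1) ^ 2 := by rcases h2 with h | h <;> rw [h] <;> norm_num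
  have sh : β u v ^ 2 = (-1) ^ 2 := by rcases h1 with h | h <;> rw [h] <;> norm_num
  have hpr : β v w * β u w * β u v = -1 * -1 * -1 := by
    unfold gdet at hD
    rw [hu3, hv3, hw3, sf, sg, sh] at hD
    norm_num at hD
    linarith
  obtain ⟨s1, s2, s3, t1, t2, t3, q1, q2, q3⟩ := sign_fix sf sg sh hpr
  have r1 : s1 * s1 = 1 := by rcases t1 with rfl | rfl <;> norm_num
  have r2 : s2 * s2 = 1 := by rcases t2 with rfl | rfl <;> norm_num
  have r3 : s3 * s3 = 1 := by rcases t3 with rfl | rfl <;> norm_num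
  refine ⟨s1 • u, s2 • v, s3 • w, spans_signs hr.spans t1 t2 t3, ?_, ?_, ?_, ?_, ?_, ?_⟩ <;>
    simp only [map_smul, LinearMap.smul_apply, smul_eq_mul]
  · rw [← mul_assoc, r1, one_mul, hu3]
  · rw [← mul_assoc, r2, one_mul, hv3]
  · rw [← mul_assoc, r3, one_mul, hw3]
  · rw [← q1]; ring
  · rw [← q2]; ring
  · rw [← q3]; ring

/-- Main theorem on Gross type lattices. -/
theorem main_lattice (hp : p.Prime) (hβ : IsGross p β) (hβ' : IsGross p β') :
    (∃ (u v w : M) (x y z : M'), Spans u v w ∧ Spans x y z ∧ GramEq β β' u v w x y z) ∨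
    ∃ n : ℕ, 0 < n ∧ n ≤ 2 * p ∧ (∃ x : M, Prim x ∧ β x x = n) ∧
      ∀ x' : M', Prim x' → β' x' x' ≠ n := by
  by_cases hp2 : p = 2
  · subst hp2
    left
    obtain ⟨u, v, w, hs, a1, a2, a3, a4, a5, a6⟩ := hβ.canon_two
    obtain ⟨x, y, z, hs', b1, b2, b3, b4, b5, b6⟩ := hβ'.canon_two
    exact ⟨u, v, w, x, y, z, hs, hs', by rw [a1, b1], by rw [a2, b2], by rw [a3, b3],
      by rw [a4, b4], by rw [a5, b5], by rw [a6, b6]⟩
  obtain ⟨u, v, w, hr⟩ := hβ.exists_reduced
  have hpos := hβ.pos_of_spans hp.pos hr.spans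
  have hlast := hβ.last_le hp.pos hr
  have hab := hr.ab
  have hbc := hr.bc
  have m1 := hβ.mod4 u
  have key : ∀ m : ℤ, 0 < m → m ≤ 2 * p → (∃ x : M, Prim x ∧ β x x = m) →
      (¬ ∃ x' : M', Prim x' ∧ β' x' x' = m) →
      ∃ n : ℕ, 0 < n ∧ n ≤ 2 * p ∧ (∃ x : M, Prim x ∧ β x x = n) ∧
      ∀ x' : M', Prim x' → β' x' x' ≠ n := by
    intro m h0 h1 h2 h3
    have hm : ((m.toNat : ℕ) : ℤ) = m := Int.toNat_of_nonneg h0.le
    refine ⟨m.toNat, by omega, by omega, ?_, ?_⟩
    · rw [hm]; exact h2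
    · rw [hm]
      intro x' hx' he
      exact h3 ⟨x', hx', he⟩
  have pu : Prim u := hβ.prim_of_spans hp.pos hr.spans
  have pv : Prim v := hβ.prim_of_spans hp.pos hr.spans.swap12
  have pw : Prim w := hβ.prim_of_spans hp.pos hr.spans.swap23.swap12
  by_cases hbig : 7 ≤ β u u
  · by_cases hu : ∃ x' : M', Prim x' ∧ β' x' x' = β u u
    · by_cases hv : ∃ x' : M', Prim x' ∧ β' x' x' = β v v
      · by_cases hw : ∃ x' : M', Prim x' ∧ β' x' x' = β w w
        · left
          obtain ⟨u', -, hu'⟩ := hu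
          obtain ⟨v', -, hv'⟩ := hv
          obtain ⟨w', -, hw'⟩ := hw
          obtain ⟨x, y, z, hs, hG⟩ := case_big hp hp2 hβ hβ' hr hbig hu' hv' hw'
          exact ⟨u, v, w, x, y, z, hr.spans, hs, hG⟩
        · right
          exact key _ (by linarith) hlast ⟨w, pw, rfl⟩ hw
      · right
        exact key _ (by linarith) (by linarith) ⟨v, pv, rfl⟩ hv
    · right
      exact key _ hpos (by linarith) ⟨u, pu, rfl⟩ hu
  · have h34 : β u u = 3 ∨ β u u = 4 := by omega
    by_cases hu : ∃ x' : M', Prim x' ∧ β' x' x' = β u u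
    · left
      obtain ⟨u', pu', hu'⟩ := hu
      rcases h34 with h | h
      · rw [h] at hu'
        obtain ⟨x, y, z, e, hs, a1, a2, a3, a4, a5, a6, a7⟩ := hβ.canon3 hp pu h
        obtain ⟨x', y', z', e', hs', b1, b2, b3, b4, b5, b6, b7⟩ := hβ'.canon3 hp pu' hu'
        have hee : e = e' := a7.trans b7.symm
        subst hee
        exact ⟨x, y, z, x', y', z', hs, hs', by rw [a1, b1], by linarith, by linarith,
          by linarith, by rw [a3, b3], by rw [a2, b2]⟩
      · rw [h] at hu'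
        obtain ⟨y, z, hs, a1, a2, a3, a4, a5, a6⟩ := hβ.canon4 hp hp2 pu h
        obtain ⟨y', z', hs', b1, b2, b3, b4, b5, b6⟩ := hβ'.canon4 hp hp2 pu' hu'
        exact ⟨u, y, z, u', y', z', hs, hs', by rw [a1, b1], by rw [a4, b4], by rw [a5, b5],
          by rw [a6, b6], by rw [a3, b3], by rw [a2, b2]⟩
    · right
      exact key _ hpos (by linarith) ⟨u, pu, rfl⟩ hu

end IsGross

end Pool.Agent.H419R3
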