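import Pool.Agent.H419R3.GGood
import Pool.Agent.H419R3.GLat3

set_option autoImplicit false
set_option linter.unusedSimpArgs false

namespace Pool.Agent.H419R3

variable {a b : ℚ}

/-- standard generators -/
def stdI (a b : ℚ) : QuaternionAlgebra ℚ a 0 b := ⟨0, 1, 0, 0⟩
/-- standard generators -/
def stdJ (a b : ℚ) : QuaternionAlgebra ℚ a 0 b := ⟨0, 0, 1, 0⟩
/-- standard generators -/
def stdK (a b : ℚ) : QuaternionAlgebra ℚ a 0 b := ⟨0, 0, 0, 1⟩

lemma sII : stdI a b * stdI a b = a • 1 := by ext <;> simp [stdI]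
lemma sJJ : stdJ a b * stdJ a b = b • 1 := by ext <;> simp [stdJ]
lemma sKK : stdK a b * stdK a b = (-(a * b)) • 1 := by ext <;> simp [stdK]
lemma sIJ : stdI a b * stdJ a b = stdK a b := by ext <;> simp [stdI, stdJ, stdK]
lemma sJI : stdJ a b * stdI a b = -stdK a b := by ext <;> simp [stdI, stdJ, stdK]
lemma sIK : stdI a b * stdK a b = a • stdJ a b := by ext <;> simp [stdI, stdJ, stdK]
lemma sKI : stdK a b * stdI a b = -(a • stdJ a b) := by ext <;> simp [stdI, stdJ, stdK]
lemma sJK : stdJ a b * stdK a b = -(b • stdI a b) := by ext <;> simp [stdI, stdJ, stdK]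
lemma sKJ : stdK a b * stdJ a b = b • stdI a b := by ext <;> simp [stdI, stdJ, stdK]

/-- Skolem-Noether for a pair of standard bases -/
lemma exists_conj (ha : a ≠ 0) (hb : b ≠ 0) {X Y : QuaternionAlgebra ℚ a 0 b}
    (hXX : X * X = a • 1) (hYY : Y * Y = b • 1) (hYX : Y * X = -(X * Y)) :
    ∃ c : QuaternionAlgebra ℚ a 0 b, c ≠ 0 ∧ X * c = c * stdI a b ∧ Y * c = c * stdJ a b := by
  set Z := X * Y with hZ
  have hXZ : X * Z = a • Y := by rw [hZ, ← mul_assoc, hXX, smul_mul_assoc, one_mul]
  have hYZ : Y * Z = -(b • X) := by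
    rw [hZ, ← mul_assoc, hYX, neg_mul, hZ, mul_assoc, hYY, mul_smul_comm, mul_one]
  have rXX : ∀ t, X * (X * t) = a • t := fun t => by rw [← mul_assoc, hXX, smul_mul_assoc, one_mul]
  have rYY : ∀ t, Y * (Y * t) = b • t := fun t => by rw [← mul_assoc, hYY, smul_mul_assoc, one_mul]
  have rXY : ∀ t, X * (Y * t) = Z * t := fun t => by rw [← mul_assoc]
  have rYX : ∀ t, Y * (X * t) = -(Z * t) := fun t => by rw [← mul_assoc, hYX, neg_mul]
  have rXZ : ∀ t, X * (Z * t) = a • (Y * t) := fun t => by rw [← mul_assoc, hXZ, smul_mul_assoc]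
  have rYZ : ∀ t, Y * (Z * t) = -(b • (X * t)) := fun t => by
    rw [← mul_assoc, hYZ, neg_mul, smul_mul_assoc]
  let I := stdI a b
  let J := stdJ a b
  let K := stdK a b
  let c : QuaternionAlgebra ℚ a 0 b → QuaternionAlgebra ℚ a 0 b := fun z =>
    (a * b) • z + b • (X * (z * I)) + a • (Y * (z * J)) - Z * (z * K)
  have h1 : ∀ z, X * c z = c z * I := by
    intro z
    simp only [c, I, J, K, mul_add, mul_sub, add_mul, sub_mul, mul_smul_comm, smul_mul_assoc,
      mul_assoc, rXX, rXY, rXZ, sII, sJI, sKI, mul_neg, mul_one, neg_mul, smul_neg]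
    module
  have h2 : ∀ z, Y * c z = c z * J := by
    intro z
    simp only [c, I, J, K, mul_add, mul_sub, add_mul, sub_mul, mul_smul_comm, smul_mul_assoc,
      mul_assoc, rYX, rYY, rYZ, sIJ, sJJ, sKJ, mul_neg, mul_one, neg_mul, smul_neg]
    module
  have h3 : (a * b) • c 1 + b • (c I * I) + a • (c J * J) - c K * K
      = (4 * (a * b) ^ 2) • (1 : QuaternionAlgebra ℚ a 0 b) := by
    simp only [c, I, J, K, mul_add, mul_sub, add_mul, sub_mul, mul_smul_comm, smul_mul_assoc,
      mul_assoc, sII, sIJ, sIK, sJI, sJJ, sJK, sKI, sKJ, sKK, mul_neg, mul_one, neg_mul, smul_neg,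
      one_mul]
    module
  by_cases c1 : c 1 = 0
  · by_cases cI : c I = 0
    · by_cases cJ : c J = 0
      · by_cases cK : c K = 0
        · exfalso
          rw [c1, cI, cJ, cK] at h3
          have := congrArg QuaternionAlgebra.re h3
          simp at this
          rcases this with h | h
          · exact ha h
          · exact hb h
        · exact ⟨c K, cK, h1 K, h2 K⟩
      · exact ⟨c J, cJ, h1 J, h2 J⟩
    · exact ⟨c I, cI, h1 I, h2 I⟩
  · exact ⟨c 1, c1, h1 1, h2 1⟩

/-- pure quaternions: product relations -/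
lemma pure_sq {x : QuaternionAlgebra ℚ a 0 b} (hx : star x = -x) : x * x = (-nrd x) • 1 := by
  have h := mul_star_self x
  rw [hx, mul_neg] at h
  rw [neg_smul, ← h, neg_neg]

lemma pure_anti {x y : QuaternionAlgebra ℚ a 0 b} (hx : star x = -x) (hy : star y = -y)
    (h0 : trd (x * star y) = 0) : y * x = -(x * y) := by
  have h1 := star_eq (x * star y)
  rw [h0, zero_smul, zero_sub, star_mul, star_star, hx, hy, mul_neg, mul_neg, neg_neg] at h1
  rw [← h1, neg_neg]

/-- an isometry of trace zero spaces is conjugation up to sign -/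
lemma exists_conj_isometry (ha : a < 0) (hb : b < 0) {f g : Fin 3 → QuaternionAlgebra ℚ a 0 b}
    (hf : ∀ m, star (f m) = -f m) (hg : ∀ m, star (g m) = -g m)
    (hind : ∀ q : Fin 3 → ℚ, q 0 • f 0 + q 1 • f 1 + q 2 • f 2 = 0 → q = 0)
    (hfg : ∀ m n, trd (f m * star (f n)) = trd (g m * star (g n))) :
    ∃ (c : QuaternionAlgebra ℚ a 0 b) (ε : ℚ), c ≠ 0 ∧ (ε = 1 ∨ ε = -1) ∧
      ∀ m, c * f m = ε • (g m * c) := by
  -- expansions of the standard generators
  have hexp : ∀ x : QuaternionAlgebra ℚ a 0 b, x.re = 0 →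
      ∃ q : Fin 3 → ℚ, x = q 0 • f 0 + q 1 • f 1 + q 2 • f 2 := by
    intro x hx
    have hli : LinearIndependent ℚ ![1, f 0, f 1, f 2] := by
      rw [Fintype.linearIndependent_iff]
      intro s hs
      rw [Fin.sum_univ_four] at hs
      have hs' : s 0 • (1 : QuaternionAlgebra ℚ a 0 b) + s 1 • f 0 + s 2 • f 1 + s 3 • f 2 = 0 := hs
      have hre : ∀ m, (f m).re = 0 := by
        intro m
        have := congrArg QuaternionAlgebra.re (hf m)
        simp at this
        linarith
      have h0 : s 0 = 0 := by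
        have := congrArg QuaternionAlgebra.re hs'
        simpa [hre] using this
      rw [h0, zero_smul, zero_add] at hs'
      have h1 := hind ![s 1, s 2, s 3] hs'
      have g0 := congrFun h1 0
      have g1 := congrFun h1 1
      have g2 := congrFun h1 2
      simp at g0 g1 g2
      intro m
      fin_cases m
      · exact h0
      · exact g0
      · exact g1
      · exact g2
    have hcard : Fintype.card (Fin 4) = Module.finrank ℚ (QuaternionAlgebra ℚ a 0 b) := by
      rw [QuaternionAlgebra.finrank_eq_four]; rfl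
    have hspan := hli.span_eq_top_of_card_eq_finrank' hcard
    have hx' : x ∈ Submodule.span ℚ (Set.range ![1, f 0, f 1, f 2]) := by rw [hspan]; trivial
    rw [Submodule.mem_span_range_iff_exists_fun] at hx'
    obtain ⟨s, hs⟩ := hx'
    rw [Fin.sum_univ_four] at hs
    have hs' : s 0 • (1 : QuaternionAlgebra ℚ a 0 b) + s 1 • f 0 + s 2 • f 1 + s 3 • f 2 = x := hs
    have hre : ∀ m, (f m).re = 0 := by
      intro m
      have := congrArg QuaternionAlgebra.re (hf m)
      simp at this
      linarith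
    have h0 : s 0 = 0 := by
      have := congrArg QuaternionAlgebra.re hs'
      simpa [hre, hx] using this
    refine ⟨![s 1, s 2, s 3], ?_⟩
    rw [← hs', h0, zero_smul, zero_add]
    rfl
  obtain ⟨p, hp⟩ := hexp (stdI a b) rfl
  obtain ⟨q, hq⟩ := hexp (stdJ a b) rfl
  obtain ⟨r, hr⟩ := hexp (stdK a b) rfl
  -- images
  let σ : (Fin 3 → ℚ) → QuaternionAlgebra ℚ a 0 b := fun s => s 0 • g 0 + s 1 • g 1 + s 2 • g 2
  let τ : (Fin 3 → ℚ) → QuaternionAlgebra ℚ a 0 b := fun s => s 0 • f 0 + s 1 • f 1 + s 2 • f 2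
  have hστ : ∀ s t, trd (σ s * star (σ t)) = trd (τ s * star (τ t)) := by
    intro s t
    simp only [σ, τ, star_add, QuaternionAlgebra.star_smul', add_mul, mul_add, smul_mul_assoc,
      mul_smul_comm, trd_add, trd_smul, hfg]
  have hσstar : ∀ s, star (σ s) = -σ s := by
    intro s
    simp only [σ, star_add, QuaternionAlgebra.star_smul', hg]
    module
  have hnrd : ∀ x : QuaternionAlgebra ℚ a 0 b, trd (x * star x) = 2 * nrd x := by
    intro x; rw [mul_star_self, trd_smul, trd_one]; ring
  have hσn : ∀ s, nrd (σ s) = nrd (τ s) := by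
    intro s
    have := hστ s s
    rw [hnrd, hnrd] at this
    linarith
  have hτp : τ p = stdI a b := hp.symm
  have hτq : τ q = stdJ a b := hq.symm
  have hτr : τ r = stdK a b := hr.symm
  set X := σ p with hX
  set Y := σ q with hY
  set Z := σ r with hZ
  have nI : nrd (stdI a b) = -a := by simp [nrd_eq, stdI]
  have nJ : nrd (stdJ a b) = -b := by simp [nrd_eq, stdJ]
  have nK : nrd (stdK a b) = a * b := by simp [nrd_eq, stdK]
  have hXX : X * X = a • 1 := by
    rw [pure_sq (hσstar p), hσn, hτp, nI, neg_neg]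
  have hYY : Y * Y = b • 1 := by
    rw [pure_sq (hσstar q), hσn, hτq, nJ, neg_neg]
  have hZZ : Z * Z = (-(a * b)) • 1 := by
    rw [pure_sq (hσstar r), hσn, hτr, nK]
  have hYX : Y * X = -(X * Y) := by
    apply pure_anti (hσstar p) (hσstar q)
    rw [hστ, hτp, hτq]; simp [trd_eq, stdI, stdJ]
  have hZX : Z * X = -(X * Z) := by
    apply pure_anti (hσstar p) (hσstar r)
    rw [hστ, hτp, hτr]; simp [trd_eq, stdI, stdK]
  have hZY : Z * Y = -(Y * Z) := by
    apply pure_anti (hσstar q) (hσstar r)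
    rw [hστ, hτq, hτr]; simp [trd_eq, stdJ, stdK]
  -- the triple product is a scalar
  have hstarP : star (X * Y * Z) = X * Y * Z := by
    rw [star_mul, star_mul, hσstar p, hσstar q, hσstar r]
    calc -Z * (-Y * -X) = -(Z * (Y * X)) := by noncomm_ring
      _ = Z * X * Y := by rw [hYX]; noncomm_ring
      _ = -(X * (Z * Y)) := by rw [hZX]; noncomm_ring
      _ = X * Y * Z := by rw [hZY]; noncomm_ring
  have hPs : X * Y * Z = (X * Y * Z).re • 1 := by
    apply eq_smul_of_star_eq
    rw [hstarP, sub_self]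
  set μ := (X * Y * Z).re with hμ
  have hμ2 : μ ^ 2 = (a * b) ^ 2 := by
    have h1 : nrd (X * Y * Z) = μ ^ 2 := by rw [hPs, nrd_smul, nrd_one, mul_one]
    have h2 : nrd (X * Y * Z) = (-a) * (-b) * (a * b) := by
      rw [nrd_mul, nrd_mul, hσn, hσn, hσn, hτp, hτq, hτr, nI, nJ, nK]
    rw [← h1, h2]; ring
  have hab : a * b ≠ 0 := mul_ne_zero ha.ne hb.ne
  have hXYZ : (-(a * b)) • (X * Y) = μ • Z := by
    have h1 : X * Y * Z * Z = (-(a * b)) • (X * Y) := by
      rw [mul_assoc (X * Y), hZZ, mul_smul_comm, mul_one]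
    rw [← h1, hPs, smul_mul_assoc, one_mul]
  -- sign
  obtain ⟨ε, hε, hεZ⟩ : ∃ ε : ℚ, (ε = 1 ∨ ε = -1) ∧ X * Y = ε • Z := by
    rcases sq_eq_sq_iff_eq_or_eq_neg.mp hμ2 with h | h
    · refine ⟨-1, Or.inr rfl, ?_⟩
      rw [h] at hXYZ
      have : (a * b) • (X * Y) = (a * b) • ((-1 : ℚ) • Z) := by
        rw [neg_smul] at hXYZ
        rw [neg_smul, one_smul, smul_neg, ← hXYZ, neg_neg]
      exact smul_right_injective _ hab this
    · refine ⟨1, Or.inl rfl, ?_⟩
      rw [h] at hXYZ
      rw [one_smul]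
      exact smul_right_injective _ (neg_ne_zero.mpr hab) hXYZ
  have hεε : ε * ε = 1 := by rcases hε with h | h <;> rw [h] <;> norm_num
  obtain ⟨c, hc, hcX, hcY⟩ := exists_conj (X := ε • X) (Y := ε • Y) ha.ne hb.ne
    (by rw [smul_mul_assoc, mul_smul_comm, smul_smul, hεε, one_smul, hXX])
    (by rw [smul_mul_assoc, mul_smul_comm, smul_smul, hεε, one_smul, hYY])
    (by rw [smul_mul_assoc, mul_smul_comm, smul_smul, hεε, one_smul, hYX, smul_mul_assoc,
      mul_smul_comm, smul_smul, hεε, one_smul])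
  have hcZ : (ε • Z) * c = c * stdK a b := by
    rw [← hεZ]
    have h1 : X * Y = (ε • X) * (ε • Y) := by
      rw [smul_mul_assoc, mul_smul_comm, smul_smul, hεε, one_smul]
    rw [h1, mul_assoc, hcY, ← mul_assoc, hcX, mul_assoc, sIJ]
  refine ⟨c, ε, hc, hε, ?_⟩
  -- expand f m in the standard generators
  have hfin : ∀ (s : Fin 3 → ℚ), c * τ s = ε • (σ s * c) := by
    intro s
    -- coordinates of τ s
    obtain ⟨x, y, z, hxyz⟩ : ∃ x y z : ℚ, τ s = x • stdI a b + y • stdJ a b + z • stdK a b := by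
      refine ⟨(τ s).imI, (τ s).imJ, (τ s).imK, ?_⟩
      have hre : (τ s).re = 0 := by
        have h1 : star (τ s) = -τ s := by
          simp only [τ, star_add, QuaternionAlgebra.star_smul', hf]; module
        have := congrArg QuaternionAlgebra.re h1
        simp at this
        linarith
      ext
      · simp [stdI, stdJ, stdK, hre]
      · simp [stdI, stdJ, stdK]
      · simp [stdI, stdJ, stdK]
      · simp [stdI, stdJ, stdK]
    have hs : σ s = x • X + y • Y + z • Z := by
      have h1 : (s - (x • p + y • q + z • r)) = 0 := by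
        apply hind
        have h2 : τ s - (x • τ p + y • τ q + z • τ r) = 0 := by
          rw [hτp, hτq, hτr, hxyz, sub_self]
        simp only [τ] at h2
        rw [← h2]
        simp only [Pi.sub_apply, Pi.add_apply, Pi.smul_apply, smul_eq_mul]
        module
      have h3 : s = x • p + y • q + z • r := sub_eq_zero.mp h1
      rw [hX, hY, hZ]
      conv_lhs => rw [h3]
      simp only [σ, Pi.add_apply, Pi.smul_apply, smul_eq_mul]
      module
    rw [hxyz, hs]
    simp only [mul_add, add_mul, mul_smul_comm, smul_mul_assoc, smul_add]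
    rw [← hcX, ← hcY, ← hcZ]
    simp only [smul_mul_assoc, smul_smul]
    module
  intro m
  fin_cases m
  · have := hfin ![1, 0, 0]
    simpa [σ, τ] using this
  · have := hfin ![0, 1, 0]
    simpa [σ, τ] using this
  · have := hfin ![0, 0, 1]
    simpa [σ, τ] using this

end Pool.Agent.H419R3
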