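import Mathlib

set_option autoImplicit false

namespace Pool.Agent.H419R3

variable {M : Type*} [AddCommGroup M]

/-- three vectors generate `M` -/
def Spans (u v w : M) : Prop := ∀ x : M, ∃ r s t : ℤ, x = r • u + s • v + t • w

/-- Gram determinant of three vectors -/
def gdet (β : M →ₗ[ℤ] M →ₗ[ℤ] ℤ) (u v w : M) : ℤ :=
  β u u * β v v * β w w + 2 * β v w * β u w * β u v - β u u * β v w ^ 2
    - β v v * β u w ^ 2 - β w w * β u v ^ 2

/-- The properties of the Gross lattice of a maximal order that are used. -/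
structure IsGross (p : ℕ) (β : M →ₗ[ℤ] M →ₗ[ℤ] ℤ) : Prop where
  symm : ∀ x y, β x y = β y x
  pos : ∀ x, x ≠ 0 → 0 < β x x
  mod4 : ∀ x, β x x % 4 = 0 ∨ β x x % 4 = 3
  minor : ∀ x y, (4 * p : ℤ) ∣ β x x * β y y - β x y ^ 2
  basis : ∃ u v w, Spans u v w ∧ gdet β u v w = 4 * p ^ 2

/-- primitive vector -/
def Prim (x : M) : Prop := ∀ (k : ℤ) (y : M), x = k • y → IsUnit k

lemma gdet_transform (β : M →ₗ[ℤ] M →ₗ[ℤ] ℤ) (hs : ∀ x y, β x y = β y x) (u v w : M)
    (P : Matrix (Fin 3) (Fin 3) ℤ) :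
    gdet β (P 0 0 • u + P 0 1 • v + P 0 2 • w) (P 1 0 • u + P 1 1 • v + P 1 2 • w)
      (P 2 0 • u + P 2 1 • v + P 2 2 • w) = P.det ^ 2 * gdet β u v w := by
  have hG : ∀ x y z : M, gdet β x y z =
      Matrix.det !![β x x, β x y, β x z; β y x, β y y, β y z; β z x, β z y, β z z] := by
    intro x y z
    rw [Matrix.det_fin_three]
    simp only [gdet, Matrix.of_apply, Matrix.cons_val', Matrix.cons_val_zero, Matrix.cons_val_one,
      Matrix.cons_val]
    rw [hs y x, hs z x, hs z y]; ring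
  rw [hG, hG u v w]
  set G : Matrix (Fin 3) (Fin 3) ℤ := !![β u u, β u v, β u w; β v u, β v v, β v w; β w u, β w v, β w w]
    with hGdef
  have h1 : Matrix.det (P * G * P.transpose) = P.det ^ 2 * G.det := by
    rw [Matrix.det_mul, Matrix.det_mul, Matrix.det_transpose]; ring
  rw [← h1]
  congr 1
  ext i j
  fin_cases i <;> fin_cases j <;>
    simp [Matrix.mul_apply, Fin.sum_univ_three, hGdef] <;> ring

lemma Spans.mat {u v w : M} (h : Spans u v w) (x y z : M) :
    ∃ P : Matrix (Fin 3) (Fin 3) ℤ, x = P 0 0 • u + P 0 1 • v + P 0 2 • w ∧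
      y = P 1 0 • u + P 1 1 • v + P 1 2 • w ∧ z = P 2 0 • u + P 2 1 • v + P 2 2 • w := by
  obtain ⟨a, b, c, hx⟩ := h x
  obtain ⟨d, e, f, hy⟩ := h y
  obtain ⟨g, k, l, hz⟩ := h z
  exact ⟨!![a, b, c; d, e, f; g, k, l], by simpa using hx, by simpa using hy, by simpa using hz⟩

lemma spans_of_det {u v w x y z : M} (h : Spans u v w) (P : Matrix (Fin 3) (Fin 3) ℤ)
    (hx : x = P 0 0 • u + P 0 1 • v + P 0 2 • w)
    (hy : y = P 1 0 • u + P 1 1 • v + P 1 2 • w)
    (hz : z = P 2 0 • u + P 2 1 • v + P 2 2 • w) (hP : P.det ^ 2 = 1) : Spans x y z := by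
  set Q := P.det • P.adjugate with hQ
  have hQP : Q * P = 1 := by
    rw [hQ, Matrix.smul_mul, Matrix.adjugate_mul, smul_smul, ← sq, hP, one_smul]
  have key : ∀ i j : Fin 3, Q i 0 * P 0 j + Q i 1 * P 1 j + Q i 2 * P 2 j
      = (1 : Matrix (Fin 3) (Fin 3) ℤ) i j := by
    intro i j
    rw [← hQP, Matrix.mul_apply, Fin.sum_univ_three]
  have hc : ∀ i : Fin 3, Q i 0 • x + Q i 1 • y + Q i 2 • z =
      ((1 : Matrix (Fin 3) (Fin 3) ℤ) i 0) • u + ((1 : Matrix (Fin 3) (Fin 3) ℤ) i 1) • v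
        + ((1 : Matrix (Fin 3) (Fin 3) ℤ) i 2) • w := by
    intro i
    rw [← key i 0, ← key i 1, ← key i 2, hx, hy, hz]
    module
  have hu : u = Q 0 0 • x + Q 0 1 • y + Q 0 2 • z := by rw [hc 0]; simp
  have hv : v = Q 1 0 • x + Q 1 1 • y + Q 1 2 • z := by rw [hc 1]; simp
  have hw : w = Q 2 0 • x + Q 2 1 • y + Q 2 2 • z := by rw [hc 2]; simp
  intro m
  obtain ⟨r, s, t, hm⟩ := h m
  refine ⟨r * Q 0 0 + s * Q 1 0 + t * Q 2 0, r * Q 0 1 + s * Q 1 1 + t * Q 2 1,
    r * Q 0 2 + s * Q 1 2 + t * Q 2 2, ?_⟩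
  rw [hm]
  conv_lhs => rw [hu, hv, hw]
  module

lemma Spans.swap12 {u v w : M} (h : Spans u v w) : Spans v u w := by
  intro x; obtain ⟨r, s, t, hx⟩ := h x; exact ⟨s, r, t, by rw [hx]; module⟩

lemma Spans.swap23 {u v w : M} (h : Spans u v w) : Spans u w v := by
  intro x; obtain ⟨r, s, t, hx⟩ := h x; exact ⟨r, t, s, by rw [hx]; module⟩

lemma Spans.addv {u v w : M} (h : Spans u v w) (k : ℤ) : Spans u (v + k • u) w := by
  intro x; obtain ⟨r, s, t, hx⟩ := h x; exact ⟨r - s * k, s, t, by rw [hx]; module⟩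

lemma Spans.addw {u v w : M} (h : Spans u v w) (k l : ℤ) : Spans u v (w + k • u + l • v) := by
  intro x; obtain ⟨r, s, t, hx⟩ := h x; exact ⟨r - t * k, s - t * l, t, by rw [hx]; module⟩

lemma Spans.neg1 {u v w : M} (h : Spans u v w) : Spans (-u) v w := by
  intro x; obtain ⟨r, s, t, hx⟩ := h x; exact ⟨-r, s, t, by rw [hx]; module⟩

lemma Spans.neg2 {u v w : M} (h : Spans u v w) : Spans u (-v) w := by
  intro x; obtain ⟨r, s, t, hx⟩ := h x; exact ⟨r, -s, t, by rw [hx]; module⟩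

lemma Spans.neg3 {u v w : M} (h : Spans u v w) : Spans u v (-w) := by
  intro x; obtain ⟨r, s, t, hx⟩ := h x; exact ⟨r, s, -t, by rw [hx]; module⟩

lemma exists_argmin {α : Type*} (S : Set α) (hS : S.Nonempty) (f : α → ℕ) :
    ∃ x ∈ S, ∀ y ∈ S, f x ≤ f y := by
  classical
  have h : ∃ n, ∃ x ∈ S, f x = n := ⟨_, hS.some, hS.some_mem, rfl⟩
  obtain ⟨x, hx, hfx⟩ := Nat.find_spec h
  exact ⟨x, hx, fun y hy => hfx ▸ Nat.find_min' h ⟨y, hy, rfl⟩⟩

namespace IsGross

variable {p : ℕ} {β : M →ₗ[ℤ] M →ₗ[ℤ] ℤ}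

lemma nonneg (hβ : IsGross p β) (x : M) : 0 ≤ β x x := by
  by_cases hx : x = 0
  · simp [hx]
  · exact (hβ.pos x hx).le

lemma gdet_spans (hβ : IsGross p β) (hp : 0 < p) {u v w : M} (h : Spans u v w) :
    gdet β u v w = 4 * p ^ 2 := by
  obtain ⟨u0, v0, w0, h0, hD⟩ := hβ.basis
  obtain ⟨P, h1, h2, h3⟩ := h0.mat u v w
  obtain ⟨R, h4, h5, h6⟩ := h.mat u0 v0 w0
  have e1 := gdet_transform β hβ.symm u0 v0 w0 P
  rw [← h1, ← h2, ← h3] at e1
  have e2 := gdet_transform β hβ.symm u v w R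
  rw [← h4, ← h5, ← h6] at e2
  have hpos : (0 : ℤ) < 4 * (p : ℤ) ^ 2 := by positivity
  have e3 : P.det ^ 2 * R.det ^ 2 = 1 := by
    have : (P.det ^ 2 * R.det ^ 2) * gdet β u0 v0 w0 = 1 * gdet β u0 v0 w0 := by
      rw [one_mul]; conv_rhs => rw [e2, e1]
      ring
    rw [hD] at this
    exact mul_right_cancel₀ hpos.ne' this
  have e4 : P.det ^ 2 = 1 := by
    have h7 : 0 ≤ P.det ^ 2 := sq_nonneg _
    have h8 : IsUnit (P.det ^ 2) := IsUnit.of_mul_eq_one _ e3
    rcases Int.isUnit_iff.mp h8 with h9 | h9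
    · exact h9
    · omega
  rw [e1, e4, hD, one_mul]

lemma cauchy (hβ : IsGross p β) (x y : M) : β x y ^ 2 ≤ β x x * β y y := by
  by_cases hx : x = 0
  · simp [hx]
  · have h1 := hβ.pos x hx
    have h2 := hβ.nonneg ((β x x) • y - (β x y) • x)
    have h3 : β ((β x x) • y - (β x y) • x) ((β x x) • y - (β x y) • x)
        = β x x * (β x x * β y y - β x y ^ 2) := by
      simp only [map_sub, map_smul, LinearMap.sub_apply, LinearMap.smul_apply, smul_eq_mul]
      rw [hβ.symm y x]; ring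
    rw [h3] at h2
    have := nonneg_of_mul_nonneg_right h2 h1
    linarith

end IsGross

/-- the inequality for Minkowski reduced ternary forms, positive case -/
lemma red_pos {a b c F G H : ℤ} (ha : 0 < a) (hab : a ≤ b) (hbc : b ≤ c)
    (hF : 0 ≤ F) (hG : 0 ≤ G) (hH : 0 ≤ H) (hFb : F ≤ b) (hGa : G ≤ a) (hHa : H ≤ a) :
    0 ≤ 2 * a * b * c + F * G * H - a * F ^ 2 - b * G ^ 2 - c * H ^ 2 := by
  have e : 2 * a * b * c + F * G * H - a * F ^ 2 - b * G ^ 2 - c * H ^ 2
      = a * (F * (b - F)) + b * (G * (a - G)) + c * (H * (a - H)) + (a * b - F * H) * (a - G)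
        + a * ((b - H) * (b - F)) + a * (b * (c - b) + c * (b - a) + (c - b) * (a - H)) := by ring
  rw [e]
  have hb : 0 < b := by linarith
  have hc : 0 < c := by linarith
  have h1 : 0 ≤ a * b - F * H := by nlinarith
  have x1 := sub_nonneg.mpr hFb
  have x2 := sub_nonneg.mpr hGa
  have x3 := sub_nonneg.mpr hHa
  have x4 := sub_nonneg.mpr hab
  have x5 := sub_nonneg.mpr hbc
  have x6 : 0 ≤ b - H := by linarith
  positivity

/-- the inequality for Minkowski reduced ternary forms, negative case -/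
lemma red_neg {a b c F G H : ℤ} (ha : 0 < a) (hab : a ≤ b) (hbc : b ≤ c)
    (hF : 0 ≤ F) (hG : 0 ≤ G) (hH : 0 ≤ H) (hFb : F ≤ b) (hGa : G ≤ a) (hHa : H ≤ a)
    (hS : F + G + H ≤ a + b) :
    0 ≤ 2 * a * b * c - F * G * H - a * F ^ 2 - b * G ^ 2 - c * H ^ 2 := by
  have hb : 0 < b := by linarith
  have hc : 0 < c := by linarith
  have x1 := sub_nonneg.mpr hFb
  have x2 := sub_nonneg.mpr hGa
  have x3 := sub_nonneg.mpr hHa
  have x4 := sub_nonneg.mpr hab
  have x5 := sub_nonneg.mpr hbc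
  have x6 : 0 ≤ b - H := by linarith
  rcases le_total (G + H) a with h | h
  · have x7 : 0 ≤ a - G - H := by linarith
    have e : 2 * a * b * c - F * G * H - a * F ^ 2 - b * G ^ 2 - c * H ^ 2
        = (b - F) * (G * H) + a * ((b - F) * (b + F)) + b * (G * (a - G - H)) + c * (H * (a - H))
          + a * b * (c - b) + a * ((c - b) * G + c * (b - a) + c * (a - G - H)) := by ring
    rw [e]; positivity
  · have x7 : 0 ≤ G + H - a := by linarith
    have x8 : 0 ≤ a + b - G - H - F := by linarith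
    have x9 : 0 ≤ a + b - G - H + F := by linarith
    have e : 2 * a * b * c - F * G * H - a * F ^ 2 - b * G ^ 2 - c * H ^ 2
        = (a + b - G - H - F) * (G * H) + a * ((a + b - G - H - F) * (a + b - G - H + F))
          + a * (b * (c - b) + c * (b - a)) + b * ((a - G) * (G + H - a))
          + (G + H - a) * ((a - G) * (a - H)) + (a - H) * (c * H + a * (c - b)) := by ring
    rw [e]; positivity

lemma red_ineq {a b c f g h : ℤ} (ha : 0 < a) (hab : a ≤ b) (hbc : b ≤ c)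
    (hf : |2 * f| ≤ b) (hg : |2 * g| ≤ a) (hh : |2 * h| ≤ a)
    (h1 : 0 ≤ a + b + 2 * f + 2 * g + 2 * h) (h2 : 0 ≤ a + b + 2 * f - 2 * g - 2 * h)
    (h3 : 0 ≤ a + b - 2 * f + 2 * g - 2 * h) (h4 : 0 ≤ a + b - 2 * f - 2 * g + 2 * h) :
    a * b * c ≤ 2 * (a * b * c + 2 * f * g * h - a * f ^ 2 - b * g ^ 2 - c * h ^ 2) := by
  rw [abs_le] at hf hg hh
  have tp := fun (F G H : ℤ) (p1 : 0 ≤ F) (p2 : 0 ≤ G) (p3 : 0 ≤ H) (p4 : F ≤ b) (p5 : G ≤ a)
    (p6 : H ≤ a) => red_pos (F := F) (G := G) (H := H) ha hab hbc p1 p2 p3 p4 p5 p6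
  have tn := fun (F G H : ℤ) (p1 : 0 ≤ F) (p2 : 0 ≤ G) (p3 : 0 ≤ H) (p4 : F ≤ b) (p5 : G ≤ a)
    (p6 : H ≤ a) (p7 : F + G + H ≤ a + b) =>
    red_neg (F := F) (G := G) (H := H) ha hab hbc p1 p2 p3 p4 p5 p6 p7
  rcases le_total 0 f with sf | sf <;> rcases le_total 0 g with sg | sg <;>
    rcases le_total 0 h with sh | sh
  · have := tp (2 * f) (2 * g) (2 * h) (by linarith) (by linarith) (by linarith) (by linarith)
      (by linarith) (by linarith)
    nlinarith
  · have := tn (2 * f) (2 * g) (-(2 * h)) (by linarith) (by linarith) (by linarith) (by linarith)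
      (by linarith) (by linarith) (by linarith)
    nlinarith
  · have := tn (2 * f) (-(2 * g)) (2 * h) (by linarith) (by linarith) (by linarith) (by linarith)
      (by linarith) (by linarith) (by linarith)
    nlinarith
  · have := tp (2 * f) (-(2 * g)) (-(2 * h)) (by linarith) (by linarith) (by linarith) (by linarith)
      (by linarith) (by linarith)
    nlinarith
  · have := tn (-(2 * f)) (2 * g) (2 * h) (by linarith) (by linarith) (by linarith) (by linarith)
      (by linarith) (by linarith) (by linarith)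
    nlinarith
  · have := tp (-(2 * f)) (2 * g) (-(2 * h)) (by linarith) (by linarith) (by linarith) (by linarith)
      (by linarith) (by linarith)
    nlinarith
  · have := tp (-(2 * f)) (-(2 * g)) (2 * h) (by linarith) (by linarith) (by linarith) (by linarith)
      (by linarith) (by linarith)
    nlinarith
  · have := tn (-(2 * f)) (-(2 * g)) (-(2 * h)) (by linarith) (by linarith) (by linarith)
      (by linarith) (by linarith) (by linarith) (by linarith)
    nlinarith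

end Pool.Agent.H419R3
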