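import Pool.Agent.H419R3.GLat

set_option autoImplicit false

namespace Pool.Agent.H419R3

variable {M : Type*} [AddCommGroup M] {M' : Type*} [AddCommGroup M']

/-- Minkowski reduced generating triple -/
structure Reduced (β : M →ₗ[ℤ] M →ₗ[ℤ] ℤ) (u v w : M) : Prop where
  spans : Spans u v w
  ab : β u u ≤ β v v
  bc : β v v ≤ β w w
  h : |2 * β u v| ≤ β u u
  g : |2 * β u w| ≤ β u u
  f : |2 * β v w| ≤ β v v
  s1 : 0 ≤ β u u + β v v + 2 * β v w + 2 * β u w + 2 * β u v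
  s2 : 0 ≤ β u u + β v v + 2 * β v w - 2 * β u w - 2 * β u v
  s3 : 0 ≤ β u u + β v v - 2 * β v w + 2 * β u w - 2 * β u v
  s4 : 0 ≤ β u u + β v v - 2 * β v w - 2 * β u w + 2 * β u v

/-- equality of Gram matrices -/
def GramEq (β : M →ₗ[ℤ] M →ₗ[ℤ] ℤ) (β' : M' →ₗ[ℤ] M' →ₗ[ℤ] ℤ) (u v w : M) (x y z : M') : Prop :=
  β' x x = β u u ∧ β' y y = β v v ∧ β' z z = β w w ∧ β' y z = β v w ∧ β' x z = β u w ∧
    β' x y = β u v

lemma sq_eq_of_cong {p : ℕ} (hp : p.Prime) (hp2 : p ≠ 2) {c d : ℤ}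
    (h : (4 * p : ℤ) ∣ c ^ 2 - d ^ 2) (hb : |c| + |d| < 2 * p) : c ^ 2 = d ^ 2 := by
  have hpz : Prime (p : ℤ) := Nat.prime_iff_prime_int.mp hp
  have hfac : c ^ 2 - d ^ 2 = (c - d) * (c + d) := by ring
  have h4 : (4 : ℤ) ∣ (c - d) * (c + d) := hfac ▸ (Dvd.intro _ rfl : (4 : ℤ) ∣ 4 * p).trans h
  have hpd : (p : ℤ) ∣ (c - d) * (c + d) := hfac ▸ (Dvd.intro_left _ rfl : (p : ℤ) ∣ 4 * p).trans h
  have hodd : ¬ (2 : ℤ) ∣ p := by
    intro h2
    have : (2 : ℕ) ∣ p := by exact_mod_cast h2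
    exact hp2 ((Nat.prime_dvd_prime_iff_eq Nat.prime_two hp).mp this).symm
  have hpar : (2 : ℤ) ∣ c - d ∧ (2 : ℤ) ∣ c + d := by
    have h2 : (2 : ℤ) ∣ (c - d) * (c + d) := (by norm_num : (2 : ℤ) ∣ 4).trans h4
    rcases Int.prime_two.dvd_or_dvd h2 with h3 | h3
    · exact ⟨h3, by omega⟩
    · exact ⟨by omega, h3⟩
  have hcop : IsCoprime (2 : ℤ) (p : ℤ) := by
    rw [Int.prime_two.coprime_iff_not_dvd]; exact hodd
  have hc1 := le_abs_self c
  have hc2 := neg_abs_le c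
  have hd1 := le_abs_self d
  have hd2 := neg_abs_le d
  have small : ∀ x : ℤ, (2 : ℤ) ∣ x → (p : ℤ) ∣ x → |x| < 2 * p → x = 0 := by
    intro x h2 h3 h4
    have h5 : (2 * p : ℤ) ∣ x := hcop.mul_dvd h2 h3
    exact Int.eq_zero_of_abs_lt_dvd h5 h4
  rcases hpz.dvd_or_dvd hpd with h3 | h3
  · have : c - d = 0 := small _ hpar.1 h3 (by rw [abs_lt]; constructor <;> linarith)
    have : c = d := by linarith
    rw [this]
  · have : c + d = 0 := small _ hpar.2 h3 (by rw [abs_lt]; constructor <;> linarith)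
    have : c = -d := by linarith
    rw [this]; ring

lemma abs_add_lt {p : ℕ} (hp : 0 < p) {X c d : ℤ} (hX : 7 * X ≤ 8 * (p : ℤ) ^ 2)
    (hc : 4 * c ^ 2 ≤ X) (hd : d ^ 2 ≤ X) : |c| + |d| < 2 * p := by
  have h1 : 10 * |c| ≤ 6 * p := by
    apply abs_le_of_sq_le_sq' _ (by positivity) |>.2
    rw [mul_pow, mul_pow, sq_abs]; nlinarith
  have h2 : 10 * |d| ≤ 11 * p := by
    apply abs_le_of_sq_le_sq' _ (by positivity) |>.2
    rw [mul_pow, mul_pow, sq_abs]; nlinarith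
  have : (0 : ℤ) < p := by exact_mod_cast hp
  linarith

lemma sign_fix {f g h f' g' h' : ℤ} (hf : f' ^ 2 = f ^ 2) (hg : g' ^ 2 = g ^ 2)
    (hh : h' ^ 2 = h ^ 2) (hprod : f' * g' * h' = f * g * h) :
    ∃ s1 s2 s3 : ℤ, (s1 = 1 ∨ s1 = -1) ∧ (s2 = 1 ∨ s2 = -1) ∧ (s3 = 1 ∨ s3 = -1) ∧
      s2 * s3 * f' = f ∧ s1 * s3 * g' = g ∧ s1 * s2 * h' = h := by
  rcases sq_eq_sq_iff_eq_or_eq_neg.mp hf with rfl | rfl <;>
  rcases sq_eq_sq_iff_eq_or_eq_neg.mp hg with rfl | rfl <;>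
  rcases sq_eq_sq_iff_eq_or_eq_neg.mp hh with rfl | rfl
  · exact ⟨1, 1, 1, by simp⟩
  · have h0 : f' * g' * h = 0 := by linarith
    rcases mul_eq_zero.mp h0 with h1 | h1
    · rcases mul_eq_zero.mp h1 with h2 | h2
      · exact ⟨1, -1, 1, by simp [h2]⟩
      · exact ⟨-1, 1, 1, by simp [h2]⟩
    · exact ⟨1, 1, 1, by simp [h1]⟩
  · have h0 : f' * g * h' = 0 := by linarith
    rcases mul_eq_zero.mp h0 with h1 | h1
    · rcases mul_eq_zero.mp h1 with h2 | h2
      · exact ⟨1, 1, -1, by simp [h2]⟩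
      · exact ⟨1, 1, 1, by simp [h2]⟩
    · exact ⟨-1, 1, 1, by simp [h1]⟩
  · exact ⟨-1, 1, 1, by simp⟩
  · have h0 : f * g' * h' = 0 := by linarith
    rcases mul_eq_zero.mp h0 with h1 | h1
    · rcases mul_eq_zero.mp h1 with h2 | h2
      · exact ⟨1, 1, 1, by simp [h2]⟩
      · exact ⟨1, 1, -1, by simp [h2]⟩
    · exact ⟨1, -1, 1, by simp [h1]⟩
  · exact ⟨1, -1, 1, by simp⟩
  · exact ⟨1, 1, -1, by simp⟩
  · have h0 : f * g * h = 0 := by linarith
    rcases mul_eq_zero.mp h0 with h1 | h1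
    · rcases mul_eq_zero.mp h1 with h2 | h2
      · exact ⟨-1, 1, 1, by simp [h2]⟩
      · exact ⟨1, -1, 1, by simp [h2]⟩
    · exact ⟨1, 1, -1, by simp [h1]⟩

lemma int_sq_le_two {d : ℤ} (h : d ^ 2 ≤ 2) : d = 0 ∨ d ^ 2 = 1 := by
  have h1 : d ≤ 1 := by nlinarith
  have h2 : -1 ≤ d := by nlinarith
  have : d = -1 ∨ d = 0 ∨ d = 1 := by omega
  rcases this with h | h | h
  · right; rw [h]; norm_num
  · left; exact h
  · right; rw [h]; norm_num

lemma no_cube {p : ℕ} (hp : p.Prime) {a : ℤ} (h : a ^ 3 = 8 * (p : ℤ) ^ 2) : False := by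
  have h2 : (2 : ℤ) ∣ a := by
    apply Int.prime_two.dvd_of_dvd_pow (n := 3)
    rw [h]; exact ⟨4 * (p : ℤ) ^ 2, by ring⟩
  obtain ⟨m, rfl⟩ := h2
  have hm : m ^ 3 = (p : ℤ) ^ 2 := by nlinarith
  have hpz : Prime (p : ℤ) := Nat.prime_iff_prime_int.mp hp
  have h3 : (p : ℤ) ∣ m := by
    apply hpz.dvd_of_dvd_pow (n := 3)
    rw [hm]; exact ⟨(p : ℤ), by ring⟩
  obtain ⟨k, rfl⟩ := h3
  have hp0 : (p : ℤ) ≠ 0 := hpz.ne_zero
  have h4 : (p : ℤ) * k ^ 3 = 1 := by
    have : (p : ℤ) ^ 2 * ((p : ℤ) * k ^ 3) = (p : ℤ) ^ 2 * 1 := by linarith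
    exact mul_left_cancel₀ (pow_ne_zero 2 hp0) this
  exact hpz.not_isUnit (IsUnit.of_mul_eq_one _ h4)

lemma spans_signs {u v w : M} (h : Spans u v w) {s1 s2 s3 : ℤ} (h1 : s1 = 1 ∨ s1 = -1)
    (h2 : s2 = 1 ∨ s2 = -1) (h3 : s3 = 1 ∨ s3 = -1) : Spans (s1 • u) (s2 • v) (s3 • w) := by
  intro x
  obtain ⟨r, s, t, hx⟩ := h x
  refine ⟨r * s1, s * s2, t * s3, ?_⟩
  have e1 : s1 * s1 = 1 := by rcases h1 with rfl | rfl <;> norm_num
  have e2 : s2 * s2 = 1 := by rcases h2 with rfl | rfl <;> norm_num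
  have e3 : s3 * s3 = 1 := by rcases h3 with rfl | rfl <;> norm_num
  rw [smul_smul, smul_smul, smul_smul, mul_assoc, mul_assoc, mul_assoc, e1, e2, e3, mul_one,
    mul_one, mul_one, hx]

namespace IsGross

variable {p : ℕ} {β : M →ₗ[ℤ] M →ₗ[ℤ] ℤ} {β' : M' →ₗ[ℤ] M' →ₗ[ℤ] ℤ}

lemma exists_lexmin (hβ : IsGross p β) : ∃ u v w : M, Spans u v w ∧
    ∀ u' v' w' : M, Spans u' v' w' → β u u ≤ β u' u' ∧ (β u' u' = β u u → β v v ≤ β v' v' ∧
      (β v' v' = β v v → β w w ≤ β w' w')) := by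
  obtain ⟨u0, v0, w0, h0, -⟩ := hβ.basis
  let S : Set (M × M × M) := {T | Spans T.1 T.2.1 T.2.2}
  obtain ⟨T1, hT1, hm1⟩ := exists_argmin S ⟨(u0, v0, w0), h0⟩ (fun T => (β T.1 T.1).toNat)
  let S1 : Set (M × M × M) := {T | T ∈ S ∧ β T.1 T.1 = β T1.1 T1.1}
  obtain ⟨T2, hT2, hm2⟩ := exists_argmin S1 ⟨T1, hT1, rfl⟩ (fun T => (β T.2.1 T.2.1).toNat)
  let S2 : Set (M × M × M) := {T | T ∈ S1 ∧ β T.2.1 T.2.1 = β T2.2.1 T2.2.1}
  obtain ⟨T3, hT3, hm3⟩ := exists_argmin S2 ⟨T2, hT2, rfl⟩ (fun T => (β T.2.2 T.2.2).toNat)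
  have hnn := hβ.nonneg
  have e1 : β T3.1 T3.1 = β T1.1 T1.1 := hT3.1.2
  have e2 : β T3.2.1 T3.2.1 = β T2.2.1 T2.2.1 := hT3.2
  refine ⟨T3.1, T3.2.1, T3.2.2, hT3.1.1, ?_⟩
  intro u' v' w' h'
  refine ⟨?_, fun hu => ⟨?_, fun hv => ?_⟩⟩
  · have := hm1 (u', v', w') h'
    have h1 := hnn T1.1
    have h2 := hnn u'
    rw [e1]
    simp only at this
    omega
  · have := hm2 (u', v', w') ⟨h', hu.trans e1⟩
    have h1 := hnn T2.2.1
    have h2 := hnn v'
    rw [e2]
    simp only at this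
    omega
  · have := hm3 (u', v', w') ⟨⟨h', hu.trans e1⟩, hv.trans e2⟩
    have h1 := hnn T3.2.2
    have h2 := hnn w'
    simp only at this
    omega

lemma exists_reduced (hβ : IsGross p β) : ∃ u v w : M, Reduced β u v w := by
  obtain ⟨u, v, w, hs, hmin⟩ := hβ.exists_lexmin
  have hv : ∀ k : ℤ, 0 ≤ 2 * k * β u v + k ^ 2 * β u u := by
    intro k
    have := ((hmin u (v + k • u) w (hs.addv k)).2 rfl).1
    simp only [map_add, map_smul, LinearMap.add_apply, LinearMap.smul_apply, smul_eq_mul] at this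
    rw [hβ.symm v u] at this
    linarith
  have hw : ∀ k l : ℤ, 0 ≤ 2 * k * β u w + 2 * l * β v w + k ^ 2 * β u u + l ^ 2 * β v v
      + 2 * k * l * β u v := by
    intro k l
    have := (((hmin u v (w + k • u + l • v) (hs.addw k l)).2 rfl).2 rfl)
    simp only [map_add, map_smul, LinearMap.add_apply, LinearMap.smul_apply, smul_eq_mul] at this
    rw [hβ.symm v u, hβ.symm w u, hβ.symm w v] at this
    linarith
  have v1 := hv 1
  have v2 := hv (-1)
  have w1 := hw 1 0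
  have w2 := hw (-1) 0
  have w3 := hw 0 1
  have w4 := hw 0 (-1)
  have w5 := hw 1 1
  have w6 := hw (-1) (-1)
  have w7 := hw 1 (-1)
  have w8 := hw (-1) 1
  refine ⟨u, v, w, hs, (hmin v u w hs.swap12).1, ((hmin u w v hs.swap23).2 rfl).1,
    ?_, ?_, ?_, ?_, ?_, ?_, ?_⟩
  · rw [abs_le]; constructor <;> linarith
  · rw [abs_le]; constructor <;> linarith
  · rw [abs_le]; constructor <;> linarith
  · linarith
  · linarith
  · linarith
  · linarith

lemma prim_of_spans (hβ : IsGross p β) (hp : 0 < p) {u v w : M} (h : Spans u v w) : Prim u := by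
  intro k y hk
  obtain ⟨P, h1, h2, h3⟩ := h.mat y v w
  have e1 := gdet_transform β hβ.symm u v w P
  rw [← h1, ← h2, ← h3] at e1
  have e0 := hβ.gdet_spans hp h
  have e2 : gdet β u v w = k ^ 2 * gdet β y v w := by
    rw [hk]
    simp only [gdet, map_smul, LinearMap.smul_apply, smul_eq_mul]
    ring
  rw [e1, e0] at e2
  have hpos : (0 : ℤ) < 4 * (p : ℤ) ^ 2 := by positivity
  have e3 : k * (k * P.det ^ 2) = 1 := by
    have : (k * (k * P.det ^ 2)) * (4 * (p : ℤ) ^ 2) = 1 * (4 * (p : ℤ) ^ 2) := by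
      linear_combination -e2
    exact mul_right_cancel₀ hpos.ne' this
  exact IsUnit.of_mul_eq_one _ e3

lemma prod_le (hβ : IsGross p β) (hp : 0 < p) {u v w : M} (hr : Reduced β u v w)
    (hu : 0 < β u u) : β u u * β v v * β w w ≤ 8 * (p : ℤ) ^ 2 := by
  have h1 := red_ineq hu hr.ab hr.bc hr.f hr.g hr.h hr.s1 hr.s2 hr.s3 hr.s4
  have h2 := hβ.gdet_spans hp hr.spans
  unfold gdet at h2
  linarith

lemma pos_of_spans (hβ : IsGross p β) (hp : 0 < p) {u v w : M} (h : Spans u v w) : 0 < β u u := by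
  apply hβ.pos
  intro hu
  have := hβ.gdet_spans hp h
  rw [hu] at this
  simp [gdet] at this
  omega

lemma last_le (hβ : IsGross p β) (hp : 0 < p) {u v w : M} (hr : Reduced β u v w) :
    β w w ≤ 2 * p := by
  have hu := hβ.pos_of_spans hp hr.spans
  have h1 := hβ.prod_le hp hr hu
  obtain ⟨k, hk⟩ := hβ.minor u v
  have hh := hr.h
  rw [abs_le] at hh
  have hab := hr.ab
  have h2 : 4 * β u v ^ 2 ≤ β u u * β v v := by nlinarith
  have h3 : 0 < β u u * β v v - β u v ^ 2 := by nlinarith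
  have hp' : (0 : ℤ) < p := by exact_mod_cast hp
  have hk0 : 0 < k := by
    rw [hk] at h3
    by_contra hc
    have hc' : k ≤ 0 := not_lt.mp hc
    nlinarith
  have h4 : (4 * p : ℤ) ≤ β u u * β v v := by nlinarith [sq_nonneg (β u v)]
  have hw : 0 ≤ β w w := hβ.nonneg w
  by_contra hcon
  have hcon' := not_le.mp hcon
  nlinarith

set_option maxHeartbeats 1000000 in
/-- case of a large first minimum -/
theorem case_big (hp : p.Prime) (hp2 : p ≠ 2) (hβ : IsGross p β) (hβ' : IsGross p β') {u v w : M}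
    (hr : Reduced β u v w) (ha : 7 ≤ β u u) {u' v' w' : M'} (hu : β' u' u' = β u u)
    (hv : β' v' v' = β v v) (hw : β' w' w' = β w w) :
    ∃ x y z : M', Spans x y z ∧ GramEq β β' u v w x y z := by
  have hp0 := hp.pos
  have hpz : (0 : ℤ) < p := by exact_mod_cast hp0
  have hD := hβ.gdet_spans hp0 hr.spans
  have hprod := hβ.prod_le hp0 hr (by linarith)
  have hf := hr.f
  have hg := hr.g
  have hh := hr.h
  have hab := hr.ab
  have hbc := hr.bc
  rw [abs_le] at hf hg hh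
  set a := β u u
  set b := β v v
  set c := β w w
  have hbc7 : 7 * (b * c) ≤ 8 * (p : ℤ) ^ 2 := by
    have : 0 ≤ (a - 7) * (b * c) := mul_nonneg (by linarith) (mul_nonneg (by linarith) (by linarith))
    nlinarith
  -- squares agree
  have sqf : β' v' w' ^ 2 = β v w ^ 2 := by
    have h1 := hβ.minor v w
    have h2 := hβ'.minor v' w'
    rw [hv, hw] at h2
    have h3 : (4 * p : ℤ) ∣ β' v' w' ^ 2 - β v w ^ 2 := by
      have := dvd_sub h1 h2
      have e : (b * c - β v w ^ 2 - (b * c - β' v' w' ^ 2)) = β' v' w' ^ 2 - β v w ^ 2 := by ring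
      rwa [e] at this
    refine sq_eq_of_cong hp hp2 h3 ?_
    rw [add_comm]
    have h4 := hβ'.cauchy v' w'
    rw [hv, hw] at h4
    exact abs_add_lt hp0 hbc7 (by nlinarith) h4
  have sqg : β' u' w' ^ 2 = β u w ^ 2 := by
    have h1 := hβ.minor u w
    have h2 := hβ'.minor u' w'
    rw [hu, hw] at h2
    have h3 : (4 * p : ℤ) ∣ β' u' w' ^ 2 - β u w ^ 2 := by
      have := dvd_sub h1 h2
      have e : (a * c - β u w ^ 2 - (a * c - β' u' w' ^ 2)) = β' u' w' ^ 2 - β u w ^ 2 := by ring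
      rwa [e] at this
    refine sq_eq_of_cong hp hp2 h3 ?_
    rw [add_comm]
    have h4 := hβ'.cauchy u' w'
    rw [hu, hw] at h4
    exact abs_add_lt hp0 hbc7 (by nlinarith) (by nlinarith)
  have sqh : β' u' v' ^ 2 = β u v ^ 2 := by
    have h1 := hβ.minor u v
    have h2 := hβ'.minor u' v'
    rw [hu, hv] at h2
    have h3 : (4 * p : ℤ) ∣ β' u' v' ^ 2 - β u v ^ 2 := by
      have := dvd_sub h1 h2
      have e : (a * b - β u v ^ 2 - (a * b - β' u' v' ^ 2)) = β' u' v' ^ 2 - β u v ^ 2 := by ring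
      rwa [e] at this
    refine sq_eq_of_cong hp hp2 h3 ?_
    rw [add_comm]
    have h4 := hβ'.cauchy u' v'
    rw [hu, hv] at h4
    exact abs_add_lt hp0 hbc7 (by nlinarith) (by nlinarith)
  obtain ⟨u0, v0, w0, h0, hD0⟩ := hβ'.basis
  obtain ⟨P, e1, e2, e3⟩ := h0.mat u' v' w'
  have e4 := gdet_transform β' hβ'.symm u0 v0 w0 P
  rw [← e1, ← e2, ← e3, hD0] at e4
  -- the product of off-diagonal entries
  have hfinish : β' v' w' * β' u' w' * β' u' v' = β v w * β u w * β u v →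
      ∃ x y z : M', Spans x y z ∧ GramEq β β' u v w x y z := by
    intro hpr
    have e5 : gdet β' u' v' w' = gdet β u v w := by
      unfold gdet
      rw [hu, hv, hw, sqf, sqg, sqh]
      linear_combination 2 * hpr
    rw [e5, hD] at e4
    have e6 : P.det ^ 2 = 1 := by
      have : P.det ^ 2 * (4 * (p : ℤ) ^ 2) = 1 * (4 * (p : ℤ) ^ 2) := by linarith
      exact mul_right_cancel₀ (by positivity) this
    have hsp : Spans u' v' w' := spans_of_det h0 P e1 e2 e3 e6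
    obtain ⟨s1, s2, s3, t1, t2, t3, q1, q2, q3⟩ := sign_fix sqf sqg sqh hpr
    refine ⟨s1 • u', s2 • v', s3 • w', spans_signs hsp t1 t2 t3, ?_⟩
    have r1 : s1 * s1 = 1 := by rcases t1 with rfl | rfl <;> norm_num
    have r2 : s2 * s2 = 1 := by rcases t2 with rfl | rfl <;> norm_num
    have r3 : s3 * s3 = 1 := by rcases t3 with rfl | rfl <;> norm_num
    refine ⟨?_, ?_, ?_, ?_, ?_, ?_⟩ <;>
      simp only [map_smul, LinearMap.smul_apply, smul_eq_mul]
    · rw [← mul_assoc, r1, one_mul, hu]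
    · rw [← mul_assoc, r2, one_mul, hv]
    · rw [← mul_assoc, r3, one_mul, hw]
    · rw [← q1]; ring
    · rw [← q2]; ring
    · rw [← q3]; ring
  have hsqprod : (β' v' w' * β' u' w' * β' u' v') ^ 2 = (β v w * β u w * β u v) ^ 2 := by
    rw [mul_pow, mul_pow, mul_pow, mul_pow, sqf, sqg, sqh]
  rcases sq_eq_sq_iff_eq_or_eq_neg.mp hsqprod with hpr | hpr
  · exact hfinish hpr
  · -- opposite sign
    have e5 : gdet β' u' v' w' = gdet β u v w - 4 * (β v w * β u w * β u v) := by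
      unfold gdet
      rw [hu, hv, hw, sqf, sqg, sqh]
      linear_combination 2 * hpr
    rw [e5, hD] at e4
    have e6 : (p : ℤ) ^ 2 * P.det ^ 2 = (p : ℤ) ^ 2 - β v w * β u w * β u v := by linarith
    -- bound on the product
    have hF : |2 * β v w| ≤ b := hr.f
    have hG : |2 * β u w| ≤ a := hr.g
    have hH : |2 * β u v| ≤ a := hr.h
    have hb8 : 8 * |β v w * β u w * β u v| ≤ b * a * a := by
      have : 8 * |β v w * β u w * β u v| = |2 * β v w| * |2 * β u w| * |2 * β u v| := by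
        rw [abs_mul, abs_mul, abs_mul, abs_mul, abs_mul]; norm_num; ring
      rw [this]
      exact mul_le_mul (mul_le_mul hF hG (abs_nonneg _) (by linarith)) hH (abs_nonneg _)
        (mul_nonneg (by linarith) (by linarith))
    have hbaa : b * a * a ≤ a * b * c := by
      have : 0 ≤ a * b * (c - a) := mul_nonneg (mul_nonneg (by linarith) (by linarith)) (by linarith)
      have e : a * b * (c - a) = a * b * c - b * a * a := by ring
      linarith
    have hle : |β v w * β u w * β u v| ≤ (p : ℤ) ^ 2 := by linarith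
    rw [abs_le] at hle
    set d := P.det with hd
    have hd1 : d ^ 2 ≤ 2 := by
      have : (p : ℤ) ^ 2 * d ^ 2 ≤ (p : ℤ) ^ 2 * 2 := by linarith
      exact le_of_mul_le_mul_left this (by positivity)
    have hd2 : d = 0 ∨ d ^ 2 = 1 := int_sq_le_two hd1
    rcases hd2 with h | h
    · -- degenerate: impossible
      exfalso
      rw [h] at e6
      have e7 : β v w * β u w * β u v = (p : ℤ) ^ 2 := by linarith
      have e8 : |β v w * β u w * β u v| = (p : ℤ) ^ 2 := by rw [e7]; exact abs_of_nonneg (by positivity)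
      rw [e8] at hb8
      have e9 : b * a * a = a * b * c := by linarith
      have hac : a = c := by
        have : (a * b) * a = (a * b) * c := by linarith
        exact mul_left_cancel₀ (mul_ne_zero (by linarith) (by linarith)) this
      have hba : b = a := by linarith
      apply no_cube hp (a := a)
      have e10 : a * b * c = 8 * (p : ℤ) ^ 2 := by linarith
      rw [hba, ← hac] at e10
      linarith
    · rw [h] at e6
      have e7 : β v w * β u w * β u v = 0 := by linarith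
      apply hfinish
      rw [hpr, e7]; norm_num

end IsGross

end Pool.Agent.H419R3
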