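import Pool.Agent.H419R3.GTable

set_option autoImplicit false
set_option linter.unusedSimpArgs false

namespace Pool.Agent.H419R3

variable {a b : ℚ}

/-- half-discriminant of the ternary form -/
def disc (A B C u v w : ℤ) : ℤ := 4 * A * B * C + u * v * w - A * u ^ 2 - B * v ^ 2 - C * w ^ 2

/-- the order `O` has the given multiplication table in some basis -/
def HasTable (O : Subring (QuaternionAlgebra ℚ a 0 b)) (A B C u v w : ℤ) : Prop :=
  ∃ i j k, ∃ h : Table i j k A B C u v w, h.subring = O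

namespace HasTable

variable {O : Subring (QuaternionAlgebra ℚ a 0 b)} {A B C u v w : ℤ}

lemma cyc (h : HasTable O A B C u v w) : HasTable O B C A v w u := by
  obtain ⟨i, j, k, h, rfl⟩ := h
  exact ⟨j, k, i, h.cyc, h.cyc_subring⟩

lemma shift (h : HasTable O A B C u v w) (x y : ℤ) :
    HasTable O A B (A * x ^ 2 + B * y ^ 2 + C + u * y + v * x + w * x * y)
      (u + 2 * B * y + w * x) (v + 2 * A * x + w * y) w := by
  obtain ⟨i, j, k, h, rfl⟩ := h
  exact ⟨_, _, _, h.shift x y, h.shift_subring x y⟩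

lemma inv_not_int {l : ℤ} (hl : 2 ≤ l) (n : ℤ) : ((n : ℚ)) ≠ (l : ℚ)⁻¹ := by
  intro h
  have hl' : (l : ℚ) ≠ 0 := by
    have : l ≠ 0 := by omega
    exact_mod_cast this
  have h1 : (n : ℚ) * l = 1 := by rw [h, inv_mul_cancel₀ hl']
  have h2 : n * l = 1 := by exact_mod_cast h1
  have h3 : IsUnit l := IsUnit.of_mul_eq_one n (by rw [mul_comm]; exact h2)
  rw [Int.isUnit_iff] at h3
  omega

lemma no1 (hO : IsMaximalOrder O) {l C' u' v' : ℤ} (hl : 2 ≤ l)
    (h : HasTable O A B (l ^ 2 * C') (l * u') (l * v') w) : False := by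
  obtain ⟨i, j, k, h, rfl⟩ := h
  have hl0 : l ≠ 0 := by omega
  have hl' : (l : ℚ) ≠ 0 := by exact_mod_cast hl0
  have h2 := h.over1 hl0
  have hle : h.subring ≤ h2.subring := by
    rintro x ⟨n0, n1, n2, n3, rfl⟩
    refine ⟨n0, l * n1, l * n2, n3, ?_⟩
    push_cast
    rw [smul_smul, smul_smul, mul_comm (l : ℚ) n1, mul_comm (l : ℚ) n2, mul_assoc, mul_assoc,
      mul_inv_cancel₀ hl', mul_one, mul_one]
  have heq := hO.2 _ h2.isOrder hle
  have hmem : (l : ℚ)⁻¹ • i ∈ h2.subring := ⟨0, 1, 0, 0, by simp⟩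
  rw [heq] at hmem
  obtain ⟨n0, n1, n2, n3, hn⟩ := hmem
  have := (h.indep n0 (n1 - (l : ℚ)⁻¹) n2 n3 (by
    rw [sub_smul, hn]; abel)).2.1
  exact inv_not_int hl n1 (by linarith)

lemma no2 (hO : IsMaximalOrder O) {l A' C' v' : ℤ} (hl : 2 ≤ l)
    (h : HasTable O (l * A') B (l * C') u (l * v') w) : False := by
  obtain ⟨i, j, k, h, rfl⟩ := h
  have hl0 : l ≠ 0 := by omega
  have hl' : (l : ℚ) ≠ 0 := by exact_mod_cast hl0
  have h2 := h.over2 hl0
  have hle : h.subring ≤ h2.subring := by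
    rintro x ⟨n0, n1, n2, n3, rfl⟩
    refine ⟨n0, n1, l * n2, n3, ?_⟩
    push_cast
    rw [smul_smul, mul_comm (l : ℚ) n2, mul_assoc,
      mul_inv_cancel₀ hl', mul_one]
  have heq := hO.2 _ h2.isOrder hle
  have hmem : (l : ℚ)⁻¹ • j ∈ h2.subring := ⟨0, 0, 1, 0, by simp⟩
  rw [heq] at hmem
  obtain ⟨n0, n1, n2, n3, hn⟩ := hmem
  have := (h.indep n0 n1 (n2 - (l : ℚ)⁻¹) n3 (by
    rw [sub_smul, hn]; abel)).2.2.1
  exact inv_not_int hl n2 (by linarith)

end HasTable

set_option maxRecDepth 100000 in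
lemma sing_two : ∀ A B C u v w : ZMod 2,
    4 * A * B * C + u * v * w - A * u ^ 2 - B * v ^ 2 - C * w ^ 2 = 0 →
    ∃ x y z : ZMod 2, (x ≠ 0 ∨ y ≠ 0 ∨ z ≠ 0) ∧ 2 * A * x + w * y + v * z = 0 ∧
      w * x + 2 * B * y + u * z = 0 ∧ v * x + u * y + 2 * C * z = 0 ∧
      A * x ^ 2 + B * y ^ 2 + C * z ^ 2 + u * y * z + v * x * z + w * x * y = 0 := by
  decide

lemma one_two : ∀ t : ZMod 2, t ≠ 0 → t = 1 := by decide

lemma sum_two : (1 : ZMod 2) * 1 ^ 2 + 0 * 1 * 1 + 1 * 1 ^ 2 = 0 := by decide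

lemma exists_sing {l : ℕ} [Fact l.Prime] (A B C u v w : ZMod l)
    (h : 4 * A * B * C + u * v * w - A * u ^ 2 - B * v ^ 2 - C * w ^ 2 = 0) :
    ∃ x y z : ZMod l, (x ≠ 0 ∨ y ≠ 0 ∨ z ≠ 0) ∧ 2 * A * x + w * y + v * z = 0 ∧
      w * x + 2 * B * y + u * z = 0 ∧ v * x + u * y + 2 * C * z = 0 ∧
      A * x ^ 2 + B * y ^ 2 + C * z ^ 2 + u * y * z + v * x * z + w * x * y = 0 := by
  by_cases hl : l = 2
  · subst hl
    exact sing_two A B C u v w h
  · have h2 : (2 : ZMod l) ≠ 0 := by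
      intro h0
      have h3 : ((2 : ℕ) : ZMod l) = 0 := by exact_mod_cast h0
      rw [ZMod.natCast_eq_zero_iff] at h3
      exact hl ((Nat.prime_dvd_prime_iff_eq (Fact.out) Nat.prime_two).mp h3)
    have hdet : Matrix.det !![2 * A, w, v; w, 2 * B, u; v, u, 2 * C] = 0 := by
      rw [Matrix.det_fin_three]
      simp only [Matrix.of_apply, Matrix.cons_val', Matrix.cons_val_zero, Matrix.cons_val_one,
        Matrix.cons_val]
      linear_combination 2 * h
    obtain ⟨t, ht, hMt⟩ := Matrix.exists_mulVec_eq_zero_iff.mpr hdet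
    have e0 := congrFun hMt 0
    have e1 := congrFun hMt 1
    have e2 := congrFun hMt 2
    simp [Matrix.mulVec, dotProduct, Fin.sum_univ_three] at e0 e1 e2
    refine ⟨t 0, t 1, t 2, ?_, by linear_combination e0, by linear_combination e1,
      by linear_combination e2, ?_⟩
    · by_contra hc
      simp only [not_or, not_not] at hc
      apply ht
      ext m
      fin_cases m
      · exact hc.1
      · exact hc.2.1
      · exact hc.2.2
    · have : 2 * (A * t 0 ^ 2 + B * t 1 ^ 2 + C * t 2 ^ 2 + u * t 1 * t 2 + v * t 0 * t 2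
          + w * t 0 * t 1) = 0 := by
        linear_combination t 0 * e0 + t 1 * e1 + t 2 * e2
      exact (mul_eq_zero.mp this).resolve_left h2

lemma HasTable.step1z {O : Subring (QuaternionAlgebra ℚ a 0 b)} {A B C u v w : ℤ} {l : ℕ}
    [Fact l.Prime] (h : HasTable O A B C u v w) {x y z : ZMod l} (hz : z ≠ 0)
    (e1 : 2 * (A : ZMod l) * x + w * y + v * z = 0)
    (e2 : (w : ZMod l) * x + 2 * B * y + u * z = 0)
    (e4 : (A : ZMod l) * x ^ 2 + B * y ^ 2 + C * z ^ 2 + u * y * z + v * x * z + w * x * y = 0) :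
    ∃ A' B' C' u' v' w' : ℤ, HasTable O A' B' (l * C') (l * u') (l * v') w' ∧
      disc A' B' (l * C') (l * u') (l * v') w' = disc A B C u v w := by
  have : NeZero l := ⟨(Fact.out : l.Prime).pos.ne'⟩
  set X : ℤ := ((x * z⁻¹).val : ℤ) with hX
  set Y : ℤ := ((y * z⁻¹).val : ℤ) with hY
  have hXc : (X : ZMod l) = x * z⁻¹ := by rw [hX]; push_cast; exact ZMod.natCast_zmod_val _
  have hYc : (Y : ZMod l) = y * z⁻¹ := by rw [hY]; push_cast; exact ZMod.natCast_zmod_val _
  have hzz : z * z⁻¹ = 1 := mul_inv_cancel₀ hz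
  have dC : (l : ℤ) ∣ A * X ^ 2 + B * Y ^ 2 + C + u * Y + v * X + w * X * Y := by
    rw [← CharP.intCast_eq_zero_iff (ZMod l) l]
    push_cast
    rw [hXc, hYc]
    linear_combination (z⁻¹) ^ 2 * e4 - (C * (z * z⁻¹ + 1) + u * y * z⁻¹ + v * x * z⁻¹) * hzz
  have du : (l : ℤ) ∣ u + 2 * B * Y + w * X := by
    rw [← CharP.intCast_eq_zero_iff (ZMod l) l]
    push_cast
    rw [hXc, hYc]
    linear_combination z⁻¹ * e2 - u * hzz
  have dv : (l : ℤ) ∣ v + 2 * A * X + w * Y := by
    rw [← CharP.intCast_eq_zero_iff (ZMod l) l]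
    push_cast
    rw [hXc, hYc]
    linear_combination z⁻¹ * e1 - v * hzz
  obtain ⟨C', hC'⟩ := dC
  obtain ⟨u', hu'⟩ := du
  obtain ⟨v', hv'⟩ := dv
  have hs := h.shift X Y
  rw [hC', hu', hv'] at hs
  refine ⟨A, B, C', u', v', w, hs, ?_⟩
  rw [← hC', ← hu', ← hv']
  unfold disc
  ring

lemma disc_cyc (A B C u v w : ℤ) : disc B C A v w u = disc A B C u v w := by
  unfold disc; ring

lemma HasTable.step1 {O : Subring (QuaternionAlgebra ℚ a 0 b)} {A B C u v w : ℤ} {l : ℕ}
    [Fact l.Prime] (h : HasTable O A B C u v w) (hd : (l : ℤ) ∣ disc A B C u v w) :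
    ∃ A' B' C' u' v' w' : ℤ, HasTable O A' B' (l * C') (l * u') (l * v') w' ∧
      disc A' B' (l * C') (l * u') (l * v') w' = disc A B C u v w := by
  have hd' : 4 * (A : ZMod l) * B * C + u * v * w - A * u ^ 2 - B * v ^ 2 - C * w ^ 2 = 0 := by
    have := (CharP.intCast_eq_zero_iff (ZMod l) l _).mpr hd
    unfold disc at this
    push_cast at this
    exact this
  obtain ⟨x, y, z, hne, e1, e2, e3, e4⟩ := exists_sing _ _ _ _ _ _ hd'
  by_cases hz : z = 0
  · by_cases hy : y = 0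
    · have hx : x ≠ 0 := by
        rcases hne with h | h | h
        · exact h
        · exact absurd hy h
        · exact absurd hz h
      have := h.cyc.step1z (x := y) (y := z) (z := x) hx (by linear_combination e2)
        (by linear_combination e3) (by linear_combination e4)
      rw [disc_cyc] at this
      exact this
    · have := h.cyc.cyc.step1z (x := z) (y := x) (z := y) hy (by linear_combination e3)
        (by linear_combination e1) (by linear_combination e4)
      rw [disc_cyc, disc_cyc] at this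
      exact this
  · exact h.step1z hz (by linear_combination e1) (by linear_combination e2) e4

/-- In a maximal order the reduced shape is anisotropic. -/
lemma HasTable.step2 {O : Subring (QuaternionAlgebra ℚ a 0 b)} (hO : IsMaximalOrder O)
    {A B C' u' v' w : ℤ} {l : ℕ} [Fact l.Prime]
    (h : HasTable O A B (l * C') (l * u') (l * v') w) :
    (¬ (l : ℤ) ∣ C') ∧ ∀ x y : ZMod l, (A : ZMod l) * x ^ 2 + w * x * y + B * y ^ 2 = 0 →
      x = 0 ∧ y = 0 := by
  have : NeZero l := ⟨(Fact.out : l.Prime).pos.ne'⟩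
  have hl2 : (2 : ℤ) ≤ l := by exact_mod_cast (Fact.out : l.Prime).two_le
  constructor
  · rintro ⟨C'', hC''⟩
    rw [hC''] at h
    have e : (l : ℤ) * (l * C'') = (l : ℤ) ^ 2 * C'' := by ring
    rw [e] at h
    exact HasTable.no1 hO hl2 h
  · intro x y hxy
    by_contra hne
    by_cases hy : y = 0
    · have hx : x ≠ 0 := by
        intro hx; exact hne ⟨hx, hy⟩
      rw [hy] at hxy
      have hA : (A : ZMod l) = 0 := by
        have : (A : ZMod l) * x ^ 2 = 0 := by linear_combination hxy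
        exact (mul_eq_zero.mp this).resolve_right (pow_ne_zero 2 hx)
      rw [CharP.intCast_eq_zero_iff (ZMod l) l] at hA
      obtain ⟨A', rfl⟩ := hA
      exact HasTable.no2 hO hl2 h
    · set X : ℤ := ((x * y⁻¹).val : ℤ) with hX
      have hXc : (X : ZMod l) = x * y⁻¹ := by rw [hX]; push_cast; exact ZMod.natCast_zmod_val _
      have hyy : y * y⁻¹ = 1 := mul_inv_cancel₀ hy
      have dB : (l : ℤ) ∣ A * X ^ 2 + B + w * X := by
        rw [← CharP.intCast_eq_zero_iff (ZMod l) l]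
        push_cast
        rw [hXc]
        linear_combination (y⁻¹) ^ 2 * hxy - (B * (y * y⁻¹ + 1) + w * x * y⁻¹) * hyy
      obtain ⟨B', hB'⟩ := dB
      have hs := h.cyc.cyc.shift 0 X
      have e1 : (l : ℤ) * C' * 0 ^ 2 + A * X ^ 2 + B + w * X + l * u' * 0 + l * v' * 0 * X
          = l * B' := by rw [← hB']; ring
      have e2 : (l : ℤ) * u' + 2 * (l * C') * 0 + l * v' * X = l * (u' + v' * X) := by ring
      rw [e1, e2] at hs
      exact HasTable.no2 hO hl2 hs

/-- anisotropy controls the discriminant -/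
lemma not_sq_dvd {A B C' u' v' w : ℤ} {l : ℕ} [Fact l.Prime] (hC : ¬ (l : ℤ) ∣ C')
    (han : ∀ x y : ZMod l, (A : ZMod l) * x ^ 2 + w * x * y + B * y ^ 2 = 0 → x = 0 ∧ y = 0) :
    ¬ (l : ℤ) ^ 2 ∣ disc A B (l * C') (l * u') (l * v') w := by
  intro hd
  have hl0 : (l : ℤ) ≠ 0 := by exact_mod_cast (Fact.out : l.Prime).pos.ne'
  have h1 : (l : ℤ) ∣ C' * (4 * A * B - w ^ 2) := by
    obtain ⟨m, hm⟩ := hd
    refine ⟨m - (u' * v' * w - A * u' ^ 2 - B * v' ^ 2), ?_⟩
    have : (l : ℤ) * (C' * (4 * A * B - w ^ 2)) =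
        l * (l * (m - (u' * v' * w - A * u' ^ 2 - B * v' ^ 2))) := by
      unfold disc at hm
      linear_combination hm
    exact mul_left_cancel₀ hl0 this
  have hlp : Prime (l : ℤ) := Nat.prime_iff_prime_int.mp Fact.out
  have h2 : (l : ℤ) ∣ 4 * A * B - w ^ 2 := (hlp.dvd_or_dvd h1).resolve_left hC
  rw [← CharP.intCast_eq_zero_iff (ZMod l) l] at h2
  push_cast at h2
  have hA : (A : ZMod l) ≠ 0 := by
    intro h0
    have := (han 1 0 (by rw [h0]; ring)).1
    exact one_ne_zero this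
  have hB : (B : ZMod l) ≠ 0 := by
    intro h0
    have := (han 0 1 (by rw [h0]; ring)).2
    exact one_ne_zero this
  have h3 := han (-w) (2 * A) (by linear_combination (A : ZMod l) * h2)
  have h4 : (2 : ZMod l) = 0 := (mul_eq_zero.mp h3.2).resolve_right hA
  have h5 : l = 2 := by
    have h6 : ((2 : ℕ) : ZMod l) = 0 := by exact_mod_cast h4
    rw [ZMod.natCast_eq_zero_iff] at h6
    exact (Nat.prime_dvd_prime_iff_eq (Fact.out) Nat.prime_two).mp h6
  subst h5
  have h7 : (w : ZMod 2) = 0 := by simpa using h3.1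
  have hA1 := one_two _ hA
  have hB1 := one_two _ hB
  have := (han 1 1 (by rw [hA1, hB1, h7]; exact sum_two)).1
  exact one_ne_zero this

end Pool.Agent.H419R3
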