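import Pool.Agent.H419R3.GDefs

set_option autoImplicit false

namespace Pool.Agent.H419R3

section gen
variable {F : Type*} [Field F] {a b : F}

lemma trd_eq (x : QuaternionAlgebra F a 0 b) : trd x = 2 * x.re := by
  simp [trd]; ring

lemma nrd_eq (x : QuaternionAlgebra F a 0 b) :
    nrd x = x.re ^ 2 - a * x.imI ^ 2 - b * x.imJ ^ 2 + a * b * x.imK ^ 2 := by
  simp [nrd]; ring

lemma trd_add (x y : QuaternionAlgebra F a 0 b) : trd (x + y) = trd x + trd y := by
  simp [trd_eq]; ring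

lemma trd_smul (r : F) (x : QuaternionAlgebra F a 0 b) : trd (r • x) = r * trd x := by
  simp [trd_eq]; ring

lemma trd_one : trd (1 : QuaternionAlgebra F a 0 b) = 2 := by simp [trd_eq]

lemma trd_sub (x y : QuaternionAlgebra F a 0 b) : trd (x - y) = trd x - trd y := by
  simp [trd_eq]; ring

lemma nrd_mul (x y : QuaternionAlgebra F a 0 b) : nrd (x * y) = nrd x * nrd y := by
  simp [nrd_eq]; ring

lemma nrd_one : nrd (1 : QuaternionAlgebra F a 0 b) = 1 := by simp [nrd_eq]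

lemma nrd_smul (r : F) (x : QuaternionAlgebra F a 0 b) : nrd (r • x) = r ^ 2 * nrd x := by
  simp [nrd_eq]; ring

lemma mul_star_self (x : QuaternionAlgebra F a 0 b) : x * star x = nrd x • 1 := by
  ext <;> simp [nrd_eq] <;> ring

lemma star_mul_self (x : QuaternionAlgebra F a 0 b) : star x * x = nrd x • 1 := by
  ext <;> simp [nrd_eq] <;> ring

lemma star_eq (x : QuaternionAlgebra F a 0 b) : star x = trd x • 1 - x := by
  ext <;> simp [trd_eq] ; ring

lemma self_sq (x : QuaternionAlgebra F a 0 b) : x * x = trd x • x - nrd x • 1 := by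
  have h := mul_star_self x
  rw [star_eq, mul_sub, mul_smul_comm, mul_one] at h
  rw [← h]; abel

lemma nrd_add (x y : QuaternionAlgebra F a 0 b) :
    nrd (x + y) = nrd x + nrd y + trd (x * star y) := by
  simp [nrd_eq, trd_eq]; ring

lemma nrd_star (x : QuaternionAlgebra F a 0 b) : nrd (star x) = nrd x := by
  simp [nrd_eq]

lemma trd_star (x : QuaternionAlgebra F a 0 b) : trd (star x) = trd x := by
  simp [trd_eq]

lemma isUnit_of_nrd_ne {x : QuaternionAlgebra F a 0 b} (h : nrd x ≠ 0) : IsUnit x := by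
  refine ⟨⟨x, (nrd x)⁻¹ • star x, ?_, ?_⟩, rfl⟩
  · rw [mul_smul_comm, mul_star_self, smul_smul, inv_mul_cancel₀ h, one_smul]
  · rw [smul_mul_assoc, star_mul_self, smul_smul, inv_mul_cancel₀ h, one_smul]

end gen

section rat
variable {a b : ℚ}

lemma neg_of_ramifiedInf (h : RamifiedAtInfinity a b) (ha : a ≠ 0) (hb : b ≠ 0) : a < 0 ∧ b < 0 := by
  constructor
  · by_contra hc
    have hc' : 0 < a := lt_of_le_of_ne (not_lt.mp hc) (Ne.symm ha)
    have hpos : (0 : ℝ) < (a : ℝ) := by exact_mod_cast hc'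
    let x : QuaternionAlgebra ℝ (a : ℝ) 0 (b : ℝ) := ⟨Real.sqrt a, 1, 0, 0⟩
    have hx : x ≠ 0 := by
      intro h0
      have := congrArg QuaternionAlgebra.imI h0
      simp [x] at this
    have hu := h x hx
    have hz : star x * x = 0 := by
      rw [star_mul_self]
      have : nrd x = 0 := by
        rw [nrd_eq]; simp only [x]; rw [Real.sq_sqrt hpos.le]; ring
      rw [this, zero_smul]
    have h2 := (hu.mul_left_eq_zero).mp hz
    have := congrArg QuaternionAlgebra.imI h2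
    simp [x] at this
  · by_contra hc
    have hc' : 0 < b := lt_of_le_of_ne (not_lt.mp hc) (Ne.symm hb)
    have hpos : (0 : ℝ) < (b : ℝ) := by exact_mod_cast hc'
    let x : QuaternionAlgebra ℝ (a : ℝ) 0 (b : ℝ) := ⟨Real.sqrt b, 0, 1, 0⟩
    have hx : x ≠ 0 := by
      intro h0
      have := congrArg QuaternionAlgebra.imJ h0
      simp [x] at this
    have hu := h x hx
    have hz : star x * x = 0 := by
      rw [star_mul_self]
      have : nrd x = 0 := by
        rw [nrd_eq]; simp only [x]; rw [Real.sq_sqrt hpos.le]; ring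
      rw [this, zero_smul]
    have h2 := (hu.mul_left_eq_zero).mp hz
    have := congrArg QuaternionAlgebra.imJ h2
    simp [x] at this

lemma nrd_pos (ha : a < 0) (hb : b < 0) {x : QuaternionAlgebra ℚ a 0 b} (hx : x ≠ 0) :
    0 < nrd x := by
  rw [nrd_eq]
  have hab : 0 < a * b := mul_pos_of_neg_of_neg ha hb
  by_contra hc
  have hc' := not_lt.mp hc
  have h1 := sq_nonneg x.re
  have h2 := mul_nonneg (neg_nonneg.mpr ha.le) (sq_nonneg x.imI)
  have h3 := mul_nonneg (neg_nonneg.mpr hb.le) (sq_nonneg x.imJ)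
  have h4 := mul_nonneg hab.le (sq_nonneg x.imK)
  apply hx
  have e1 : x.re ^ 2 = 0 := by nlinarith
  have e2 : -a * x.imI ^ 2 = 0 := by nlinarith
  have e3 : -b * x.imJ ^ 2 = 0 := by nlinarith
  have e4 : a * b * x.imK ^ 2 = 0 := by nlinarith
  have f1 : x.re = 0 := by simpa using e1
  have f2 : x.imI = 0 := by
    rcases mul_eq_zero.mp e2 with h | h
    · linarith
    · simpa using h
  have f3 : x.imJ = 0 := by
    rcases mul_eq_zero.mp e3 with h | h
    · linarith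
    · simpa using h
  have f4 : x.imK = 0 := by
    rcases mul_eq_zero.mp e4 with h | h
    · linarith
    · simpa using h
  ext
  · exact f1
  · exact f2
  · exact f3
  · exact f4

/-- bounded denominators in an order -/
lemma exists_den {S : Set (QuaternionAlgebra ℚ a 0 b)} (hS : S.Finite) :
    ∃ d : ℤ, d ≠ 0 ∧ ∀ x ∈ AddSubgroup.closure S, (∃ n : ℤ, d * x.re = n) ∧ (∃ n : ℤ, d * x.imI = n) ∧
      (∃ n : ℤ, d * x.imJ = n) ∧ (∃ n : ℤ, d * x.imK = n) := by
  -- first a common denominator for the finite set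
  have hfin : ∃ d : ℤ, d ≠ 0 ∧ ∀ x ∈ S, (∃ n : ℤ, d * x.re = n) ∧ (∃ n : ℤ, d * x.imI = n) ∧
      (∃ n : ℤ, d * x.imJ = n) ∧ (∃ n : ℤ, d * x.imK = n) := by
    induction S, hS using Set.Finite.induction_on with
    | empty => exact ⟨1, one_ne_zero, by simp⟩
    | @insert x S _ _ ih =>
      obtain ⟨d, hd, h⟩ := ih
      have hden : ∀ q : ℚ, ∃ n : ℤ, (q.den : ℚ) * q = n := fun q => ⟨q.num, Rat.den_mul_eq_num q⟩
      refine ⟨d * (x.re.den * x.imI.den * x.imJ.den * x.imK.den), ?_, ?_⟩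
      · refine mul_ne_zero hd ?_
        have h1 := x.re.den_ne_zero
        have h2 := x.imI.den_ne_zero
        have h3 := x.imJ.den_ne_zero
        have h4 := x.imK.den_ne_zero
        exact_mod_cast mul_ne_zero (mul_ne_zero (mul_ne_zero h1 h2) h3) h4
      · intro y hy
        rcases Set.mem_insert_iff.mp hy with rfl | hy
        · obtain ⟨n1, h1⟩ := hden y.re
          obtain ⟨n2, h2⟩ := hden y.imI
          obtain ⟨n3, h3⟩ := hden y.imJ
          obtain ⟨n4, h4⟩ := hden y.imK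
          refine ⟨⟨d * (y.imI.den * y.imJ.den * y.imK.den) * n1, ?_⟩,
            ⟨d * (y.re.den * y.imJ.den * y.imK.den) * n2, ?_⟩,
            ⟨d * (y.re.den * y.imI.den * y.imK.den) * n3, ?_⟩,
            ⟨d * (y.re.den * y.imI.den * y.imJ.den) * n4, ?_⟩⟩
          · push_cast; rw [← h1]; ring
          · push_cast; rw [← h2]; ring
          · push_cast; rw [← h3]; ring
          · push_cast; rw [← h4]; ring
        · obtain ⟨⟨n1, h1⟩, ⟨n2, h2⟩, ⟨n3, h3⟩, ⟨n4, h4⟩⟩ := h y hy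
          set D : ℤ := (x.re.den * x.imI.den * x.imJ.den * x.imK.den : ℤ) with hD
          refine ⟨⟨D * n1, ?_⟩, ⟨D * n2, ?_⟩, ⟨D * n3, ?_⟩, ⟨D * n4, ?_⟩⟩
          · push_cast; rw [← h1]; ring
          · push_cast; rw [← h2]; ring
          · push_cast; rw [← h3]; ring
          · push_cast; rw [← h4]; ring
  obtain ⟨d, hd, h⟩ := hfin
  refine ⟨d, hd, fun x hx => ?_⟩
  induction hx using AddSubgroup.closure_induction with
  | mem x hx => exact h x hx
  | zero => exact ⟨⟨0, by simp⟩, ⟨0, by simp⟩, ⟨0, by simp⟩, ⟨0, by simp⟩⟩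
  | add x y _ _ hx hy =>
    obtain ⟨⟨n1, h1⟩, ⟨n2, h2⟩, ⟨n3, h3⟩, ⟨n4, h4⟩⟩ := hx
    obtain ⟨⟨m1, g1⟩, ⟨m2, g2⟩, ⟨m3, g3⟩, ⟨m4, g4⟩⟩ := hy
    refine ⟨⟨n1 + m1, ?_⟩, ⟨n2 + m2, ?_⟩, ⟨n3 + m3, ?_⟩, ⟨n4 + m4, ?_⟩⟩
    · simp only [QuaternionAlgebra.re_add]; push_cast; rw [← h1, ← g1]; ring
    · simp only [QuaternionAlgebra.imI_add]; push_cast; rw [← h2, ← g2]; ring
    · simp only [QuaternionAlgebra.imJ_add]; push_cast; rw [← h3, ← g3]; ring
    · simp only [QuaternionAlgebra.imK_add]; push_cast; rw [← h4, ← g4]; ring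
  | neg x _ hx =>
    obtain ⟨⟨n1, h1⟩, ⟨n2, h2⟩, ⟨n3, h3⟩, ⟨n4, h4⟩⟩ := hx
    refine ⟨⟨-n1, ?_⟩, ⟨-n2, ?_⟩, ⟨-n3, ?_⟩, ⟨-n4, ?_⟩⟩
    · simp only [QuaternionAlgebra.re_neg]; push_cast; rw [← h1]; ring
    · simp only [QuaternionAlgebra.imI_neg]; push_cast; rw [← h2]; ring
    · simp only [QuaternionAlgebra.imJ_neg]; push_cast; rw [← h3]; ring
    · simp only [QuaternionAlgebra.imK_neg]; push_cast; rw [← h4]; ring

lemma int_of_pow_den {r : ℚ} {N : ℤ} (hN : N ≠ 0) (h : ∀ k : ℕ, ∃ n : ℤ, N * r ^ k = n) :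
    ∃ n : ℤ, r = n := by
  have hdiv : ∀ k : ℕ, ((r.den : ℤ) ^ k) ∣ N := by
    intro k
    obtain ⟨n, hn⟩ := h k
    have h1 : (N : ℚ) * (r ^ k) = n := hn
    have h2 : N * (r ^ k).num = n * (r ^ k).den := by
      have h3 : (r ^ k) = ((r ^ k).num : ℚ) / (r ^ k).den := (Rat.num_div_den _).symm
      rw [h3] at h1
      have h4 : ((r ^ k).den : ℚ) ≠ 0 := by exact_mod_cast (r ^ k).den_ne_zero
      field_simp at h1
      rw [mul_comm n]
      exact_mod_cast h1
    have h5 : ((r ^ k).den : ℤ) ∣ N * (r ^ k).num := ⟨n, by rw [h2]; ring⟩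
    have h6 : IsCoprime ((r ^ k).den : ℤ) (r ^ k).num := by
      have := (r ^ k).reduced
      rw [Int.isCoprime_iff_gcd_eq_one]
      rw [Nat.Coprime, Nat.gcd_comm] at this
      simpa [Int.gcd] using this
    have h7 := h6.dvd_of_dvd_mul_right h5
    rw [Rat.den_pow] at h7
    exact_mod_cast h7
  have hden : r.den = 1 := by
    by_contra hne
    have h2 : 2 ≤ r.den := by
      have := r.den_pos
      omega
    have h3 := hdiv (N.natAbs)
    have h4 : (r.den : ℤ) ^ N.natAbs ≤ N.natAbs := by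
      have := Int.natAbs_dvd_natAbs.mpr h3
      have h5 := Nat.le_of_dvd (Int.natAbs_pos.mpr hN) this
      rw [Int.natAbs_pow, Int.natAbs_natCast] at h5
      exact_mod_cast h5
    have h5 : N.natAbs < 2 ^ N.natAbs := Nat.lt_two_pow_self
    have h6 : 2 ^ N.natAbs ≤ r.den ^ N.natAbs := Nat.pow_le_pow_left h2 _
    have h7 : r.den ^ N.natAbs ≤ N.natAbs := by exact_mod_cast h4
    omega
  exact ⟨r.num, by rw [← Rat.num_div_den r, hden]; simp⟩

/-- norms of elements of an order are integers -/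
lemma IsOrder.nrd_int {O : Subring (QuaternionAlgebra ℚ a 0 b)} (hO : IsOrder O)
    {x : QuaternionAlgebra ℚ a 0 b} (hx : x ∈ O) : ∃ n : ℤ, nrd x = n := by
  obtain ⟨S, hS⟩ := hO.fg
  obtain ⟨d, hd, h⟩ := exists_den (a := a) (b := b) S.finite_toSet
  rw [hS] at h
  have key : ∀ y ∈ O, ∃ n : ℤ, ((d ^ 2 * (a.den * b.den) : ℤ) : ℚ) * nrd y = n := by
    intro y hy
    obtain ⟨⟨n1, h1⟩, ⟨n2, h2⟩, ⟨n3, h3⟩, ⟨n4, h4⟩⟩ := h y hy
    have ha : (a.den : ℚ) * a = a.num := Rat.den_mul_eq_num a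
    have hb : (b.den : ℚ) * b = b.num := Rat.den_mul_eq_num b
    refine ⟨a.den * b.den * n1 ^ 2 - a.num * b.den * n2 ^ 2 - a.den * b.num * n3 ^ 2
      + a.num * b.num * n4 ^ 2, ?_⟩
    rw [nrd_eq]
    push_cast
    rw [← h1, ← h2, ← h3, ← h4, ← ha, ← hb]
    ring
  have hpow : ∀ k : ℕ, nrd (x ^ k) = nrd x ^ k := by
    intro k
    induction k with
    | zero => simp [nrd_one]
    | succ k ih => rw [pow_succ, nrd_mul, ih, pow_succ]
  refine int_of_pow_den (N := d ^ 2 * (a.den * b.den)) ?_ ?_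
  · refine mul_ne_zero (pow_ne_zero 2 hd) ?_
    exact_mod_cast mul_ne_zero a.den_ne_zero b.den_ne_zero
  · intro k
    obtain ⟨n, hn⟩ := key (x ^ k) (O.pow_mem hx k)
    exact ⟨n, by rw [← hpow, ← hn]⟩

lemma IsOrder.trd_int {O : Subring (QuaternionAlgebra ℚ a 0 b)} (hO : IsOrder O)
    {x : QuaternionAlgebra ℚ a 0 b} (hx : x ∈ O) : ∃ n : ℤ, trd x = n := by
  obtain ⟨n, hn⟩ := hO.nrd_int hx
  obtain ⟨m, hm⟩ := hO.nrd_int (O.add_mem hx O.one_mem)
  refine ⟨m - n - 1, ?_⟩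
  rw [nrd_add, nrd_one, star_one, mul_one, hn] at hm
  push_cast
  linarith

end rat

end Pool.Agent.H419R3
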