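import Pool.Agent.H419R3.GMax

set_option autoImplicit false
set_option linter.unusedSimpArgs false

namespace Pool.Agent.H419R3

variable {a b : ℚ}

namespace Table

variable {i j k : QuaternionAlgebra ℚ a 0 b} {A B C u v w : ℤ}

lemma trd_i (h : Table i j k A B C u v w) : trd i = u := by
  have h1 := star_eq i
  rw [h.si] at h1
  have h2 := congrArg QuaternionAlgebra.re h1
  simp at h2
  exact h2.symm

lemma trd_j (h : Table i j k A B C u v w) : trd j = v := h.cyc.trd_i

lemma trd_k (h : Table i j k A B C u v w) : trd k = w := h.cyc.cyc.trd_i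

lemma nrd_i (h : Table i j k A B C u v w) : nrd i = B * C := by
  have h1 := mul_star_self i
  rw [h.si, mul_sub, mul_smul_comm, mul_one, h.ii] at h1
  have h2 := congrArg QuaternionAlgebra.re h1
  simp at h2
  linarith

lemma nrd_j (h : Table i j k A B C u v w) : nrd j = A * C := by
  rw [h.cyc.nrd_i]; ring

lemma nrd_k (h : Table i j k A B C u v w) : nrd k = A * B := h.cyc.cyc.nrd_i

lemma tr_ij (h : Table i j k A B C u v w) : trd (i * star j) = u * v - C * w := by
  rw [h.sj, mul_sub, mul_smul_comm, mul_one, h.ij]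
  simp only [trd_sub, trd_smul, trd_one, h.trd_i, h.trd_k]
  ring

lemma tr_jk (h : Table i j k A B C u v w) : trd (j * star k) = v * w - A * u := h.cyc.tr_ij

lemma tr_ki (h : Table i j k A B C u v w) : trd (k * star i) = w * u - B * v := h.cyc.cyc.tr_ij

end Table

/-- the norm form of the order over any field -/
def nform {K : Type*} [CommRing K] (A B C u v w : K) (t x y z : K) : K :=
  t ^ 2 + t * x * u + t * y * v + t * z * w + B * C * x ^ 2 + A * C * y ^ 2 + A * B * z ^ 2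
    + (u * v - C * w) * x * y + (v * w - A * u) * y * z + (w * u - B * v) * x * z

section padic

variable {l : ℕ} [Fact l.Prime]

/-- base change map -/
noncomputable def toPadic (l : ℕ) [Fact l.Prime] (x : QuaternionAlgebra ℚ a 0 b) :
    QuaternionAlgebra ℚ_[l] (a : ℚ_[l]) 0 (b : ℚ_[l]) := ⟨x.re, x.imI, x.imJ, x.imK⟩

lemma nrd_toPadic (x : QuaternionAlgebra ℚ a 0 b) : nrd (toPadic l x) = ((nrd x : ℚ) : ℚ_[l]) := by
  simp only [nrd_eq, toPadic]; push_cast; ring

lemma trd_toPadic (x y : QuaternionAlgebra ℚ a 0 b) :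
    trd (toPadic l x * star (toPadic l y)) = ((trd (x * star y) : ℚ) : ℚ_[l]) := by
  simp [trd_eq, toPadic]

lemma nrd_comb {K : Type*} [Field K] {a b : K} (g1 g2 g3 : QuaternionAlgebra K a 0 b)
    (t x y z : K) :
    nrd (t • (1 : QuaternionAlgebra K a 0 b) + x • g1 + y • g2 + z • g3) =
      t ^ 2 + t * x * trd g1 + t * y * trd g2 + t * z * trd g3 + x ^ 2 * nrd g1 + y ^ 2 * nrd g2
        + z ^ 2 * nrd g3 + x * y * trd (g1 * star g2) + y * z * trd (g2 * star g3)
        + x * z * trd (g3 * star g1) := by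
  simp [nrd_eq, trd_eq]; ring

lemma Table.coord_padic {i j k : QuaternionAlgebra ℚ a 0 b} {A B C u v w : ℤ}
    (h : Table i j k A B C u v w) (X : QuaternionAlgebra ℚ_[l] (a : ℚ_[l]) 0 (b : ℚ_[l])) :
    ∃ c : Fin 4 → ℚ_[l], X = c 0 • 1 + c 1 • toPadic l i + c 2 • toPadic l j + c 3 • toPadic l k := by
  obtain ⟨p0, p1, p2, p3, hp⟩ := h.exists_coord ⟨0, 1, 0, 0⟩
  obtain ⟨q0, q1, q2, q3, hq⟩ := h.exists_coord ⟨0, 0, 1, 0⟩
  obtain ⟨r0, r1, r2, r3, hr⟩ := h.exists_coord ⟨0, 0, 0, 1⟩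
  have ph0 := congrArg (fun x : QuaternionAlgebra ℚ a 0 b => (x.re : ℚ_[l])) hp
  have ph1 := congrArg (fun x : QuaternionAlgebra ℚ a 0 b => (x.imI : ℚ_[l])) hp
  have ph2 := congrArg (fun x : QuaternionAlgebra ℚ a 0 b => (x.imJ : ℚ_[l])) hp
  have ph3 := congrArg (fun x : QuaternionAlgebra ℚ a 0 b => (x.imK : ℚ_[l])) hp
  have qh0 := congrArg (fun x : QuaternionAlgebra ℚ a 0 b => (x.re : ℚ_[l])) hq
  have qh1 := congrArg (fun x : QuaternionAlgebra ℚ a 0 b => (x.imI : ℚ_[l])) hq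
  have qh2 := congrArg (fun x : QuaternionAlgebra ℚ a 0 b => (x.imJ : ℚ_[l])) hq
  have qh3 := congrArg (fun x : QuaternionAlgebra ℚ a 0 b => (x.imK : ℚ_[l])) hq
  have rh0 := congrArg (fun x : QuaternionAlgebra ℚ a 0 b => (x.re : ℚ_[l])) hr
  have rh1 := congrArg (fun x : QuaternionAlgebra ℚ a 0 b => (x.imI : ℚ_[l])) hr
  have rh2 := congrArg (fun x : QuaternionAlgebra ℚ a 0 b => (x.imJ : ℚ_[l])) hr
  have rh3 := congrArg (fun x : QuaternionAlgebra ℚ a 0 b => (x.imK : ℚ_[l])) hr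
  simp at ph0 ph1 ph2 ph3 qh0 qh1 qh2 qh3 rh0 rh1 rh2 rh3
  refine ⟨![X.re + X.imI * p0 + X.imJ * q0 + X.imK * r0, X.imI * p1 + X.imJ * q1 + X.imK * r1,
    X.imI * p2 + X.imJ * q2 + X.imK * r2, X.imI * p3 + X.imJ * q3 + X.imK * r3], ?_⟩
  ext
  · simp [toPadic]
    linear_combination X.imI * ph0 + X.imJ * qh0 + X.imK * rh0
  · simp [toPadic]
    linear_combination X.imI * ph1 + X.imJ * qh1 + X.imK * rh1
  · simp [toPadic]
    linear_combination X.imI * ph2 + X.imJ * qh2 + X.imK * rh2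
  · simp [toPadic]
    linear_combination X.imI * ph3 + X.imJ * qh3 + X.imK * rh3

lemma Table.nrd_padic {i j k : QuaternionAlgebra ℚ a 0 b} {A B C u v w : ℤ}
    (h : Table i j k A B C u v w) (c : Fin 4 → ℚ_[l]) :
    nrd (c 0 • (1 : QuaternionAlgebra ℚ_[l] (a : ℚ_[l]) 0 (b : ℚ_[l])) + c 1 • toPadic l i
      + c 2 • toPadic l j + c 3 • toPadic l k) =
      nform (A : ℚ_[l]) B C u v w (c 0) (c 1) (c 2) (c 3) := by
  have t1 : ∀ x : QuaternionAlgebra ℚ a 0 b, trd (toPadic l x) = ((trd x : ℚ) : ℚ_[l]) := by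
    intro x; simp [trd_eq, toPadic]
  rw [nrd_comb, t1, t1, t1, nrd_toPadic, nrd_toPadic, nrd_toPadic, trd_toPadic, trd_toPadic,
    trd_toPadic, h.trd_i, h.trd_j, h.trd_k, h.nrd_i, h.nrd_j, h.nrd_k, h.tr_ij, h.tr_jk, h.tr_ki]
  unfold nform
  push_cast
  ring

lemma toZMod_eq_zero {x : ℤ_[l]} (h : PadicInt.toZMod x = 0) : ∃ y : ℤ_[l], x = l * y := by
  have h1 : x ∈ RingHom.ker (PadicInt.toZMod : ℤ_[l] →+* ZMod l) := h
  rw [PadicInt.ker_toZMod, PadicInt.maximalIdeal_eq_span_p, Ideal.mem_span_singleton] at h1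
  exact h1

/-- an anisotropic shape forces ramification at `ℓ` -/
lemma HasTable.ramified {O : Subring (QuaternionAlgebra ℚ a 0 b)} {A B C' u' v' w : ℤ}
    (h : HasTable O A B (l * C') (l * u') (l * v') w) (hC : ¬ (l : ℤ) ∣ C')
    (han : ∀ x y : ZMod l, (A : ZMod l) * x ^ 2 + w * x * y + B * y ^ 2 = 0 → x = 0 ∧ y = 0) :
    RamifiedAt a b l := by
  obtain ⟨i, j, k, h, -⟩ := h
  have hlne : (l : ℤ_[l]) ≠ 0 := by
    have := (Fact.out : l.Prime).ne_zero
    exact_mod_cast this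
  have hCz : (C' : ZMod l) ≠ 0 := by
    rw [Ne, CharP.intCast_eq_zero_iff (ZMod l) l]; exact hC
  have hA : (A : ZMod l) ≠ 0 := by
    intro h0
    have := (han 1 0 (by rw [h0]; ring)).1
    exact one_ne_zero this
  intro X hX
  obtain ⟨c, hc⟩ := h.coord_padic X
  by_cases hn : nrd X = 0
  · exfalso
    rw [hc, h.nrd_padic] at hn
    have hc0 : c ≠ 0 := by
      intro h0
      apply hX
      rw [hc, h0]; simp
    obtain ⟨m, hm⟩ := Finite.exists_max (fun n => ‖c n‖)
    have hcm : c m ≠ 0 := by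
      intro h0
      apply hc0
      ext n
      have := hm n
      simp only [h0, norm_zero] at this
      exact norm_le_zero_iff.mp this
    have hle : ∀ n, ‖c n / c m‖ ≤ 1 := by
      intro n
      rw [norm_div]
      exact div_le_one_of_le₀ (hm n) (norm_nonneg _)
    let D : Fin 4 → ℤ_[l] := fun n => ⟨c n / c m, hle n⟩
    have hD : ∀ n, ((D n : ℤ_[l]) : ℚ_[l]) = c n / c m := fun n => rfl
    have hDm : D m = 1 := by
      apply Subtype.ext
      rw [hD, div_self hcm]; rfl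
    have hnD : nform (A : ℤ_[l]) B (l * C') (l * u') (l * v') w (D 0) (D 1) (D 2) (D 3) = 0 := by
      apply Subtype.ext
      have e : ((nform (A : ℤ_[l]) B (l * C') (l * u') (l * v') w (D 0) (D 1) (D 2) (D 3) : ℤ_[l]) : ℚ_[l])
          = nform (A : ℚ_[l]) B ((l * C' : ℤ) : ℚ_[l]) ((l * u' : ℤ) : ℚ_[l]) ((l * v' : ℤ) : ℚ_[l]) w
            (c 0) (c 1) (c 2) (c 3) / (c m) ^ 2 := by
        unfold nform
        push_cast
        rw [hD, hD, hD, hD]
        field_simp
      change ((nform (A : ℤ_[l]) B (l * C') (l * u') (l * v') w (D 0) (D 1) (D 2) (D 3) : ℤ_[l]) : ℚ_[l]) = 0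
      rw [e, hn, zero_div]
    -- reduction modulo ℓ
    set π : ℤ_[l] →+* ZMod l := PadicInt.toZMod with hπ
    have hπl : π (l : ℤ_[l]) = 0 := by rw [map_natCast]; exact ZMod.natCast_self l
    have e1 : π (D 0) ^ 2 + w * π (D 0) * π (D 3) + A * B * π (D 3) ^ 2 = 0 := by
      have := congrArg π hnD
      unfold nform at this
      simp only [map_add, map_sub, map_mul, map_pow, map_intCast, hπl, map_zero] at this
      linear_combination this
    have e2 := han (π (D 0)) (A * π (D 3)) (by linear_combination (A : ZMod l) * e1)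
    have h0 : π (D 0) = 0 := e2.1
    have h3 : π (D 3) = 0 := (mul_eq_zero.mp e2.2).resolve_left hA
    obtain ⟨t, ht⟩ := toZMod_eq_zero h0
    obtain ⟨z, hz⟩ := toZMod_eq_zero h3
    have e3 : (l : ℤ_[l]) * (l * t ^ 2 + l * t * D 1 * u' + l * t * D 2 * v' + l * t * z * w
        + B * C' * D 1 ^ 2 + A * C' * D 2 ^ 2 + l * A * B * z ^ 2
        + (l * u' * v' - C' * w) * D 1 * D 2 + l * (v' * w - A * u') * D 2 * z
        + l * (w * u' - B * v') * D 1 * z) = 0 := by
      rw [← hnD]; unfold nform; rw [ht, hz]; ring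
    have e4 := (mul_eq_zero.mp e3).resolve_left hlne
    have e5 : (C' : ZMod l) * (A * π (D 2) ^ 2 + w * π (D 2) * (-π (D 1)) + B * (-π (D 1)) ^ 2) = 0 := by
      have := congrArg π e4
      simp only [map_add, map_sub, map_mul, map_pow, map_intCast, hπl, map_zero] at this
      linear_combination this
    have e6 := han _ _ ((mul_eq_zero.mp e5).resolve_left hCz)
    have h2 : π (D 2) = 0 := e6.1
    have h1 : π (D 1) = 0 := by simpa using e6.2
    have hm0 : π (D m) = 0 := by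
      fin_cases m
      · exact h0
      · exact h1
      · exact h2
      · exact h3
    rw [hDm, map_one] at hm0
    exact one_ne_zero hm0
  · exact isUnit_of_nrd_ne hn

/-- Hensel: in a division completion, `p ∣ nrd x` implies `p ∣ trd x`. -/
lemma dvd_trd_of_dvd_nrd (hr : RamifiedAt a b l) {x : QuaternionAlgebra ℚ a 0 b} {T N : ℤ}
    (hT : trd x = T) (hN : nrd x = N) (hd : (l : ℤ) ∣ N) : (l : ℤ) ∣ T := by
  by_contra hTl
  -- x is not a scalar
  have hlp : Prime (l : ℤ) := Nat.prime_iff_prime_int.mp Fact.out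
  have hscal : ¬ (x.imI = 0 ∧ x.imJ = 0 ∧ x.imK = 0) := by
    rintro ⟨h1, h2, h3⟩
    rw [trd_eq] at hT
    rw [nrd_eq, h1, h2, h3] at hN
    have h4 : T ^ 2 = 4 * N := by
      have : (T : ℚ) ^ 2 = 4 * N := by rw [← hT, ← hN]; ring
      exact_mod_cast this
    have h5 : (l : ℤ) ∣ T ^ 2 := by rw [h4]; exact Dvd.dvd.mul_left hd 4
    exact hTl (hlp.dvd_of_dvd_pow h5)
  -- Hensel root
  obtain ⟨r, hroot⟩ : ∃ r : ℤ_[l], r ^ 2 - T * r + N = 0 := by
    let P : Polynomial ℤ_[l] := Polynomial.X ^ 2 - Polynomial.C (T : ℤ_[l]) * Polynomial.X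
      + Polynomial.C (N : ℤ_[l])
    have hev : ∀ r : ℤ_[l], P.eval r = r ^ 2 - T * r + N := by intro r; simp [P]
    have hder : P.derivative.eval 0 = -(T : ℤ_[l]) := by
      simp [P]
    have hTn : ‖(T : ℤ_[l])‖ = 1 := by
      have h1 : ¬ ‖(T : ℤ_[l])‖ < 1 := by
        rw [PadicInt.norm_int_lt_one_iff_dvd]; exact hTl
      exact le_antisymm (PadicInt.norm_le_one _) (not_lt.mp h1)
    have hNn : ‖(N : ℤ_[l])‖ < 1 := by
      rw [PadicInt.norm_int_lt_one_iff_dvd]; exact hd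
    have hh : ‖P.eval 0‖ < ‖P.derivative.eval 0‖ ^ 2 := by
      rw [hev, hder, norm_neg, hTn]
      simpa using hNn
    have haev : ∀ (Q : Polynomial ℤ_[l]) (z : ℤ_[l]), Polynomial.aeval z Q = Q.eval z :=
      fun Q z => congrFun (Polynomial.coe_aeval_eq_eval z) Q
    obtain ⟨z, hz, -⟩ := hensels_lemma (R := ℤ_[l]) (F := P) (a := 0) (by
      rw [haev, haev]; exact hh)
    rw [haev] at hz
    exact ⟨z, by rw [← hev]; exact hz⟩
  have hroot' : (r : ℚ_[l]) ^ 2 - T * r + N = 0 := by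
    have := congrArg (fun z : ℤ_[l] => (z : ℚ_[l])) hroot
    push_cast at this
    exact this
  set X := toPadic l x with hX
  have hsq : X * X = (T : ℚ_[l]) • X - (N : ℚ_[l]) • 1 := by
    have h1 := self_sq X
    have h2 : trd X = (T : ℚ_[l]) := by
      have : trd X = ((trd x : ℚ) : ℚ_[l]) := by simp [trd_eq, hX, toPadic]
      rw [this, hT]; push_cast; rfl
    have h3 : nrd X = (N : ℚ_[l]) := by
      rw [hX, nrd_toPadic, hN]; push_cast; rfl
    rw [h1, h2, h3]
  have hprod : (X - (r : ℚ_[l]) • 1) * (X - ((T : ℚ_[l]) - r) • 1) = 0 := by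
    simp only [sub_mul, mul_sub, smul_mul_assoc, mul_smul_comm, one_mul, mul_one, smul_smul, hsq]
    have : (N : ℚ_[l]) = r * (T - r) := by linear_combination hroot'
    rw [this]
    module
  have hnz : ∀ c : ℚ_[l], X - c • 1 ≠ 0 := by
    intro c hc
    apply hscal
    have h1 := congrArg QuaternionAlgebra.imI hc
    have h2 := congrArg QuaternionAlgebra.imJ hc
    have h3 := congrArg QuaternionAlgebra.imK hc
    simp [hX, toPadic] at h1 h2 h3
    exact ⟨h1, h2, h3⟩
  have hunit := hr _ (hnz (r : ℚ_[l]))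
  have := hunit.mul_right_eq_zero.mp hprod
  exact hnz _ this

end padic

end Pool.Agent.H419R3
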