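import Pool.Agent.H419R3.GQuat

set_option autoImplicit false
set_option linter.unusedSimpArgs false

namespace Pool.Agent.H419R3

variable {a b : ℚ}

/-- Multiplication table of an order attached to the ternary form
`A X² + B Y² + C Z² + u YZ + v XZ + w XY`. -/
structure Table (i j k : QuaternionAlgebra ℚ a 0 b) (A B C u v w : ℤ) : Prop where
  indep : ∀ q0 q1 q2 q3 : ℚ, q0 • (1 : QuaternionAlgebra ℚ a 0 b) + q1 • i + q2 • j + q3 • k = 0 →
    q0 = 0 ∧ q1 = 0 ∧ q2 = 0 ∧ q3 = 0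
  si : star i = (u : ℚ) • 1 - i
  sj : star j = (v : ℚ) • 1 - j
  sk : star k = (w : ℚ) • 1 - k
  ii : i * i = (u : ℚ) • i - ((B : ℚ) * C) • 1
  jj : j * j = (v : ℚ) • j - ((A : ℚ) * C) • 1
  kk : k * k = (w : ℚ) • k - ((A : ℚ) * B) • 1
  jk : j * k = ((A : ℚ) * u) • 1 - (A : ℚ) • i
  ki : k * i = ((B : ℚ) * v) • 1 - (B : ℚ) • j
  ij : i * j = ((C : ℚ) * w) • 1 - (C : ℚ) • k

namespace Table

variable {i j k : QuaternionAlgebra ℚ a 0 b} {A B C u v w : ℤ}

lemma kj (h : Table i j k A B C u v w) :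
    k * j = (-((v : ℚ) * w)) • 1 + (A : ℚ) • i + (w : ℚ) • j + (v : ℚ) • k := by
  have e : star (star j * star k) = k * j := by rw [star_mul, star_star, star_star]
  rw [← e, h.sj, h.sk]
  have e2 : ((v : ℚ) • 1 - j) * ((w : ℚ) • (1 : QuaternionAlgebra ℚ a 0 b) - k)
      = ((v : ℚ) * w) • 1 - (v : ℚ) • k - (w : ℚ) • j + j * k := by
    simp only [sub_mul, mul_sub, smul_mul_assoc, mul_smul_comm, one_mul, mul_one, smul_smul]
    module
  rw [e2, h.jk]
  simp only [star_add, star_sub, QuaternionAlgebra.star_smul', star_one, h.si, h.sj, h.sk]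
  module

lemma ik (h : Table i j k A B C u v w) :
    i * k = (-((w : ℚ) * u)) • 1 + (w : ℚ) • i + (B : ℚ) • j + (u : ℚ) • k := by
  have e : star (star k * star i) = i * k := by rw [star_mul, star_star, star_star]
  rw [← e, h.si, h.sk]
  have e2 : ((w : ℚ) • 1 - k) * ((u : ℚ) • (1 : QuaternionAlgebra ℚ a 0 b) - i)
      = ((w : ℚ) * u) • 1 - (w : ℚ) • i - (u : ℚ) • k + k * i := by
    simp only [sub_mul, mul_sub, smul_mul_assoc, mul_smul_comm, one_mul, mul_one, smul_smul]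
    module
  rw [e2, h.ki]
  simp only [star_add, star_sub, QuaternionAlgebra.star_smul', star_one, h.si, h.sj, h.sk]
  module

lemma ji (h : Table i j k A B C u v w) :
    j * i = (-((u : ℚ) * v)) • 1 + (v : ℚ) • i + (u : ℚ) • j + (C : ℚ) • k := by
  have e : star (star i * star j) = j * i := by rw [star_mul, star_star, star_star]
  rw [← e, h.si, h.sj]
  have e2 : ((u : ℚ) • 1 - i) * ((v : ℚ) • (1 : QuaternionAlgebra ℚ a 0 b) - j)
      = ((u : ℚ) * v) • 1 - (u : ℚ) • j - (v : ℚ) • i + i * j := by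
    simp only [sub_mul, mul_sub, smul_mul_assoc, mul_smul_comm, one_mul, mul_one, smul_smul]
    module
  rw [e2, h.ij]
  simp only [star_add, star_sub, QuaternionAlgebra.star_smul', star_one, h.si, h.sj, h.sk]
  module

lemma mul_formula (h : Table i j k A B C u v w) (n0 n1 n2 n3 m0 m1 m2 m3 : ℚ) :
    (n0 • 1 + n1 • i + n2 • j + n3 • k) * (m0 • 1 + m1 • i + m2 • j + m3 • k) =
    (n0 * m0 - n1 * m1 * (B * C) - n2 * m2 * (A * C) - n3 * m3 * (A * B) + n2 * m3 * (A * u)
      + n3 * m1 * (B * v) + n1 * m2 * (C * w) - n3 * m2 * (v * w) - n1 * m3 * (u * w)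
      - n2 * m1 * (u * v)) • 1 +
    (n0 * m1 + n1 * m0 + n1 * m1 * u - n2 * m3 * A + n3 * m2 * A + n1 * m3 * w + n2 * m1 * v) • i +
    (n0 * m2 + n2 * m0 + n2 * m2 * v - n3 * m1 * B + n1 * m3 * B + n3 * m2 * w + n2 * m1 * u) • j +
    (n0 * m3 + n3 * m0 + n3 * m3 * w - n1 * m2 * C + n2 * m1 * C + n3 * m2 * v + n1 * m3 * u) • k
      := by
  simp only [add_mul, mul_add, smul_mul_assoc, mul_smul_comm, one_mul, mul_one, smul_smul,
    h.ii, h.jj, h.kk, h.jk, h.ki, h.ij, h.kj, h.ik, h.ji]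
  module

/-- the integral span is a subring -/
def subring (h : Table i j k A B C u v w) : Subring (QuaternionAlgebra ℚ a 0 b) where
  carrier := {x | ∃ n0 n1 n2 n3 : ℤ, x = (n0 : ℚ) • 1 + (n1 : ℚ) • i + (n2 : ℚ) • j + (n3 : ℚ) • k}
  zero_mem' := ⟨0, 0, 0, 0, by simp⟩
  one_mem' := ⟨1, 0, 0, 0, by simp⟩
  add_mem' := by
    rintro _ _ ⟨n0, n1, n2, n3, rfl⟩ ⟨m0, m1, m2, m3, rfl⟩
    exact ⟨n0 + m0, n1 + m1, n2 + m2, n3 + m3, by push_cast; module⟩
  neg_mem' := by
    rintro _ ⟨n0, n1, n2, n3, rfl⟩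
    exact ⟨-n0, -n1, -n2, -n3, by push_cast; module⟩
  mul_mem' := by
    rintro _ _ ⟨n0, n1, n2, n3, rfl⟩ ⟨m0, m1, m2, m3, rfl⟩
    rw [h.mul_formula]
    exact ⟨n0 * m0 - n1 * m1 * (B * C) - n2 * m2 * (A * C) - n3 * m3 * (A * B) + n2 * m3 * (A * u)
      + n3 * m1 * (B * v) + n1 * m2 * (C * w) - n3 * m2 * (v * w) - n1 * m3 * (u * w)
      - n2 * m1 * (u * v),
      n0 * m1 + n1 * m0 + n1 * m1 * u - n2 * m3 * A + n3 * m2 * A + n1 * m3 * w + n2 * m1 * v,
      n0 * m2 + n2 * m0 + n2 * m2 * v - n3 * m1 * B + n1 * m3 * B + n3 * m2 * w + n2 * m1 * u,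
      n0 * m3 + n3 * m0 + n3 * m3 * w - n1 * m2 * C + n2 * m1 * C + n3 * m2 * v + n1 * m3 * u,
      by push_cast; rfl⟩

lemma mem_subring (h : Table i j k A B C u v w) {x : QuaternionAlgebra ℚ a 0 b} :
    x ∈ h.subring ↔
      ∃ n0 n1 n2 n3 : ℤ, x = (n0 : ℚ) • 1 + (n1 : ℚ) • i + (n2 : ℚ) • j + (n3 : ℚ) • k := Iff.rfl

/-- rational coordinates -/
lemma exists_coord (h : Table i j k A B C u v w) (x : QuaternionAlgebra ℚ a 0 b) :
    ∃ q0 q1 q2 q3 : ℚ, x = q0 • 1 + q1 • i + q2 • j + q3 • k := by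
  let f : Fin 4 → QuaternionAlgebra ℚ a 0 b := ![1, i, j, k]
  have hli : LinearIndependent ℚ f := by
    rw [Fintype.linearIndependent_iff]
    intro g hg
    have h4 : g 0 • (1 : QuaternionAlgebra ℚ a 0 b) + g 1 • i + g 2 • j + g 3 • k = 0 := by
      rw [Fin.sum_univ_four] at hg
      exact hg
    obtain ⟨h0, h1, h2, h3⟩ := h.indep _ _ _ _ h4
    intro m
    fin_cases m
    · exact h0
    · exact h1
    · exact h2
    · exact h3
  have hcard : Fintype.card (Fin 4) = Module.finrank ℚ (QuaternionAlgebra ℚ a 0 b) := by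
    rw [QuaternionAlgebra.finrank_eq_four]; rfl
  have hspan := hli.span_eq_top_of_card_eq_finrank' hcard
  have hx : x ∈ Submodule.span ℚ (Set.range f) := by rw [hspan]; trivial
  rw [Submodule.mem_span_range_iff_exists_fun] at hx
  obtain ⟨c, hc⟩ := hx
  rw [Fin.sum_univ_four] at hc
  exact ⟨c 0, c 1, c 2, c 3, hc.symm⟩

lemma isOrder (h : Table i j k A B C u v w) : IsOrder h.subring := by
  classical
  constructor
  · refine ⟨{1, i, j, k}, ?_⟩
    apply le_antisymm
    · rw [AddSubgroup.closure_le]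
      intro x hx
      simp only [Finset.coe_insert, Finset.coe_singleton, Set.mem_insert_iff,
        Set.mem_singleton_iff] at hx
      change x ∈ h.subring
      rcases hx with rfl | rfl | rfl | rfl
      · exact ⟨1, 0, 0, 0, by simp⟩
      · exact ⟨0, 1, 0, 0, by simp⟩
      · exact ⟨0, 0, 1, 0, by simp⟩
      · exact ⟨0, 0, 0, 1, by simp⟩
    · intro x hx
      obtain ⟨n0, n1, n2, n3, rfl⟩ : x ∈ h.subring := hx
      simp only [Int.cast_smul_eq_zsmul]
      have hm : ∀ y ∈ ({1, i, j, k} : Finset (QuaternionAlgebra ℚ a 0 b)),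
          y ∈ AddSubgroup.closure ((({1, i, j, k} : Finset (QuaternionAlgebra ℚ a 0 b)) :
            Set (QuaternionAlgebra ℚ a 0 b))) := fun y hy => AddSubgroup.subset_closure hy
      refine add_mem (add_mem (add_mem ?_ ?_) ?_) ?_ <;> refine zsmul_mem (hm _ ?_) _ <;> simp
  · rw [eq_top_iff]
    intro x _
    obtain ⟨q0, q1, q2, q3, rfl⟩ := h.exists_coord x
    have hm : ∀ y, y ∈ h.subring → y ∈ Submodule.span ℚ (h.subring : Set (QuaternionAlgebra ℚ a 0 b)) :=
      fun y hy => Submodule.subset_span hy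
    refine add_mem (add_mem (add_mem ?_ ?_) ?_) ?_ <;> refine Submodule.smul_mem _ _ (hm _ ?_)
    · exact ⟨1, 0, 0, 0, by simp⟩
    · exact ⟨0, 1, 0, 0, by simp⟩
    · exact ⟨0, 0, 1, 0, by simp⟩
    · exact ⟨0, 0, 0, 1, by simp⟩

/-- cyclic rotation -/
lemma cyc (h : Table i j k A B C u v w) : Table j k i B C A v w u where
  indep := by
    intro q0 q1 q2 q3 hq
    obtain ⟨h0, h1, h2, h3⟩ := h.indep q0 q3 q1 q2 (by rw [← hq]; abel)
    exact ⟨h0, h2, h3, h1⟩
  si := h.sj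
  sj := h.sk
  sk := h.si
  ii := by rw [h.jj, mul_comm (C : ℚ)]
  jj := by rw [h.kk, mul_comm (B : ℚ)]
  kk := h.ii
  jk := h.ki
  ki := h.ij
  ij := h.jk

lemma cyc_subring (h : Table i j k A B C u v w) : h.cyc.subring = h.subring := by
  ext x
  simp only [mem_subring]
  constructor
  · rintro ⟨n0, n1, n2, n3, rfl⟩
    exact ⟨n0, n3, n1, n2, by abel⟩
  · rintro ⟨n0, n1, n2, n3, rfl⟩
    exact ⟨n0, n2, n3, n1, by abel⟩

/-- the substitution `X ↦ X + x Z, Y ↦ Y + y Z` -/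
lemma shift (h : Table i j k A B C u v w) (x y : ℤ) :
    Table (i - (x : ℚ) • k + ((x : ℚ) * w + B * y) • 1) (j - (y : ℚ) • k + ((y : ℚ) * w + A * x) • 1) k
      A B (A * x ^ 2 + B * y ^ 2 + C + u * y + v * x + w * x * y)
      (u + 2 * B * y + w * x) (v + 2 * A * x + w * y) w where
  indep := by
    intro q0 q1 q2 q3 hq
    obtain ⟨h0, h1, h2, h3⟩ := h.indep (q0 + q1 * (x * w + B * y) + q2 * (y * w + A * x)) q1 q2
      (q3 - q1 * x - q2 * y) (by rw [← hq]; module)
    subst h1 h2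
    refine ⟨by simpa using h0, rfl, rfl, by simpa using h3⟩
  si := by
    simp only [star_add, star_sub, QuaternionAlgebra.star_smul', star_one, h.si, h.sj, h.sk]
    push_cast; module
  sj := by
    simp only [star_add, star_sub, QuaternionAlgebra.star_smul', star_one, h.si, h.sj, h.sk]
    push_cast; module
  sk := h.sk
  ii := by
    simp only [add_mul, mul_add, sub_mul, mul_sub, smul_mul_assoc, mul_smul_comm, one_mul, mul_one,
      smul_smul, h.ii, h.jj, h.kk, h.jk, h.ki, h.ij, h.kj, h.ik, h.ji]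
    push_cast; module
  jj := by
    simp only [add_mul, mul_add, sub_mul, mul_sub, smul_mul_assoc, mul_smul_comm, one_mul, mul_one,
      smul_smul, h.ii, h.jj, h.kk, h.jk, h.ki, h.ij, h.kj, h.ik, h.ji]
    push_cast; module
  kk := h.kk
  jk := by
    simp only [add_mul, mul_add, sub_mul, mul_sub, smul_mul_assoc, mul_smul_comm, one_mul, mul_one,
      smul_smul, h.ii, h.jj, h.kk, h.jk, h.ki, h.ij, h.kj, h.ik, h.ji]
    push_cast; module
  ki := by
    simp only [add_mul, mul_add, sub_mul, mul_sub, smul_mul_assoc, mul_smul_comm, one_mul, mul_one,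
      smul_smul, h.ii, h.jj, h.kk, h.jk, h.ki, h.ij, h.kj, h.ik, h.ji]
    push_cast; module
  ij := by
    simp only [add_mul, mul_add, sub_mul, mul_sub, smul_mul_assoc, mul_smul_comm, one_mul, mul_one,
      smul_smul, h.ii, h.jj, h.kk, h.jk, h.ki, h.ij, h.kj, h.ik, h.ji]
    push_cast; module

lemma shift_subring (h : Table i j k A B C u v w) (x y : ℤ) :
    (h.shift x y).subring = h.subring := by
  ext z
  simp only [mem_subring]
  constructor
  · rintro ⟨n0, n1, n2, n3, rfl⟩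
    exact ⟨n0 + n1 * (x * w + B * y) + n2 * (y * w + A * x), n1, n2, n3 - n1 * x - n2 * y, by
      push_cast; module⟩
  · rintro ⟨n0, n1, n2, n3, rfl⟩
    exact ⟨n0 - n1 * (x * w + B * y) - n2 * (y * w + A * x), n1, n2, n3 + n1 * x + n2 * y, by
      push_cast; module⟩


/-- first over-order: `ℓ ∣ u, v` and `ℓ² ∣ C` -/
lemma over1 {l C' u' v' : ℤ} (hl : l ≠ 0) (h : Table i j k A B (l ^ 2 * C') (l * u') (l * v') w) :
    Table ((l : ℚ)⁻¹ • i) ((l : ℚ)⁻¹ • j) k A B C' u' v' w where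
  indep := by
    intro q0 q1 q2 q3 hq
    have hl' : (l : ℚ) ≠ 0 := by exact_mod_cast hl
    obtain ⟨h0, h1, h2, h3⟩ := h.indep q0 (q1 * (l : ℚ)⁻¹) (q2 * (l : ℚ)⁻¹) q3
      (by rw [← hq, smul_smul, smul_smul])
    refine ⟨h0, ?_, ?_, h3⟩
    · simpa [hl'] using h1
    · simpa [hl'] using h2
  si := by
    have hl' : (l : ℚ) ≠ 0 := by exact_mod_cast hl
    rw [QuaternionAlgebra.star_smul', h.si, smul_sub, smul_smul]
    push_cast; rw [inv_mul_cancel_left₀ hl']
  sj := by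
    have hl' : (l : ℚ) ≠ 0 := by exact_mod_cast hl
    rw [QuaternionAlgebra.star_smul', h.sj, smul_sub, smul_smul]
    push_cast; rw [inv_mul_cancel_left₀ hl']
  sk := h.sk
  ii := by
    have hl' : (l : ℚ) ≠ 0 := by exact_mod_cast hl
    rw [smul_mul_assoc, mul_smul_comm, h.ii]
    simp only [smul_sub, smul_smul]
    push_cast
    congr 2 <;> field_simp
  jj := by
    have hl' : (l : ℚ) ≠ 0 := by exact_mod_cast hl
    rw [smul_mul_assoc, mul_smul_comm, h.jj]
    simp only [smul_sub, smul_smul]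
    push_cast
    congr 2 <;> field_simp
  kk := h.kk
  jk := by
    have hl' : (l : ℚ) ≠ 0 := by exact_mod_cast hl
    rw [smul_mul_assoc, h.jk]
    simp only [smul_sub, smul_smul]
    push_cast
    congr 2 <;> field_simp
  ki := by
    have hl' : (l : ℚ) ≠ 0 := by exact_mod_cast hl
    rw [mul_smul_comm, h.ki]
    simp only [smul_sub, smul_smul]
    push_cast
    congr 2 <;> field_simp
  ij := by
    have hl' : (l : ℚ) ≠ 0 := by exact_mod_cast hl
    rw [smul_mul_assoc, mul_smul_comm, h.ij]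
    simp only [smul_sub, smul_smul]
    push_cast
    congr 2 <;> field_simp

/-- second over-order: `ℓ ∣ A, C, v` -/
lemma over2 {l A' C' v' : ℤ} (hl : l ≠ 0) (h : Table i j k (l * A') B (l * C') u (l * v') w) :
    Table i ((l : ℚ)⁻¹ • j) k A' (l * B) C' u v' w where
  indep := by
    intro q0 q1 q2 q3 hq
    have hl' : (l : ℚ) ≠ 0 := by exact_mod_cast hl
    obtain ⟨h0, h1, h2, h3⟩ := h.indep q0 q1 (q2 * (l : ℚ)⁻¹) q3
      (by rw [← hq, smul_smul])
    refine ⟨h0, h1, ?_, h3⟩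
    · simpa [hl'] using h2
  si := h.si
  sj := by
    have hl' : (l : ℚ) ≠ 0 := by exact_mod_cast hl
    rw [QuaternionAlgebra.star_smul', h.sj, smul_sub, smul_smul]
    push_cast; rw [inv_mul_cancel_left₀ hl']
  sk := h.sk
  ii := by
    rw [h.ii]; push_cast; congr 2; ring
  jj := by
    have hl' : (l : ℚ) ≠ 0 := by exact_mod_cast hl
    rw [smul_mul_assoc, mul_smul_comm, h.jj]
    simp only [smul_sub, smul_smul]
    push_cast
    congr 2 <;> field_simp
  kk := by
    rw [h.kk]; push_cast; congr 2; ring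
  jk := by
    have hl' : (l : ℚ) ≠ 0 := by exact_mod_cast hl
    rw [smul_mul_assoc, h.jk]
    simp only [smul_sub, smul_smul]
    push_cast
    congr 2 <;> field_simp
  ki := by
    have hl' : (l : ℚ) ≠ 0 := by exact_mod_cast hl
    rw [h.ki]
    simp only [smul_smul]
    push_cast
    congr 2 <;> field_simp
  ij := by
    have hl' : (l : ℚ) ≠ 0 := by exact_mod_cast hl
    rw [mul_smul_comm, h.ij]
    simp only [smul_sub, smul_smul]
    push_cast
    congr 2 <;> field_simp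

end Table

end Pool.Agent.H419R3
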